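import Pool.Agent.LibNC38.Defs
import Pool.Agent.LibNC38.B1
import Pool.Agent.LibNC38.B3

set_option autoImplicit false

open Matrix MeasureTheory

namespace LibNC38

/-- square matrices -/
abbrev Mt (n : ℕ) : Type := Matrix (Fin n) (Fin n) ℝ

/-- `v` is a tangent vector of `PD n` at `p`: symmetric with `tr (p⁻¹ v) = 0` -/
def IsTan {n : ℕ} (p : PD n) (v : Mt n) : Prop := vᵀ = v ∧ Matrix.trace (p.1⁻¹ * v) = 0

/-- length of a curve for the norms `N` -/
noncomputable def lenN {n : ℕ} (N : PD n → Mt n → ℝ) (c : ℝ → PD n) (v : ℝ → Mt n) : ℝ :=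
  ∫ s in (0 : ℝ)..1, N (c s) (v s)

/-- `p` and `q` are joined by a piecewise `C¹` curve of `N`-length `l` -/
inductive ConnN {n : ℕ} (N : PD n → Mt n → ℝ) : PD n → PD n → ℝ → Prop
  | seg (c : ℝ → PD n) (v : ℝ → Mt n) (h : IsC1 c v) : ConnN N (c 0) (c 1) (lenN N c v)
  | trans {p q r : PD n} {a b : ℝ} : ConnN N p q a → ConnN N q r b → ConnN N p r (a + b)

/-- the distance defined by the norms `N` -/
noncomputable def dN {n : ℕ} (N : PD n → Mt n → ℝ) (p q : PD n) : ℝ := sInf {l | ConnN N p q l}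

/-- a continuous reversible norm on the tangent bundle, comparable to the symmetric metric:
`c1 |v| ≤ N(v) ≤ c2 |v|` (subadditivity is not needed) -/
structure GN {n : ℕ} (N : PD n → Mt n → ℝ) (c1 c2 : ℝ) : Prop where
  cont : ContinuousOn (fun x : PD n × Mt n => N x.1 x.2) {x | IsTan x.1 x.2}
  hom : ∀ p v, IsTan p v → ∀ r : ℝ, N p (r • v) = |r| * N p v
  pos : 0 < c1
  lo : ∀ p v, IsTan p v → c1 * spd p v ≤ N p v
  hi : ∀ p v, IsTan p v → N p v ≤ c2 * spd p v

/-- symmetric bilinear forms on tangent spaces are given as bilinear forms on all matrices -/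
abbrev Fm (n : ℕ) : Type := LinearMap.BilinForm ℝ (Mt n)

/-- the norm of a form -/
noncomputable def nrm {n : ℕ} (h : PD n → Fm n) (p : PD n) (v : Mt n) : ℝ := √ (h p v v)

/-- velocity of the flat: derivative of `s ↦ sg (y + s z)` at `s = 0` -/
noncomputable def vel {n : ℕ} (y z : V0 n) : Mt n :=
  Matrix.diagonal fun i => 2 * z.1 i * Real.exp (2 * y.1 i)

/-- the Cholesky factor: `x = t tᵀ`, `t` lower triangular with positive diagonal -/
noncomputable def tch {n : ℕ} (x : PD n) : SL n := (chol x).choose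

theorem tch_lower {n : ℕ} (x : PD n) : Lower (tch x) := (chol x).choose_spec.1
theorem tch_pos {n : ℕ} (x : PD n) (i : Fin n) : 0 < (tch x).1 i i := (chol x).choose_spec.2.1 i
theorem tch_eq {n : ℕ} (x : PD n) : x = act (tch x) (o n) := (chol x).choose_spec.2.2

/-- height in the direction `z` -/
noncomputable def ht {n : ℕ} (z : V0 n) (x : PD n) : ℝ := 2 * inner ℝ (Pr x) z / ‖z‖

/-- its differential at `x` -/
noncomputable def dht {n : ℕ} (z : V0 n) (x : PD n) (v : Mt n) : ℝ :=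
  (∑ i, z.1 i * ((tch x)⁻¹.1 * v * (tch x)⁻¹.1ᵀ) i i) / ‖z‖

/-- its gradient at `x`, a unit vector -/
noncomputable def eht {n : ℕ} (z : V0 n) (x : PD n) : Mt n :=
  (tch x).1 * (Matrix.diagonal fun i => z.1 i / ‖z‖) * (tch x).1ᵀ

end LibNC38
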