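import Pool.Agent.LibNG38.GK3
import Pool.Agent.LibNC38.G6
import Pool.Agent.LibNC38.G6a
import Pool.Agent.LibNC38.G7
import Pool.Agent.LibNC38.H1

set_option autoImplicit false

open Matrix MeasureTheory Topology Filter Finset

namespace LibNC38

/-- the form as a function on the group -/
def Jf {n : ℕ} (κ : PD n → Fm n) (v w : Mt n) (g : SL n) : ℝ :=
  κ (act g (o n)) (g.1 * v * g.1ᵀ) (g.1 * w * g.1ᵀ)

/-- diagonal matrix of a vector -/
def dm {n : ℕ} (z : V0 n) : Mt n := Matrix.diagonal fun i => z.1 i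

private theorem gk4_mul {n : ℕ} (g h : SL n) : (g * h).1 = g.1 * h.1 := rfl

private theorem gk4_act_mul {n : ℕ} (g h : SL n) (p : PD n) : act (g * h) p = act g (act h p) := by
  apply Subtype.ext
  change (g * h).1 * p.1 * (g * h).1ᵀ = g.1 * (h.1 * p.1 * h.1ᵀ) * g.1ᵀ
  rw [gk4_mul, Matrix.transpose_mul]
  simp only [Matrix.mul_assoc]

private theorem gk4_cj {n : ℕ} (g h : SL n) (v : Mt n) :
    (g * h).1 * v * (g * h).1ᵀ = g.1 * (h.1 * v * h.1ᵀ) * g.1ᵀ := by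
  rw [gk4_mul, Matrix.transpose_mul]
  simp only [Matrix.mul_assoc]

private theorem gk4_diag {n : ℕ} {g : SL n} (hg : IsDiag g) :
    g.1 = Matrix.diagonal fun i => g.1 i i := by
  ext i j
  by_cases h : i = j
  · subst h
    rw [Matrix.diagonal_apply_eq]
  · rw [Matrix.diagonal_apply_ne _ h]
    exact hg i j h

private theorem gk4_ne {n : ℕ} {g : SL n} (hg : IsDiag g) (i : Fin n) : g.1 i i ≠ 0 := by
  intro h
  have h1 := g.2
  rw [gk4_diag hg, Matrix.det_diagonal] at h1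
  have h2 : ∏ i, g.1 i i = 0 := Finset.prod_eq_zero (f := fun i => g.1 i i) (Finset.mem_univ i) h
  rw [h2] at h1
  exact zero_ne_one h1

/-- conjugation of a diagonal matrix only sees the logarithm -/
private theorem gk4_log {n : ℕ} {γ : SL n} {u : V0 n} (h : IsLog γ u) (a : Fin n → ℝ) :
    γ.1 * Matrix.diagonal a * γ.1ᵀ = (dgm u).1 * Matrix.diagonal a * (dgm u).1ᵀ := by
  have e : (dgm u).1 = Matrix.diagonal fun i => Real.exp (u.1 i) := rfl
  rw [e, gk4_diag h.1, Matrix.diagonal_transpose, Matrix.diagonal_transpose, Matrix.diagonal_mul_diagonal,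
    Matrix.diagonal_mul_diagonal, Matrix.diagonal_mul_diagonal, Matrix.diagonal_mul_diagonal]
  congr 1
  funext i
  have h1 : Real.exp (u.1 i) = |γ.1 i i| := by
    rw [h.2 i, Real.exp_log (abs_pos.2 (gk4_ne h.1 i))]
  rw [h1]
  have h2 := abs_mul_abs_self (γ.1 i i)
  calc γ.1 i i * a i * γ.1 i i = γ.1 i i * γ.1 i i * a i := by ring
    _ = |γ.1 i i| * |γ.1 i i| * a i := by rw [h2]
    _ = _ := by ring

/-- replacing `γ` by `e^u` on the right -/
private theorem gk4_J {n : ℕ} (κ : PD n → Fm n) (v w : V0 n) (H : SL n) {γ : SL n} {u : V0 n} (h : IsLog γ u) :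
    Jf κ (dm v) (dm w) (H * γ) = Jf κ (dm v) (dm w) (H * dgm u) := by
  have h0 : act (H * γ) (o n) = act (H * dgm u) (o n) := by
    apply Subtype.ext
    change (H * γ).1 * 1 * (H * γ).1ᵀ = (H * dgm u).1 * 1 * (H * dgm u).1ᵀ
    rw [gk4_cj, gk4_cj, ← Matrix.diagonal_one, gk4_log h]
  unfold Jf
  rw [h0, gk4_cj H γ, gk4_cj H γ, gk4_cj H (dgm u), gk4_cj H (dgm u)]
  unfold dm
  rw [gk4_log h, gk4_log h]

private theorem gk4_tan {n : ℕ} (v : V0 n) : IsTan (o n) (dm v) := by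
  refine ⟨Matrix.diagonal_transpose _, ?_⟩
  change Matrix.trace ((1 : Mt n)⁻¹ * dm v) = 0
  rw [inv_one, Matrix.one_mul]
  unfold dm
  rw [Matrix.trace_diagonal]
  exact sum_V0 v

/-- polarized invariance -/
private theorem gk4_inv {n : ℕ} {Γ : Subgroup (SL n)} {κ : PD n → Fm n} (h : FmOK Γ κ) {γ : SL n} (hγ : γ ∈ Γ)
    (p : PD n) (v w : Mt n) (hv : IsTan p v) (hw : IsTan p w) :
    κ (act γ p) (γ.1 * v * γ.1ᵀ) (γ.1 * w * γ.1ᵀ) = κ p v w := by
  have hvw : IsTan p (v + w) := by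
    have := tan_facts.2.2.1 p v w 1 1 hv hw
    simpa using this
  have h1 := h.inv γ hγ p _ hvw
  have h2 := h.inv γ hγ p v hv
  have h3 := h.inv γ hγ p w hw
  have e : γ.1 * (v + w) * γ.1ᵀ = γ.1 * v * γ.1ᵀ + γ.1 * w * γ.1ᵀ := by
    rw [Matrix.mul_add, Matrix.add_mul]
  rw [e] at h1
  simp only [map_add, LinearMap.add_apply] at h1
  have s1 := h.symm (act γ p) (γ.1 * v * γ.1ᵀ) (γ.1 * w * γ.1ᵀ)
  have s2 := h.symm p v w
  linarith

/-- left invariance of `Jf` -/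
private theorem gk4_left {n : ℕ} {Γ : Subgroup (SL n)} {κ : PD n → Fm n} (h : FmOK Γ κ) {γ : SL n} (hγ : γ ∈ Γ)
    (v w : V0 n) (H : SL n) : Jf κ (dm v) (dm w) (γ * H) = Jf κ (dm v) (dm w) H := by
  unfold Jf
  rw [gk4_act_mul, gk4_cj, gk4_cj]
  exact gk4_inv h hγ _ _ _ (tan_facts.2.1 H (o n) _ (gk4_tan v)) (tan_facts.2.1 H (o n) _ (gk4_tan w))

private theorem gk4_cont {n : ℕ} {Γ : Subgroup (SL n)} {κ : PD n → Fm n} (h : FmOK Γ κ) (A B : Mt n) :
    Continuous fun g : SL n => Jf κ A B g := by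
  have hval : Continuous fun g : SL n => g.1 := continuous_subtype_val
  have hc : ∀ A : Mt n, Continuous fun g : SL n => g.1 * A * g.1ᵀ := fun A =>
    (hval.matrix_mul continuous_const).matrix_mul hval.matrix_transpose
  have hp : Continuous fun g : SL n => act g (o n) := Continuous.subtype_mk (hc _) _
  have hq : ∀ A : Mt n, Continuous fun g : SL n => κ (act g (o n)) (g.1 * A * g.1ᵀ) (g.1 * A * g.1ᵀ) := fun A =>
    (fm_cont Γ κ h).comp (hp.prodMk (hc A))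
  have e : (fun g : SL n => Jf κ A B g) = fun g =>
      (κ (act g (o n)) (g.1 * (A + B) * g.1ᵀ) (g.1 * (A + B) * g.1ᵀ) - κ (act g (o n)) (g.1 * A * g.1ᵀ) (g.1 * A * g.1ᵀ) -
        κ (act g (o n)) (g.1 * B * g.1ᵀ) (g.1 * B * g.1ᵀ)) / 2 := by
    funext g
    unfold Jf
    rw [Matrix.mul_add, Matrix.add_mul]
    simp only [map_add, LinearMap.add_apply]
    have s1 := h.symm (act g (o n)) (g.1 * A * g.1ᵀ) (g.1 * B * g.1ᵀ)
    linarith
  rw [e]
  exact (((hq (A + B)).sub (hq A)).sub (hq B)).div_const 2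

/-- the form of the deformation on the flat -/
private theorem gk4_vel {n : ℕ} (κ : PD n → Fm n) (g : SL n) (y z : V0 n) :
    pbF g κ (sg y) (vel y z) (vel y z) = 4 * Jf κ (dm z) (dm z) (g * dgm y) := by
  have hv : vel y z = (2 : ℝ) • ((dgm y).1 * dm z * (dgm y).1ᵀ) := by
    have e : (dgm y).1 = Matrix.diagonal fun i => Real.exp (y.1 i) := rfl
    rw [e]
    unfold vel dm
    rw [Matrix.diagonal_transpose, Matrix.diagonal_mul_diagonal, Matrix.diagonal_mul_diagonal, ← Matrix.diagonal_smul]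
    congr 1
    funext i
    rw [Pi.smul_apply, smul_eq_mul, show 2 * y.1 i = y.1 i + y.1 i by ring, Real.exp_add]
    ring
  rw [pbF_apply, hv]
  unfold Jf
  have ha : act g (sg y) = act (g * dgm y) (o n) := by
    rw [gk4_act_mul]
    rfl
  rw [ha, gk4_cj g (dgm y), Matrix.mul_smul, Matrix.smul_mul]
  simp only [map_smul, LinearMap.smul_apply, smul_eq_mul]
  ring

/-- Row GK4. The form on a closed regular flat through `g` (compare `LibNC38/K5b.lean`). `Γ' = cj g Γ`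
is discrete and cocompact and contains the regular diagonal `α`; G6 gives `R`, G6a finiteness, G7 the
coordinates `e`. Periodicity: for `IsLog γ u`, `γ ∈ Γ'`: `γ = dgm u * ε` with a diagonal sign matrix
`ε`, `Jf κ (dm v) (dm w) (g * dgm (y + u)) = Jf κ (dm v) (dm w) (g * dgm y * γ)` (signs commute with
diagonal matrices, `ε (dm v) ε = dm v`, `ε · o = o`) and `g * dgm y * γ = (g γ g⁻¹) * (g * dgm y)`,
`g γ g⁻¹ ∈ Γ`; polarize the invariance of `κ` (FmOK.symm; `g v gᵀ` is tangent). If `z = e l` has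
distinct coordinates and `IsLog γ z`, `γ ∈ Γ'`, then `Reg γ`, and GK2 (`xrayG`) for `Γ'` and the
deformation GK3, with `vel y z = dgm y * (2 dm z) * (dgm y)ᵀ`, gives the constant (`/ 4`). -/
theorem xrayJ {n : ℕ} (hn : 2 ≤ n) (Γ : Subgroup (SL n)) (hd : Disc Γ) (hc : Coc Γ)
    (κ : PD n → Fm n) (h : ℕ → PD n → Fm n) (δ : ℕ → ℝ) (hD : Defo Γ κ h δ) (g α : SL n)
    (hα : IsDiag α) (hr : Reg α) (hαΓ : g * α * g⁻¹ ∈ Γ) :
    ∃ e : (Fin (n - 1) → ℝ) ≃L[ℝ] V0 n,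
      (∀ v w : V0 n, Per (fun x => Jf κ (dm v) (dm w) (g * dgm (e x)))) ∧
      ∀ l : Fin (n - 1) → ℤ,
        (∀ i i', i ≠ i' → (e fun i => (l i : ℝ)).1 i ≠ (e fun i => (l i : ℝ)).1 i') →
        ∃ c, ∀ y, ∫ s in (0 : ℝ)..1, Jf κ (dm (e fun i => (l i : ℝ))) (dm (e fun i => (l i : ℝ)))
          (g * dgm (e (y + s • fun i => (l i : ℝ)))) = c := by
  have hαΓ' : α ∈ cj g Γ := (mem_cj g α Γ).2 hαΓ
  obtain ⟨hd', hc'⟩ := cj_facts g Γ hd hc
  obtain ⟨R, hR⟩ := selberg (cj g Γ) hd' hc' α hα hr hαΓ'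
  obtain ⟨e, he⟩ := lat_basis (by omega) (cj g Γ) (fun R => log_disc (cj g Γ) hd' R) R hR
  have hadd := (flat_facts (n := n)).2.1
  have hcomm := (flat_facts (n := n)).2.2.2.2.2.2.2.1
  have hdgm : Continuous (dgm : V0 n → SL n) := (flat_facts (n := n)).2.2.2.2.2.2.2.2.2.1
  have hlogd := (flat_facts (n := n)).2.2.1
  refine ⟨e, fun v w => ⟨?_, ?_⟩, ?_⟩
  · exact (gk4_cont hD.kap (dm v) (dm w)).comp (continuous_const.mul (hdgm.comp e.continuous))
  · intro x k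
    obtain ⟨γ, hγ, hlog⟩ := (he (e fun i => (k i : ℝ))).2 ⟨k, rfl⟩
    have hγ' : g * γ * g⁻¹ ∈ Γ := (mem_cj g γ Γ).1 hγ
    change Jf κ (dm v) (dm w) (g * dgm (e (x + fun i => (k i : ℝ)))) = Jf κ (dm v) (dm w) (g * dgm (e x))
    rw [map_add, hadd, ← mul_assoc, ← gk4_J κ v w (g * dgm (e x)) hlog]
    have h1 : g * dgm (e x) * γ = (g * γ * g⁻¹) * (g * dgm (e x)) := by
      rw [mul_assoc g, hcomm _ _ (hlogd (e x)).1 hlog.1]
      group
    rw [h1]
    exact gk4_left hD.kap hγ' v w _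
  · intro l hl
    obtain ⟨γ, hγ, hlog⟩ := (he (e fun i => (l i : ℝ))).2 ⟨l, rfl⟩
    have hreg : Reg γ := by
      intro i j hij heq
      apply hl i j hij
      rw [hlog.2 i, hlog.2 j, heq]
    obtain ⟨c, hc2⟩ := xrayG hn (cj g Γ) hc' (pbF g κ) (fun k => pbF g (h k)) δ (defo_cj Γ κ h δ hD g) γ hγ _ hlog hreg R hR
    refine ⟨c / 4, fun y => ?_⟩
    have h2 := hc2 (e y)
    have h3 : ∀ s : ℝ, pbF g κ (sg (e y + s • e fun i => (l i : ℝ))) (vel (e y + s • e fun i => (l i : ℝ)) (e fun i => (l i : ℝ)))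
        (vel (e y + s • e fun i => (l i : ℝ)) (e fun i => (l i : ℝ))) =
        4 * Jf κ (dm (e fun i => (l i : ℝ))) (dm (e fun i => (l i : ℝ))) (g * dgm (e (y + s • fun i => (l i : ℝ)))) := by
      intro s
      rw [gk4_vel, map_add, map_smul]
    simp only [h3] at h2
    rw [intervalIntegral.integral_const_mul] at h2
    linarith

end LibNC38
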