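import Pool.Agent.LibNG38.GF2b

set_option autoImplicit false

open Matrix MeasureTheory Topology Filter Finset

namespace LibNC38

private theorem GF2_riemann (f : ℝ → ℝ) (hf : Continuous f) :
    Tendsto (fun K : ℕ => (∑ j ∈ range K, f ((j : ℝ) / K)) / K) atTop
      (𝓝 (∫ s in (0 : ℝ)..1, f s)) := by
  rw [Metric.tendsto_atTop]
  intro ε hε
  have huc := isCompact_Icc.uniformContinuousOn_of_continuous (hf.continuousOn (s := Set.Icc (0 : ℝ) 1))
  obtain ⟨d, hd, hdd⟩ := Metric.uniformContinuousOn_iff.1 huc (ε / 2) (by positivity)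
  obtain ⟨N, hN⟩ := exists_nat_gt (1 / d)
  refine ⟨N + 1, fun K hK => ?_⟩
  have hK0 : (0 : ℝ) < K := by
    have : (N : ℝ) + 1 ≤ K := by exact_mod_cast hK
    have : (0 : ℝ) ≤ N := Nat.cast_nonneg N
    linarith
  have hKd : 1 / (K : ℝ) < d := by
    have h1 : 1 / d < K := by
      have : (N : ℝ) + 1 ≤ K := by exact_mod_cast hK
      linarith
    rw [div_lt_iff₀ hd] at h1
    rw [div_lt_iff₀ hK0]
    linarith
  have hsum : ∑ j ∈ range K, ∫ s in ((j : ℝ) / K)..(((j + 1 : ℕ) : ℝ) / K), f s = ∫ s in (0 : ℝ)..1, f s := by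
    have h1 := intervalIntegral.sum_integral_adjacent_intervals (f := f) (μ := volume)
      (a := fun j : ℕ => (j : ℝ) / K) (n := K) (fun j _ => hf.intervalIntegrable _ _)
    simp only [Nat.cast_zero, zero_div, div_self hK0.ne'] at h1
    exact h1
  have hdiff : (∑ j ∈ range K, f ((j : ℝ) / K)) / K - ∫ s in (0 : ℝ)..1, f s =
      ∑ j ∈ range K, ∫ s in ((j : ℝ) / K)..(((j + 1 : ℕ) : ℝ) / K), (f ((j : ℝ) / K) - f s) := by
    rw [← hsum, Finset.sum_div, ← Finset.sum_sub_distrib]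
    refine Finset.sum_congr rfl fun j _ => ?_
    rw [intervalIntegral.integral_sub (intervalIntegrable_const) (hf.intervalIntegrable _ _),
      intervalIntegral.integral_const, smul_eq_mul]
    have : ((j + 1 : ℕ) : ℝ) / K - (j : ℝ) / K = 1 / K := by
      push_cast
      ring
    rw [this]
    ring
  rw [Real.dist_eq, hdiff]
  have hterm : ∀ j ∈ range K,
      ‖∫ s in ((j : ℝ) / K)..(((j + 1 : ℕ) : ℝ) / K), (f ((j : ℝ) / K) - f s)‖ ≤ ε / 2 * (1 / K) := by
    intro j hj
    have hjK : (j : ℝ) + 1 ≤ K := by exact_mod_cast Finset.mem_range.1 hj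
    have hj0 : (0 : ℝ) ≤ j := Nat.cast_nonneg j
    have hle : (j : ℝ) / K ≤ ((j + 1 : ℕ) : ℝ) / K := by
      apply div_le_div_of_nonneg_right _ hK0.le
      push_cast
      linarith
    have h1 := intervalIntegral.norm_integral_le_of_norm_le_const (a := (j : ℝ) / K)
      (b := ((j + 1 : ℕ) : ℝ) / K) (f := fun s => f ((j : ℝ) / K) - f s) (C := ε / 2) (by
        intro s hs
        rw [Set.uIoc_of_le hle] at hs
        have hs1 : (j : ℝ) / K < s := hs.1
        have hs2 : s ≤ ((j + 1 : ℕ) : ℝ) / K := hs.2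
        have hs3 : ((j + 1 : ℕ) : ℝ) / K ≤ 1 := by
          rw [div_le_one hK0]
          push_cast
          exact hjK
        have hjd : 0 ≤ (j : ℝ) / K := by positivity
        have hw : ((j + 1 : ℕ) : ℝ) / K = (j : ℝ) / K + 1 / K := by
          push_cast
          ring
        have h2 := hdd ((j : ℝ) / K) ⟨hjd, by linarith⟩ s ⟨by linarith, by linarith⟩ (by
          rw [Real.dist_eq, abs_sub_comm, abs_of_pos (by linarith)]
          linarith)
        rw [Real.dist_eq] at h2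
        exact h2.le)
    have h2 : |((j + 1 : ℕ) : ℝ) / K - (j : ℝ) / K| = 1 / K := by
      have : ((j + 1 : ℕ) : ℝ) / K - (j : ℝ) / K = 1 / K := by
        push_cast
        ring
      rw [this, abs_of_pos (by positivity)]
    rw [h2] at h1
    exact h1
  calc |∑ j ∈ range K, ∫ s in ((j : ℝ) / K)..(((j + 1 : ℕ) : ℝ) / K), (f ((j : ℝ) / K) - f s)|
      ≤ ∑ j ∈ range K, |∫ s in ((j : ℝ) / K)..(((j + 1 : ℕ) : ℝ) / K), (f ((j : ℝ) / K) - f s)| :=
        Finset.abs_sum_le_sum_abs _ _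
    _ ≤ ∑ _j ∈ range K, ε / 2 * (1 / K) := Finset.sum_le_sum hterm
    _ = ε / 2 := by
        rw [Finset.sum_const, Finset.card_range, nsmul_eq_mul]
        field_simp
    _ < ε := by linarith

private theorem GF2_sg_cont {n : ℕ} : Continuous (sg : V0 n → PD n) := by
  have h1 : ∀ y : V0 n, (sg y).1 = Matrix.diagonal fun i => Real.exp (2 * y.1 i) := by
    intro y
    have h2 : (sg y).1 = (dgm y).1 * (1 : Matrix (Fin n) (Fin n) ℝ) * (dgm y).1ᵀ := rfl
    rw [h2, Matrix.mul_one]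
    change (Matrix.diagonal fun i => Real.exp (y.1 i)) * (Matrix.diagonal fun i => Real.exp (y.1 i))ᵀ = _
    rw [Matrix.diagonal_transpose, Matrix.diagonal_mul_diagonal]
    congr 1
    ext i
    rw [← Real.exp_add]
    ring_nf
  rw [continuous_induced_rng]
  have h3 : (Subtype.val ∘ sg : V0 n → Matrix (Fin n) (Fin n) ℝ) =
      fun y => Matrix.diagonal fun i => Real.exp (2 * y.1 i) := by
    funext y
    exact h1 y
  rw [h3]
  apply Continuous.matrix_diagonal
  fun_prop

/-- Row GF2. The integrals over the lines in the direction `z` are constant: Riemann sums of a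
continuous function converge to the integral, GF2b for `(y, y')` and `(y', y)`. -/
theorem xrayN {n : ℕ} (hn : 2 ≤ n) (Γ : Subgroup (SL n)) (α : SL n) (hα : α ∈ Γ) (z : V0 n)
    (hz : IsLog α z) (hr : Reg α) (N : ℕ → PD n → Mt n → ℝ) (ψ : PD n → ℝ) (δ : ℕ → ℝ)
    (h : BlowN Γ z N ψ δ) (R : ℝ)
    (hR : ∀ v : V0 n, ∃ γ ∈ Γ, ∃ w, IsLog γ w ∧ ‖v + w‖ ≤ R) :
    ∃ c, ∀ y : V0 n, ∫ s in (0 : ℝ)..1, ψ (sg (y + s • z)) = c := by
  have hle : ∀ y y' : V0 n, (∫ s in (0 : ℝ)..1, ψ (sg (y + s • z))) ≤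
      ∫ s in (0 : ℝ)..1, ψ (sg (y' + s • z)) := by
    intro y y'
    have hc : Continuous fun s : ℝ => ψ (sg (y + s • z)) := by
      refine h.cont.comp (GF2_sg_cont.comp ?_)
      exact continuous_const.add (continuous_id.smul continuous_const)
    have ht := GF2_riemann (fun s : ℝ => ψ (sg (y + s • z))) hc
    refine le_of_forall_pos_le_add fun η hη => ?_
    exact le_of_tendsto ht (avg_leN hn Γ α hα z hz hr N ψ δ h R hR y y' η hη)
  refine ⟨∫ s in (0 : ℝ)..1, ψ (sg ((0 : V0 n) + s • z)), fun y => ?_⟩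
  exact le_antisymm (hle y 0) (hle 0 y)

end LibNC38
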