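import Pool.Agent.LibNG38.GA3
import Pool.Agent.LibNC38.C2

set_option autoImplicit false

open Matrix MeasureTheory

namespace LibNC38

private theorem gc1_ex {n : ℕ} (N : PD n → Mt n → ℝ) (p q : PD n) : ∃ l, ConnN N p q l := by
  obtain ⟨g, z, hp, hq⟩ := two_pts p q
  obtain ⟨v, hv, -⟩ := straight g 0 z
  have h1 := ConnN.seg (N := N) _ v hv
  have h0 : sg (0 : V0 n) = o n := flat_facts.2.2.2.2.2.2.2.2.2.2.1
  have e0 : act g (sg ((0 : V0 n) + (0 : ℝ) • z)) = p := by
    rw [zero_smul, add_zero, h0, hp]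
  have e1 : act g (sg ((0 : V0 n) + (1 : ℝ) • z)) = q := by
    rw [one_smul, zero_add, hq]
  have h2 : ConnN N (act g (sg ((0 : V0 n) + (0 : ℝ) • z))) (act g (sg ((0 : V0 n) + (1 : ℝ) • z)))
      (lenN N (fun s : ℝ => act g (sg ((0 : V0 n) + s • z))) v) := h1
  rw [e0, e1] at h2
  exact ⟨_, h2⟩

private theorem gc1_nonempty {n : ℕ} (N : PD n → Mt n → ℝ) (p q : PD n) :
    Set.Nonempty {l | ConnN N p q l} := gc1_ex N p q

private theorem gc1_bdd {n : ℕ} (N : PD n → Mt n → ℝ) (c1 c2 : ℝ) (h : GN N c1 c2)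
    (p q : PD n) : BddBelow {l | ConnN N p q l} :=
  ⟨0, fun l hl => (connN_facts N c1 c2 h).2.2.1 p q l hl⟩

private theorem gc1_le {n : ℕ} (N : PD n → Mt n → ℝ) (c1 c2 : ℝ) (h : GN N c1 c2)
    (p q : PD n) (l : ℝ) (hl : ConnN N p q l) : dN N p q ≤ l :=
  csInf_le (gc1_bdd N c1 c2 h p q) hl

private theorem gc1_near {n : ℕ} (N : PD n → Mt n → ℝ) (p q : PD n) (ε : ℝ) (hε : 0 < ε) :
    ∃ l, l < dN N p q + ε ∧ ConnN N p q l := by
  obtain ⟨l, hl, hlt⟩ := exists_lt_of_csInf_lt (gc1_nonempty N p q)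
    (show sInf {l | ConnN N p q l} < dN N p q + ε by
      have : sInf {l | ConnN N p q l} = dN N p q := rfl
      rw [this]; linarith)
  exact ⟨l, hlt, hl⟩

/-- Row GC1. Basic facts on `dN` (same as row C1, `LibNC38/C1.lean`). -/
theorem dN_facts {n : ℕ} (N : PD n → Mt n → ℝ) (c1 c2 : ℝ) (h : GN N c1 c2) :
    (∀ p q, ∃ l, ConnN N p q l) ∧
    (∀ p q, 0 ≤ dN N p q) ∧ (∀ p, dN N p p = 0) ∧ (∀ p q, dN N p q = dN N q p) ∧
    (∀ p q r, dN N p r ≤ dN N p q + dN N q r) ∧
    (∀ p q l, ConnN N p q l → dN N p q ≤ l) ∧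
    (∀ p q ε, 0 < ε → ∃ l, l < dN N p q + ε ∧ ConnN N p q l) := by
  have hf := connN_facts N c1 c2 h
  have hnn : ∀ p q, 0 ≤ dN N p q := fun p q =>
    le_csInf (gc1_nonempty N p q) (fun l hl => hf.2.2.1 p q l hl)
  have hle := gc1_le N c1 c2 h
  refine ⟨gc1_ex N, hnn, ?_, ?_, ?_, hle, gc1_near N⟩
  · intro p
    exact le_antisymm (hle p p 0 (hf.1 p)) (hnn p p)
  · intro p q
    have e : {l | ConnN N p q l} = {l | ConnN N q p l} := by
      ext l
      exact ⟨fun hl => hf.2.1 p q l hl, fun hl => hf.2.1 q p l hl⟩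
    unfold dN
    rw [e]
  · intro p q r
    refine le_of_forall_pos_lt_add fun ε hε => ?_
    obtain ⟨a, ha, hca⟩ := gc1_near N p q (ε / 2) (by linarith)
    obtain ⟨b, hb, hcb⟩ := gc1_near N q r (ε / 2) (by linarith)
    have := hle p r (a + b) (ConnN.trans hca hcb)
    linarith

private theorem gc1_unact {n : ℕ} (g : SL n) (x : PD n) : act g (act g⁻¹ x) = x := by
  rw [← act_facts.2.1, mul_inv_cancel, act_facts.1]

private theorem gc1_unact' {n : ℕ} (g : SL n) (x : PD n) : act g⁻¹ (act g x) = x := by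
  rw [← act_facts.2.1, inv_mul_cancel, act_facts.1]

private theorem gc1_conj {n : ℕ} (g : SL n) (v : Mt n) :
    g.1 * ((g⁻¹).1 * v * ((g⁻¹).1)ᵀ) * (g.1)ᵀ = v := by
  have h1 : g.1 * (g⁻¹).1 = 1 := by
    have := congrArg (fun a : SL n => a.1) (mul_inv_cancel g)
    exact this
  have h2 : ((g⁻¹).1)ᵀ * (g.1)ᵀ = 1 := by
    rw [← Matrix.transpose_mul, h1, Matrix.transpose_one]
  calc g.1 * ((g⁻¹).1 * v * ((g⁻¹).1)ᵀ) * (g.1)ᵀ
      = (g.1 * (g⁻¹).1) * v * (((g⁻¹).1)ᵀ * (g.1)ᵀ) := by simp only [Matrix.mul_assoc]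
    _ = v := by rw [h1, h2, Matrix.one_mul, Matrix.mul_one]

theorem dN_act {n : ℕ} (N N' : PD n → Mt n → ℝ) (c1 c2 c1' c2' : ℝ) (h : GN N c1 c2)
    (h' : GN N' c1' c2') (g : SL n)
    (hg : ∀ x v, IsTan x v → N' (act g x) (g.1 * v * g.1ᵀ) = N x v) (p q : PD n) :
    dN N' (act g p) (act g q) = dN N p q := by
  have hf := connN_facts N c1 c2 h
  have hf' := connN_facts N' c1' c2' h'
  have hg' : ∀ x v, IsTan x v → N (act g⁻¹ x) ((g⁻¹).1 * v * ((g⁻¹).1)ᵀ) = N' x v := by
    intro x v hv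
    have h1 := hg (act g⁻¹ x) ((g⁻¹).1 * v * ((g⁻¹).1)ᵀ) (tan_facts.2.1 g⁻¹ x v hv)
    rw [gc1_unact, gc1_conj] at h1
    exact h1.symm
  have e : {l | ConnN N' (act g p) (act g q) l} = {l | ConnN N p q l} := by
    ext l
    constructor
    · intro hl
      have h1 := hf'.2.2.2.1 g⁻¹ N hg' (act g p) (act g q) l hl
      rw [gc1_unact' g p, gc1_unact' g q] at h1
      exact h1
    · intro hl
      exact hf.2.2.2.1 g N' hg p q l hl
  unfold dN
  rw [e]

private theorem gc1_gn_smul {n : ℕ} (N : PD n → Mt n → ℝ) (c1 c2 : ℝ) (h : GN N c1 c2) (r : ℝ)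
    (hr : 0 < r) : GN (fun x v => r * N x v) (r * c1) (r * c2) where
  cont := continuousOn_const.mul h.cont
  hom := by
    intro p v hv s
    rw [h.hom p v hv s]
    ring
  pos := mul_pos hr h.pos
  lo := by
    intro p v hv
    rw [mul_assoc]
    exact mul_le_mul_of_nonneg_left (h.lo p v hv) hr.le
  hi := by
    intro p v hv
    rw [mul_assoc]
    exact mul_le_mul_of_nonneg_left (h.hi p v hv) hr.le

theorem dN_smul {n : ℕ} (N : PD n → Mt n → ℝ) (c1 c2 : ℝ) (h : GN N c1 c2) (r : ℝ) (hr : 0 < r)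
    (p q : PD n) : dN (fun x v => r * N x v) p q = r * dN N p q := by
  have hr' := gc1_gn_smul N c1 c2 h r hr
  have hf := connN_facts N c1 c2 h
  have hf' := connN_facts (fun x v => r * N x v) (r * c1) (r * c2) hr'
  have hback : ∀ l, ConnN (fun x v => r * N x v) p q l → ConnN N p q (r⁻¹ * l) := by
    intro l hl
    have h1 := hf'.2.2.2.2.1 r⁻¹ p q l hl
    have e : (fun (x : PD n) (v : Mt n) => r⁻¹ * (r * N x v)) = N := by
      funext x v
      rw [← mul_assoc, inv_mul_cancel₀ hr.ne', one_mul]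
    rw [e] at h1
    exact h1
  apply le_antisymm
  · refine le_of_forall_pos_lt_add fun ε hε => ?_
    obtain ⟨a, ha, hca⟩ := gc1_near N p q (ε / (2 * r)) (by positivity)
    have h2 := gc1_le (fun x v => r * N x v) (r * c1) (r * c2) hr' p q (r * a)
      (hf.2.2.2.2.1 r p q a hca)
    have h3 : r * a < r * (dN N p q + ε / (2 * r)) := mul_lt_mul_of_pos_left ha hr
    have h4 : r * (dN N p q + ε / (2 * r)) = r * dN N p q + ε / 2 := by
      field_simp
    rw [h4] at h3
    linarith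
  · refine le_csInf (gc1_nonempty (fun x v => r * N x v) p q) fun l hl => ?_
    have h1 := gc1_le N c1 c2 h p q (r⁻¹ * l) (hback l hl)
    have h2 : r * dN N p q ≤ r * (r⁻¹ * l) := mul_le_mul_of_nonneg_left h1 hr.le
    rw [← mul_assoc, mul_inv_cancel₀ hr.ne', one_mul] at h2
    exact h2

private theorem gc1_dg_spd {n : ℕ} (p q : PD n) : dN spd p q = dg p q := by
  have e : {l | ConnN spd p q l} = {l | Conn (fun _ : PD n => 1) p q l} := by
    ext l
    exact (connN_facts spd 1 1 gn_spd).2.2.2.2.2.2 p q l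
  unfold dN dg dr
  rw [e]

private theorem gc1_lower {n : ℕ} (N : PD n → Mt n → ℝ) (c1 c2 : ℝ) (h : GN N c1 c2)
    (p q : PD n) : c1 * dg p q ≤ dN N p q := by
  refine le_of_forall_pos_le_add fun ε hε => ?_
  obtain ⟨l, hl, hc⟩ := gc1_near N p q ε hε
  have hs := gc1_gn_smul (n := n) spd 1 1 gn_spd c1 h.pos
  obtain ⟨l', hl', hc'⟩ := (connN_facts N c1 c2 h).2.2.2.2.2.1 (fun x v => c1 * spd x v) _ _ hs
    (fun x v hv => h.lo x v hv) p q l hc
  have h1 := gc1_le _ _ _ hs p q l' hc'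
  rw [dN_smul spd 1 1 gn_spd c1 h.pos p q, gc1_dg_spd] at h1
  linarith

private theorem gc1_upper {n : ℕ} (N : PD n → Mt n → ℝ) (c1 c2 : ℝ) (h : GN N c1 c2)
    (p q : PD n) : dN N p q ≤ c2 * dg p q := by
  rcases lt_or_ge 0 c2 with hc2 | hc2
  · have hs := gc1_gn_smul (n := n) spd 1 1 gn_spd c2 hc2
    rw [← gc1_dg_spd, ← dN_smul spd 1 1 gn_spd c2 hc2 p q]
    refine le_of_forall_pos_le_add fun ε hε => ?_
    obtain ⟨l, hl, hc⟩ := gc1_near (fun x v => c2 * spd x v) p q ε hε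
    obtain ⟨l', hl', hc'⟩ := (connN_facts _ _ _ hs).2.2.2.2.2.1 N c1 c2 h
      (fun x v hv => h.hi x v hv) p q l hc
    have h1 := gc1_le N c1 c2 h p q l' hc'
    linarith
  · have hz : ∀ (x : PD n) (v : Mt n), IsTan x v → spd x v = 0 := by
      intro x v hv
      have h0 : 0 ≤ spd x v := Real.sqrt_nonneg _
      have h1 := (h.lo x v hv).trans (h.hi x v hv)
      have h2 : c2 * spd x v ≤ 0 := mul_nonpos_of_nonpos_of_nonneg hc2 h0
      have h3 : c1 * spd x v ≤ 0 := h1.trans h2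
      have h4 := h.pos
      by_contra hne
      have h5 : 0 < spd x v := lt_of_le_of_ne h0 (Ne.symm hne)
      have h6 : 0 < c1 * spd x v := mul_pos h4 h5
      linarith
    have hN0 : GN (fun (x : PD n) (v : Mt n) => 0 * N x v) c1 c2 := by
      refine ⟨?_, ?_, h.pos, ?_, ?_⟩
      · exact continuousOn_const.mul h.cont
      · intro p v hv r
        ring
      · intro p v hv
        rw [hz p v hv]
        simp
      · intro p v hv
        rw [hz p v hv]
        simp
    obtain ⟨l, hl⟩ := gc1_ex N p q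
    have h1 := (connN_facts N c1 c2 h).2.2.2.2.1 0 p q l hl
    obtain ⟨l', hl', hc'⟩ := (connN_facts _ _ _ hN0).2.2.2.2.2.1 N c1 c2 h
      (fun x v hv => by
        have h2 := h.hi x v hv
        rw [hz x v hv, mul_zero] at h2
        rw [zero_mul]
        exact h2) p q (0 * l) h1
    rw [zero_mul] at hl'
    have h3 := gc1_le N c1 c2 h p q l' hc'
    have h4 := gc1_lower N c1 c2 h p q
    have h5 : dg p q ≤ 0 := by
      have h6 : c1 * dg p q ≤ 0 := by linarith
      by_contra hne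
      have h7 : 0 < c1 * dg p q := mul_pos h.pos (not_le.1 hne)
      linarith
    have h8 : 0 ≤ c2 * dg p q := mul_nonneg_of_nonpos_of_nonpos hc2 h5
    linarith

/-- Row GC1: comparison with `dg` (monotonicity and `ConnN spd ↔ Conn 1`, GA3). -/
theorem dN_comp {n : ℕ} (N : PD n → Mt n → ℝ) (c1 c2 : ℝ) (h : GN N c1 c2) :
    (∀ p q, c1 * dg p q ≤ dN N p q) ∧ (∀ p q, dN N p q ≤ c2 * dg p q) :=
  ⟨gc1_lower N c1 c2 h, gc1_upper N c1 c2 h⟩

private theorem gc1_isC1 {n : ℕ} (y z : V0 n) :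
    IsC1 (fun s : ℝ => sg (y + s • z)) (fun s : ℝ => vel (y + s • z) z) := by
  have hco : ∀ (s : ℝ) (i : Fin n), (y + s • z).1 i = y.1 i + s * z.1 i := by
    intro s i
    rfl
  constructor
  · intro s i j
    have e : (fun s : ℝ => (sg (y + s • z)).1 i j)
        = fun s : ℝ => Matrix.diagonal (fun i => Real.exp (2 * (y.1 i + s * z.1 i))) i j := by
      funext s
      rw [flat_facts.1 (y + s • z)]
      simp only [hco]
    rw [e]
    by_cases hij : i = j
    · subst hij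
      have e1 : (fun s : ℝ => Matrix.diagonal (fun i => Real.exp (2 * (y.1 i + s * z.1 i))) i i)
          = fun s : ℝ => Real.exp (2 * (y.1 i + s * z.1 i)) := by
        funext s
        rw [Matrix.diagonal_apply_eq]
      rw [e1]
      have e2 : vel (y + s • z) z i i = Real.exp (2 * (y.1 i + s * z.1 i)) * (2 * z.1 i) := by
        unfold vel
        rw [Matrix.diagonal_apply_eq, hco]
        ring
      rw [e2]
      have h1 : HasDerivAt (fun s : ℝ => 2 * (y.1 i + s * z.1 i)) (2 * z.1 i) s := by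
        have h2 : HasDerivAt (fun s : ℝ => s * z.1 i) (1 * z.1 i) s :=
          (hasDerivAt_id s).mul_const (z.1 i)
        have h3 := (h2.const_add (y.1 i)).const_mul 2
        rw [one_mul] at h3
        exact h3
      exact h1.exp
    · have e1 : (fun s : ℝ => Matrix.diagonal (fun i => Real.exp (2 * (y.1 i + s * z.1 i))) i j)
          = fun _ : ℝ => (0 : ℝ) := by
        funext s
        rw [Matrix.diagonal_apply_ne _ hij]
      rw [e1]
      have e2 : vel (y + s • z) z i j = 0 := by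
        unfold vel
        rw [Matrix.diagonal_apply_ne _ hij]
      rw [e2]
      exact hasDerivAt_const s (0 : ℝ)
  · intro i j
    by_cases hij : i = j
    · subst hij
      have e1 : (fun s : ℝ => vel (y + s • z) z i i)
          = fun s : ℝ => 2 * z.1 i * Real.exp (2 * (y.1 i + s * z.1 i)) := by
        funext s
        unfold vel
        rw [Matrix.diagonal_apply_eq, hco]
      rw [e1]
      fun_prop
    · have e1 : (fun s : ℝ => vel (y + s • z) z i j) = fun _ : ℝ => (0 : ℝ) := by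
        funext s
        unfold vel
        rw [Matrix.diagonal_apply_ne _ hij]
      rw [e1]
      exact continuous_const

/-- Row GC1: length of the straight segment of the flat (B8: the velocity of
`s ↦ sg (y + s z)` is `vel (y + s z) z`). -/
theorem dN_flat {n : ℕ} (N : PD n → Mt n → ℝ) (c1 c2 : ℝ) (h : GN N c1 c2) (y z : V0 n) :
    dN N (sg y) (sg (y + z)) ≤ ∫ s in (0 : ℝ)..1, N (sg (y + s • z)) (vel (y + s • z) z) := by
  have h1 := ConnN.seg (N := N) _ _ (gc1_isC1 y z)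
  have h2 : ConnN N (sg (y + (0 : ℝ) • z)) (sg (y + (1 : ℝ) • z))
      (∫ s in (0 : ℝ)..1, N (sg (y + s • z)) (vel (y + s • z) z)) := h1
  rw [zero_smul, add_zero, one_smul] at h2
  exact gc1_le N c1 c2 h _ _ _ h2

end LibNC38
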