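import Pool.Agent.LibNG38.GA0
import Pool.Agent.LibNC38.B5
import Pool.Agent.LibNC38.C3

set_option autoImplicit false

open Matrix MeasureTheory Topology Filter

namespace LibNC38

private theorem gh2_ST {n : ℕ} (x : PD n) : (tch x)⁻¹.1 * (tch x).1 = 1 := by
  have h : ((tch x)⁻¹ * tch x).1 = (1 : SL n).1 := by rw [inv_mul_cancel]
  exact h

private theorem gh2_TS {n : ℕ} (x : PD n) : (tch x).1 * (tch x)⁻¹.1 = 1 := by
  have h : (tch x * (tch x)⁻¹).1 = (1 : SL n).1 := by rw [mul_inv_cancel]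
  exact h

private theorem gh2_x {n : ℕ} (x : PD n) : x.1 = (tch x).1 * (tch x).1ᵀ := by
  have h := congrArg Subtype.val (tch_eq x)
  have h2 : (act (tch x) (o n)).1 = (tch x).1 * 1 * (tch x).1ᵀ := rfl
  rw [h2, mul_one] at h
  exact h

private theorem gh2_inv {n : ℕ} (x : PD n) : x.1⁻¹ = (tch x)⁻¹.1ᵀ * (tch x)⁻¹.1 := by
  refine Matrix.inv_eq_right_inv ?_
  have h : (tch x).1ᵀ * (tch x)⁻¹.1ᵀ = 1 := by
    rw [← Matrix.transpose_mul, gh2_ST, Matrix.transpose_one]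
  rw [gh2_x x, Matrix.mul_assoc, ← Matrix.mul_assoc (tch x).1ᵀ, h, Matrix.one_mul, gh2_TS]

/-- the transported matrix -/
private noncomputable def gh2W {n : ℕ} (x : PD n) (v : Mt n) : Mt n := (tch x)⁻¹.1 * v * (tch x)⁻¹.1ᵀ

private theorem gh2W_tr {n : ℕ} (x : PD n) (v : Mt n) :
    Matrix.trace (x.1⁻¹ * v) = Matrix.trace (gh2W x v) := by
  rw [gh2_inv, gh2W, Matrix.trace_mul_comm ((tch x)⁻¹.1 * v), ← Matrix.mul_assoc]

private theorem gh2W_tr2 {n : ℕ} (x : PD n) (v : Mt n) :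
    Matrix.trace (x.1⁻¹ * v * (x.1⁻¹ * v)) = Matrix.trace (gh2W x v * gh2W x v) := by
  rw [gh2_inv, gh2W]
  have e1 : (tch x)⁻¹.1ᵀ * (tch x)⁻¹.1 * v * ((tch x)⁻¹.1ᵀ * (tch x)⁻¹.1 * v) =
      (tch x)⁻¹.1ᵀ * ((tch x)⁻¹.1 * v * (tch x)⁻¹.1ᵀ * ((tch x)⁻¹.1 * v)) := by
    simp only [Matrix.mul_assoc]
  have e2 : (tch x)⁻¹.1 * v * (tch x)⁻¹.1ᵀ * ((tch x)⁻¹.1 * v * (tch x)⁻¹.1ᵀ) =
      ((tch x)⁻¹.1 * v * (tch x)⁻¹.1ᵀ * ((tch x)⁻¹.1 * v)) * (tch x)⁻¹.1ᵀ := by
    simp only [Matrix.mul_assoc]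
  rw [e1, e2, Matrix.trace_mul_comm]

private theorem gh2W_symm {n : ℕ} (x : PD n) (v : Mt n) (hv : vᵀ = v) : (gh2W x v)ᵀ = gh2W x v := by
  unfold gh2W
  rw [Matrix.transpose_mul, Matrix.transpose_mul, Matrix.transpose_transpose, hv, Matrix.mul_assoc]

private theorem gh2_nonneg {n : ℕ} (W : Mt n) (hW : Wᵀ = W) : 0 ≤ Matrix.trace (W * W) := by
  have h : Matrix.trace (W * W) = ∑ i, ∑ j, W i j ^ 2 := by
    unfold Matrix.trace
    refine Finset.sum_congr rfl fun i _ => ?_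
    rw [Matrix.diag_apply, Matrix.mul_apply]
    refine Finset.sum_congr rfl fun j _ => ?_
    have : W j i = W i j := by
      have := congrFun (congrFun hW i) j
      rwa [Matrix.transpose_apply] at this
    rw [this, sq]
  rw [h]
  exact Finset.sum_nonneg fun i _ => Finset.sum_nonneg fun j _ => sq_nonneg _

private theorem gh2_spd {n : ℕ} (x : PD n) (v : Mt n) (hv : vᵀ = v) :
    spd x v ^ 2 = Matrix.trace (gh2W x v * gh2W x v) := by
  unfold spd
  rw [gh2W_tr2, Real.sq_sqrt (gh2_nonneg _ (gh2W_symm x v hv))]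

private theorem gh2W_eht {n : ℕ} (z : V0 n) (x : PD n) :
    gh2W x (eht z x) = Matrix.diagonal fun i => z.1 i / ‖z‖ := by
  unfold gh2W eht
  have h : (tch x).1ᵀ * (tch x)⁻¹.1ᵀ = 1 := by
    rw [← Matrix.transpose_mul, gh2_ST, Matrix.transpose_one]
  rw [Matrix.mul_assoc, Matrix.mul_assoc, Matrix.mul_assoc, h, Matrix.mul_one, ← Matrix.mul_assoc, gh2_ST, Matrix.one_mul]

private theorem gh2W_lin {n : ℕ} (x : PD n) (v w : Mt n) (a b : ℝ) :
    gh2W x (a • v + b • w) = a • gh2W x v + b • gh2W x w := by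
  unfold gh2W
  rw [Matrix.mul_add, Matrix.add_mul, Matrix.mul_smul, Matrix.mul_smul, Matrix.smul_mul, Matrix.smul_mul]

private theorem gh2_dht {n : ℕ} (z : V0 n) (x : PD n) (v : Mt n) :
    dht z x v = (∑ i, z.1 i * gh2W x v i i) / ‖z‖ := rfl

private theorem gh2_norm {n : ℕ} (z : V0 n) : ∑ i, z.1 i * z.1 i = ‖z‖ ^ 2 := by
  have h : ‖z‖ ^ 2 = ‖z.1‖ ^ 2 := rfl
  rw [h, EuclideanSpace.norm_sq_eq]
  refine Finset.sum_congr rfl fun i _ => ?_
  rw [Real.norm_eq_abs, sq_abs, sq]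

private theorem gh2_unit {n : ℕ} (z : V0 n) (hz : z ≠ 0) : ∑ i, z.1 i / ‖z‖ * (z.1 i / ‖z‖) = 1 := by
  have hz' : ‖z‖ ≠ 0 := norm_ne_zero_iff.2 hz
  have h : ∀ i, z.1 i / ‖z‖ * (z.1 i / ‖z‖) = z.1 i * z.1 i / ‖z‖ ^ 2 := fun i => by
    field_simp
  rw [Finset.sum_congr rfl fun i _ => h i, ← Finset.sum_div, gh2_norm, div_self (pow_ne_zero 2 hz')]

private theorem gh2_tr_diag {n : ℕ} (W : Mt n) (d : Fin n → ℝ) :
    Matrix.trace (W * Matrix.diagonal d) = ∑ i, W i i * d i := by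
  unfold Matrix.trace
  refine Finset.sum_congr rfl fun i _ => ?_
  rw [Matrix.diag_apply, Matrix.mul_diagonal]

/-- Row GH2. Algebra of the gradient: with `t = tch x`, `v ↦ t⁻¹ v t⁻ᵀ` is an isometry from the
tangent space at `x` (norm `spd x`) to symmetric matrices of trace zero (Frobenius norm). The
gradient is a tangent unit vector and `spd² = dht² + spd² (v - dht v • eht)`. -/
theorem eht_facts {n : ℕ} (z : V0 n) (hz : z ≠ 0) (x : PD n) :
    IsTan x (eht z x) ∧ spd x (eht z x) = 1 ∧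
    (∀ v w a b, dht z x (a • v + b • w) = a * dht z x v + b * dht z x w) ∧
    dht z x (eht z x) = 1 ∧
    ∀ v, IsTan x v →
      spd x v ^ 2 = dht z x v ^ 2 + spd x (v - dht z x v • eht z x) ^ 2 := by
  have hz' : ‖z‖ ≠ 0 := norm_ne_zero_iff.2 hz
  have hsymm : (eht z x)ᵀ = eht z x := by
    unfold eht
    rw [Matrix.transpose_mul, Matrix.transpose_mul, Matrix.transpose_transpose, Matrix.diagonal_transpose, Matrix.mul_assoc]
  have hD2 : Matrix.trace ((Matrix.diagonal fun i => z.1 i / ‖z‖ : Mt n) * Matrix.diagonal fun i => z.1 i / ‖z‖) = 1 := by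
    rw [gh2_tr_diag, ← gh2_unit z hz]
    refine Finset.sum_congr rfl fun i _ => ?_
    rw [Matrix.diagonal_apply_eq]
  have hWD : ∀ v : Mt n, Matrix.trace (gh2W x v * Matrix.diagonal fun i => z.1 i / ‖z‖) = dht z x v := by
    intro v
    rw [gh2_tr_diag, gh2_dht, Finset.sum_div]
    refine Finset.sum_congr rfl fun i _ => ?_
    ring
  refine ⟨⟨hsymm, ?_⟩, ?_, ?_, ?_, ?_⟩
  · rw [gh2W_tr, gh2W_eht, Matrix.trace_diagonal, ← Finset.sum_div, sum_V0, zero_div]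
  · have h := gh2_spd x (eht z x) hsymm
    rw [gh2W_eht, hD2] at h
    have h0 : 0 ≤ spd x (eht z x) := Real.sqrt_nonneg _
    nlinarith
  · intro v w a b
    rw [gh2_dht, gh2_dht, gh2_dht, gh2W_lin]
    have : ∀ i, z.1 i * (a • gh2W x v + b • gh2W x w) i i = a * (z.1 i * gh2W x v i i) + b * (z.1 i * gh2W x w i i) := by
      intro i
      rw [Matrix.add_apply, Matrix.smul_apply, Matrix.smul_apply, smul_eq_mul, smul_eq_mul]
      ring
    rw [Finset.sum_congr rfl fun i _ => this i, Finset.sum_add_distrib, ← Finset.mul_sum, ← Finset.mul_sum]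
    ring
  · rw [← hWD, gh2W_eht, hD2]
  · intro v hv
    set c := dht z x v with hc
    have hv' : (v - c • eht z x)ᵀ = v - c • eht z x := by
      rw [Matrix.transpose_sub, Matrix.transpose_smul, hv.1, hsymm]
    have hW : gh2W x (v - c • eht z x) = gh2W x v - c • Matrix.diagonal fun i => z.1 i / ‖z‖ := by
      have h := gh2W_lin x v (eht z x) 1 (-c)
      rw [gh2W_eht] at h
      rw [one_smul, neg_smul, one_smul, neg_smul, ← sub_eq_add_neg, ← sub_eq_add_neg] at h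
      exact h
    rw [gh2_spd x v hv.1, gh2_spd x _ hv', hW, Matrix.sub_mul, Matrix.mul_sub, Matrix.mul_sub, Matrix.trace_sub,
      Matrix.trace_sub, Matrix.trace_sub, Matrix.mul_smul, Matrix.smul_mul, Matrix.smul_mul, Matrix.mul_smul,
      Matrix.trace_smul, Matrix.trace_smul, Matrix.trace_smul, Matrix.trace_smul,
      Matrix.trace_mul_comm (Matrix.diagonal fun i => z.1 i / ‖z‖) (gh2W x v), hWD, hD2, ← hc]
    simp only [smul_eq_mul]
    ring

end LibNC38
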