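import Pool.Agent.LibNG38.GA0
import Pool.Agent.LibNG38.GH2
import Pool.Agent.LibNC38.B5
import Pool.Agent.LibNC38.C3

set_option autoImplicit false

open Matrix MeasureTheory Topology Filter

namespace LibNC38

/-- entries of `t tᵀ` for a lower triangular matrix `t` -/
private theorem GH3_entry {n : ℕ} (t : Mt n) (ht : ∀ i j, i < j → t i j = 0) (i j : Fin n) :
    (t * tᵀ) i j = (∑ k ∈ Finset.univ.filter (fun k => k < j), t i k * t j k) + t i j * t j j := by
  rw [Matrix.mul_apply]
  simp only [Matrix.transpose_apply]
  have h1 : ∑ k : Fin n, t i k * t j k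
      = ∑ k ∈ Finset.univ.filter (fun k => k < j), t i k * t j k
        + ∑ k ∈ Finset.univ.filter (fun k => ¬ k < j), t i k * t j k :=
    (Finset.sum_filter_add_sum_filter_not _ _ _).symm
  rw [h1]
  congr 1
  rw [Finset.sum_eq_single j]
  · intro k hk hkj
    simp only [Finset.mem_filter, Finset.mem_univ, true_and, not_lt] at hk
    have : j < k := lt_of_le_of_ne hk (Ne.symm hkj)
    rw [ht j k this, mul_zero]
  · intro hj
    simp at hj

/-- uniqueness of the Cholesky factor -/
private theorem GH3_unique {n : ℕ} (t u : Mt n) (ht : ∀ i j, i < j → t i j = 0)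
    (hu : ∀ i j, i < j → u i j = 0) (htp : ∀ i, 0 < t i i) (hup : ∀ i, 0 < u i i)
    (h : t * tᵀ = u * uᵀ) : t = u := by
  have key : ∀ (m : ℕ) (j : Fin n), j.1 = m → ∀ i, t i j = u i j := by
    intro m
    induction m using Nat.strong_induction_on with
    | _ m ih =>
      intro j hj i
      have hs : ∀ i, (∑ k ∈ Finset.univ.filter (fun k => k < j), t i k * t j k)
          = ∑ k ∈ Finset.univ.filter (fun k => k < j), u i k * u j k := by
        intro i
        refine Finset.sum_congr rfl fun k hk => ?_
        simp only [Finset.mem_filter, Finset.mem_univ, true_and] at hk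
        have hk' : k.1 < m := by
          rw [← hj]; exact hk
        rw [ih k.1 hk' k rfl i, ih k.1 hk' k rfl j]
      have e : ∀ i, t i j * t j j = u i j * u j j := by
        intro i
        have h1 := GH3_entry t ht i j
        have h2 := GH3_entry u hu i j
        rw [h, h2, hs i] at h1
        linarith
      have hd : t j j = u j j := by
        have h1 := e j
        have h2 := htp j
        have h3 := hup j
        nlinarith
      have h1 := e i
      rw [hd] at h1
      exact mul_right_cancel₀ (ne_of_gt (hup j)) h1
  ext i j
  exact key j.1 j rfl i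

private theorem GH3_tch {n : ℕ} (x : PD n) : (tch x).1 * (tch x).1ᵀ = x.1 := by
  have h := congrArg Subtype.val (tch_eq x)
  simp only [act, o, mul_one] at h
  exact h.symm

/-- entries of the Cholesky factor are continuous -/
private theorem GH3_cont {n : ℕ} (j : Fin n) :
    ∀ i, Continuous fun x : PD n => (tch x).1 i j := by
  have key : ∀ (m : ℕ) (j : Fin n), j.1 = m → ∀ i, Continuous fun x : PD n => (tch x).1 i j := by
    intro m
    induction m using Nat.strong_induction_on with
    | _ m ih =>
      intro j hj
      have hs : ∀ i, Continuous fun x : PD n =>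
          ∑ k ∈ Finset.univ.filter (fun k => k < j), (tch x).1 i k * (tch x).1 j k := by
        intro i
        refine continuous_finsetSum _ fun k hk => ?_
        simp only [Finset.mem_filter, Finset.mem_univ, true_and] at hk
        have hk' : k.1 < m := by
          rw [← hj]; exact hk
        exact (ih k.1 hk' k rfl i).mul (ih k.1 hk' k rfl j)
      have hx : ∀ i, Continuous fun x : PD n => x.1 i j := by
        intro i
        exact (continuous_subtype_val : Continuous fun x : PD n => x.1).matrix_elem i j
      have e : ∀ (x : PD n) (i : Fin n), x.1 i j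
          = (∑ k ∈ Finset.univ.filter (fun k => k < j), (tch x).1 i k * (tch x).1 j k)
            + (tch x).1 i j * (tch x).1 j j := by
        intro x i
        have h1 := GH3_entry (tch x).1 (tch_lower x) i j
        rw [GH3_tch x] at h1
        exact h1
      have hd : Continuous fun x : PD n => (tch x).1 j j := by
        have h1 : (fun x : PD n => (tch x).1 j j) = fun x : PD n =>
            √ (x.1 j j
              - ∑ k ∈ Finset.univ.filter (fun k => k < j), (tch x).1 j k * (tch x).1 j k) := by
          funext x
          have h2 := e x j
          have h3 : x.1 j j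
              - (∑ k ∈ Finset.univ.filter (fun k => k < j), (tch x).1 j k * (tch x).1 j k)
              = (tch x).1 j j ^ 2 := by
            rw [h2]; ring
          rw [h3, Real.sqrt_sq (tch_pos x j).le]
        rw [h1]
        exact ((hx j).sub (hs j)).sqrt
      intro i
      have h1 : (fun x : PD n => (tch x).1 i j) = fun x : PD n =>
          (x.1 i j
            - ∑ k ∈ Finset.univ.filter (fun k => k < j), (tch x).1 i k * (tch x).1 j k)
            / (tch x).1 j j := by
        funext x
        have h2 := e x i
        have h4 := tch_pos x j
        rw [eq_div_iff (ne_of_gt h4)]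
        rw [h2]; ring
      rw [h1]
      exact ((hx i).sub (hs i)).div hd fun x => ne_of_gt (tch_pos x j)
  exact key j.1 j rfl

/-- Row GH3a. On the flat: `tch (sg y) = dgm y` (uniqueness of the Cholesky factor), so
`vel y z = (2 ‖z‖) • eht z (sg y)`. -/
theorem eht_flat {n : ℕ} (z : V0 n) (hz : z ≠ 0) (y : V0 n) :
    vel y z = (2 * ‖z‖) • eht z (sg y) := by
  have hz' : ‖z‖ ≠ 0 := norm_ne_zero_iff.2 hz
  have ht : (tch (sg y)).1 = Matrix.diagonal fun i => Real.exp (y.1 i) := by
    apply GH3_unique _ _ (tch_lower (sg y)) ?_ (tch_pos (sg y)) ?_ ?_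
    · intro i j hij
      exact Matrix.diagonal_apply_ne _ (ne_of_lt hij)
    · intro i
      rw [Matrix.diagonal_apply_eq]
      exact Real.exp_pos _
    · rw [GH3_tch]
      simp only [sg, act, o, dgm, mul_one]
  unfold vel eht
  rw [ht, Matrix.diagonal_transpose, Matrix.diagonal_mul_diagonal, Matrix.diagonal_mul_diagonal]
  ext i j
  by_cases hij : i = j
  · subst hij
    rw [Matrix.smul_apply, Matrix.diagonal_apply_eq, Matrix.diagonal_apply_eq, smul_eq_mul]
    have : Real.exp (2 * y.1 i) = Real.exp (y.1 i) * Real.exp (y.1 i) := by
      rw [← Real.exp_add]; ring_nf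
    rw [this]
    field_simp
  · rw [Matrix.smul_apply, Matrix.diagonal_apply_ne _ hij, Matrix.diagonal_apply_ne _ hij,
      smul_zero]

/-- Row GH3b. The gradient is continuous because the Cholesky factor is continuous (sequences: the
factors of a convergent sequence are bounded, `∑ j, t i j ^ 2 = x i i`, a limit point is a lower
triangular matrix with nonnegative diagonal, `t tᵀ = x`, determinant one; uniqueness). -/
theorem eht_cont {n : ℕ} (z : V0 n) : Continuous fun x : PD n => eht z x := by
  have h : Continuous fun x : PD n => (tch x).1 := continuous_matrix fun i j => GH3_cont j i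
  unfold eht
  exact (h.matrix_mul continuous_const).matrix_mul h.matrix_transpose

end LibNC38
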