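import Pool.Agent.LibNG38.GH1
import Pool.Agent.LibNG38.GH2
import Pool.Agent.LibNG38.GH3

set_option autoImplicit false

open Matrix MeasureTheory Topology Filter Finset

namespace LibNC38

/-- a continuous symmetric bilinear form on the tangent bundle, invariant under `Γ` -/
structure FmOK {n : ℕ} (Γ : Subgroup (SL n)) (κ : PD n → Fm n) : Prop where
  cont : ∀ v w, Continuous fun p => κ p v w
  symm : ∀ p v w, κ p v w = κ p w v
  inv : ∀ γ ∈ Γ, ∀ p v, IsTan p v → κ (act γ p) (γ.1 * v * γ.1ᵀ) (γ.1 * v * γ.1ᵀ) = κ p v v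

/-- Row GK0a. Joint continuity (expand in matrix units). -/
theorem fm_cont {n : ℕ} (Γ : Subgroup (SL n)) (κ : PD n → Fm n) (h : FmOK Γ κ) :
    Continuous fun x : PD n × Mt n => κ x.1 x.2 x.2 := by
  have hv : ∀ v : Mt n, v = ∑ i, ∑ j, v i j • Matrix.single i j (1 : ℝ) := by
    intro v
    conv_lhs => rw [Matrix.matrix_eq_sum_single v]
    refine Finset.sum_congr rfl fun i _ => Finset.sum_congr rfl fun j _ => ?_
    rw [Matrix.smul_single, smul_eq_mul, mul_one]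
  have key : ∀ (p : PD n) (v : Mt n), κ p v v = ∑ i, ∑ j, ∑ k, ∑ l,
      v i j * (v k l * κ p (Matrix.single k l (1 : ℝ)) (Matrix.single i j (1 : ℝ))) := by
    intro p v
    calc κ p v v = κ p (∑ i, ∑ j, v i j • Matrix.single i j (1 : ℝ))
          (∑ k, ∑ l, v k l • Matrix.single k l (1 : ℝ)) := by rw [← hv v]
      _ = _ := by
        simp only [map_sum, LinearMap.sum_apply, map_smul, LinearMap.smul_apply, smul_eq_mul]
        refine Finset.sum_congr rfl fun i _ => Finset.sum_congr rfl fun j _ => ?_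
        simp only [Finset.mul_sum]
  have h1 : (fun x : PD n × Mt n => κ x.1 x.2 x.2) = fun x : PD n × Mt n => ∑ i, ∑ j, ∑ k, ∑ l,
      x.2 i j * (x.2 k l * κ x.1 (Matrix.single k l (1 : ℝ)) (Matrix.single i j (1 : ℝ))) := by
    funext x
    exact key x.1 x.2
  rw [h1]
  refine continuous_finsetSum _ fun i _ => continuous_finsetSum _ fun j _ =>
    continuous_finsetSum _ fun k _ => continuous_finsetSum _ fun l _ => ?_
  exact (continuous_snd.matrix_elem i j).mul ((continuous_snd.matrix_elem k l).mul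
    ((h.cont _ _).comp continuous_fst))

/-- Row GK0b. A `Γ`-invariant form is bounded with respect to the symmetric metric, `Γ` cocompact:
every point is `act γ⁻¹ (act q (o n))` with `q` in the compact set of `Coc Γ`, on which the form is
bounded on unit tangent vectors (compact set, fm_cont; homogeneity). -/
theorem fm_bdd {n : ℕ} (Γ : Subgroup (SL n)) (hc : Coc Γ) (κ : PD n → Fm n) (h : FmOK Γ κ) :
    ∃ B : ℝ, 0 ≤ B ∧ ∀ x v, IsTan x v → |κ x v v| ≤ B * spd x v ^ 2 := by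
  obtain ⟨Q, hQ, hcov⟩ := hc
  obtain ⟨-, hmul, hact⟩ := act_facts (n := n)
  obtain ⟨hs1, hs2, -, -⟩ := spd_facts (n := n)
  -- the compact set of unit vectors at the base point
  have hcont2 : Continuous fun w : Mt n => ∑ i, ∑ j, w i j ^ 2 :=
    continuous_finsetSum _ fun i _ => continuous_finsetSum _ fun j _ =>
      (continuous_id.matrix_elem i j).pow 2
  have hS : IsCompact {w : Mt n | ∑ i, ∑ j, w i j ^ 2 = 1} := by
    have hbox : IsCompact (Set.pi Set.univ fun _ : Fin n => Set.pi Set.univ fun _ : Fin n =>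
        Set.Icc (-1 : ℝ) 1) :=
      isCompact_univ_pi fun _ => isCompact_univ_pi fun _ => isCompact_Icc
    refine IsCompact.of_isClosed_subset hbox (isClosed_eq hcont2 continuous_const) ?_
    intro w hw i _ j _
    have h1 : w i j ^ 2 ≤ 1 := by
      have h2 : w i j ^ 2 ≤ ∑ j, w i j ^ 2 :=
        Finset.single_le_sum (f := fun j => w i j ^ 2) (fun _ _ => sq_nonneg _) (Finset.mem_univ j)
      have h3 : (∑ j, w i j ^ 2) ≤ ∑ i, ∑ j, w i j ^ 2 :=
        Finset.single_le_sum (f := fun i => ∑ j, w i j ^ 2)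
          (fun _ _ => Finset.sum_nonneg fun _ _ => sq_nonneg _) (Finset.mem_univ i)
      exact (h2.trans h3).trans (le_of_eq hw)
    exact abs_le.1 ((sq_le_one_iff_abs_le_one _).1 h1)
  have hΨ : Continuous fun x : SL n × Mt n => κ (act x.1 (o n)) (x.1.1 * x.2 * x.1.1ᵀ)
      (x.1.1 * x.2 * x.1.1ᵀ) := by
    have h1 : Continuous fun x : SL n × Mt n => x.1.1 := continuous_subtype_val.comp continuous_fst
    have h2 : Continuous fun x : SL n × Mt n => x.1.1 * x.2 * x.1.1ᵀ :=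
      (h1.matrix_mul continuous_snd).matrix_mul h1.matrix_transpose
    have h3 : Continuous fun x : SL n × Mt n => act x.1 (o n) :=
      hact.comp (continuous_fst.prodMk continuous_const)
    exact (fm_cont Γ κ h).comp (h3.prodMk h2)
  obtain ⟨C, hC⟩ := (hQ.prod hS).exists_bound_of_continuousOn hΨ.continuousOn
  refine ⟨max C 0, le_max_right _ _, ?_⟩
  intro x v hv
  obtain ⟨t, -, -, hx⟩ := chol x
  obtain ⟨γ, hγ, hγt⟩ := hcov t
  -- the vector at the base point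
  obtain ⟨w, hw⟩ : ∃ w : Mt n, w = t⁻¹.1 * v * t⁻¹.1ᵀ := ⟨_, rfl⟩
  have ht1 : t.1 * t⁻¹.1 = 1 := by
    rw [← Matrix.SpecialLinearGroup.coe_mul, mul_inv_cancel, Matrix.SpecialLinearGroup.coe_one]
  have hvw : v = t.1 * w * t.1ᵀ := by
    have h2 : t⁻¹.1ᵀ * t.1ᵀ = 1 := by rw [← Matrix.transpose_mul, ht1, Matrix.transpose_one]
    rw [hw]
    calc v = 1 * v * 1 := by rw [one_mul, mul_one]
      _ = (t.1 * t⁻¹.1) * v * (t⁻¹.1ᵀ * t.1ᵀ) := by rw [ht1, h2]
      _ = t.1 * (t⁻¹.1 * v * t⁻¹.1ᵀ) * t.1ᵀ := by simp only [Matrix.mul_assoc]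
  have hwt : wᵀ = w := by
    rw [hw, Matrix.transpose_mul, Matrix.transpose_mul, Matrix.transpose_transpose, hv.1,
      Matrix.mul_assoc]
  have hsq : spd x v ^ 2 = ∑ i, ∑ j, w i j ^ 2 := by
    rw [hvw, hx, hs1, hs2 w hwt, Real.sq_sqrt]
    exact Finset.sum_nonneg fun _ _ => Finset.sum_nonneg fun _ _ => sq_nonneg _
  have hκ : κ x v v = κ (act (γ * t) (o n)) ((γ * t).1 * w * (γ * t).1ᵀ)
      ((γ * t).1 * w * (γ * t).1ᵀ) := by
    rw [← h.inv γ hγ x v hv]
    have h1 : act γ x = act (γ * t) (o n) := by rw [hmul, ← hx]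
    have h2 : γ.1 * v * γ.1ᵀ = (γ * t).1 * w * (γ * t).1ᵀ := by
      rw [Matrix.SpecialLinearGroup.coe_mul, Matrix.transpose_mul, hvw]
      simp only [Matrix.mul_assoc]
    rw [h1, h2]
  rw [hsq, hκ]
  obtain ⟨q, hq⟩ : ∃ q, q = γ * t := ⟨_, rfl⟩
  rw [← hq] at hγt ⊢
  obtain ⟨σ, hσ⟩ : ∃ σ : ℝ, σ = ∑ i, ∑ j, w i j ^ 2 := ⟨_, rfl⟩
  have hσ0 : 0 ≤ σ := by
    rw [hσ]
    exact Finset.sum_nonneg fun _ _ => Finset.sum_nonneg fun _ _ => sq_nonneg _
  rw [← hσ]
  rcases hσ0.eq_or_lt with h0 | hpos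
  · have hw0 : w = 0 := by
      ext i j
      have h2 : w i j ^ 2 ≤ ∑ j, w i j ^ 2 :=
        Finset.single_le_sum (f := fun j => w i j ^ 2) (fun _ _ => sq_nonneg _) (Finset.mem_univ j)
      have h3 : (∑ j, w i j ^ 2) ≤ ∑ i, ∑ j, w i j ^ 2 :=
        Finset.single_le_sum (f := fun i => ∑ j, w i j ^ 2)
          (fun _ _ => Finset.sum_nonneg fun _ _ => sq_nonneg _) (Finset.mem_univ i)
      have h4 : w i j ^ 2 ≤ 0 := by
        rw [← hσ, ← h0] at h3
        exact h2.trans h3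
      have h5 : w i j ^ 2 = 0 := le_antisymm h4 (sq_nonneg _)
      simpa using h5
    rw [hw0, ← h0]
    simp
  · have hr : 0 < √σ := Real.sqrt_pos.2 hpos
    have hr2 : √σ ^ 2 = σ := Real.sq_sqrt hσ0
    obtain ⟨w', hw'⟩ : ∃ w' : Mt n, w' = (√σ)⁻¹ • w := ⟨_, rfl⟩
    have hww : w = √σ • w' := by
      rw [hw', smul_smul, mul_inv_cancel₀ hr.ne', one_smul]
    have hw'S : w' ∈ {w : Mt n | ∑ i, ∑ j, w i j ^ 2 = 1} := by
      change ∑ i, ∑ j, w' i j ^ 2 = 1
      have h1 : ∑ i, ∑ j, w' i j ^ 2 = ((√σ)⁻¹) ^ 2 * ∑ i, ∑ j, w i j ^ 2 := by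
        rw [Finset.mul_sum]
        refine Finset.sum_congr rfl fun i _ => ?_
        rw [Finset.mul_sum]
        refine Finset.sum_congr rfl fun j _ => ?_
        rw [hw', Matrix.smul_apply, smul_eq_mul, mul_pow]
      rw [h1, ← hσ, inv_pow, hr2, inv_mul_cancel₀ hpos.ne']
    have h1 := hC (q, w') ⟨hγt, hw'S⟩
    rw [Real.norm_eq_abs] at h1
    have h2 : κ (act q (o n)) (q.1 * w * q.1ᵀ) (q.1 * w * q.1ᵀ) =
        σ * κ (act q (o n)) (q.1 * w' * q.1ᵀ) (q.1 * w' * q.1ᵀ) := by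
      have h3 : q.1 * w * q.1ᵀ = √σ • (q.1 * w' * q.1ᵀ) := by
        rw [hww, Matrix.mul_smul, Matrix.smul_mul]
      rw [h3]
      simp only [map_smul, LinearMap.smul_apply, smul_eq_mul]
      rw [← mul_assoc, ← pow_two, hr2]
    rw [h2, abs_mul, abs_of_nonneg hσ0, mul_comm]
    exact mul_le_mul_of_nonneg_right (h1.trans (le_max_left _ _)) hσ0

end LibNC38
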