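import Pool.Agent.LibNG38.Defs
import Pool.Agent.LibNC38.A1
import Pool.Agent.LibNC38.A2
import Pool.Agent.LibNC38.B4

set_option autoImplicit false

open Matrix MeasureTheory

namespace LibNC38

private theorem tan_act {n : ℕ} (g : SL n) (p : PD n) (v : Mt n) (h : IsTan p v) :
    IsTan (act g p) (g.1 * v * g.1ᵀ) := by
  obtain ⟨hv, ht⟩ := h
  refine ⟨?_, ?_⟩
  · rw [Matrix.transpose_mul, Matrix.transpose_mul, Matrix.transpose_transpose, hv,
      Matrix.mul_assoc]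
  · have hg : IsUnit g.1.det := by rw [g.2]; exact isUnit_one
    have hgt : IsUnit g.1ᵀ.det := by rw [Matrix.det_transpose]; exact hg
    have h1 : (act g p).1⁻¹ * (g.1 * v * g.1ᵀ) = g.1ᵀ⁻¹ * ((p.1⁻¹ * v) * g.1ᵀ) := by
      change (g.1 * p.1 * g.1ᵀ)⁻¹ * (g.1 * v * g.1ᵀ) = _
      rw [Matrix.mul_inv_rev, Matrix.mul_inv_rev]
      calc g.1ᵀ⁻¹ * (p.1⁻¹ * g.1⁻¹) * (g.1 * v * g.1ᵀ)
          = g.1ᵀ⁻¹ * p.1⁻¹ * (g.1⁻¹ * g.1) * v * g.1ᵀ := by simp only [Matrix.mul_assoc]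
        _ = g.1ᵀ⁻¹ * ((p.1⁻¹ * v) * g.1ᵀ) := by
            rw [Matrix.nonsing_inv_mul _ hg, Matrix.mul_one]; simp only [Matrix.mul_assoc]
    rw [h1, Matrix.trace_mul_comm, Matrix.mul_assoc, Matrix.mul_nonsing_inv _ hgt, Matrix.mul_one]
    exact ht

private theorem tan_vel {n : ℕ} (c : ℝ → PD n) (v : ℝ → Mt n) (h : IsC1 c v) (s : ℝ) :
    IsTan (c s) (v s) := by
  obtain ⟨g, -, -, hg⟩ := chol (c s)
  obtain ⟨-, hsym, hact, -, -⟩ := curve_facts c v h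
  have hu : IsUnit g.1.det := by rw [g.2]; exact isUnit_one
  have hinv : (g⁻¹ : SL n).1 * g.1 = 1 := by
    rw [← Matrix.SpecialLinearGroup.coe_mul, inv_mul_cancel, Matrix.SpecialLinearGroup.coe_one]
  have hinv' : g.1 * (g⁻¹ : SL n).1 = 1 := by
    rw [← Matrix.SpecialLinearGroup.coe_mul, mul_inv_cancel, Matrix.SpecialLinearGroup.coe_one]
  have hinvt : g.1ᵀ * (g⁻¹ : SL n).1ᵀ = 1 := by
    rw [← Matrix.transpose_mul, hinv, Matrix.transpose_one]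
  have hinvt' : (g⁻¹ : SL n).1ᵀ * g.1ᵀ = 1 := by
    rw [← Matrix.transpose_mul, hinv', Matrix.transpose_one]
  -- the curve `C u = g⁻¹ (c u)`
  have hC := hact g⁻¹
  have hCs : (act g⁻¹ (c s)).1 = 1 := by
    rw [hg]
    change (g⁻¹ : SL n).1 * (g.1 * (1 : Mt n) * g.1ᵀ) * (g⁻¹ : SL n).1ᵀ = 1
    rw [Matrix.mul_one]
    calc (g⁻¹ : SL n).1 * (g.1 * g.1ᵀ) * (g⁻¹ : SL n).1ᵀ
        = ((g⁻¹ : SL n).1 * g.1) * (g.1ᵀ * (g⁻¹ : SL n).1ᵀ) := by simp only [Matrix.mul_assoc]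
      _ = 1 := by rw [hinv, hinvt, Matrix.mul_one]
  have hd := mnr_deriv (fun u => (act g⁻¹ (c u)).1) ((g⁻¹ : SL n).1 * v s * (g⁻¹ : SL n).1ᵀ) s hCs
    (fun i j => hC.der s i j) n le_rfl
  have hc : (fun u => mnr (act g⁻¹ (c u)).1 n) = fun _ => (1 : ℝ) := by
    funext u
    rw [mnr_self]
    exact (act g⁻¹ (c u)).2.2
  rw [hc] at hd
  have h0 := hd.unique (hasDerivAt_const s (1 : ℝ))
  have htr : Matrix.trace ((g⁻¹ : SL n).1 * v s * (g⁻¹ : SL n).1ᵀ) = 0 := by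
    rw [← h0, Matrix.trace]
    refine Finset.sum_congr rfl fun j _ => ?_
    rw [if_pos j.2, Matrix.diag_apply]
  have hT : IsTan (o n) ((g⁻¹ : SL n).1 * v s * (g⁻¹ : SL n).1ᵀ) := by
    refine ⟨?_, ?_⟩
    · rw [Matrix.transpose_mul, Matrix.transpose_mul, Matrix.transpose_transpose, hsym s,
        Matrix.mul_assoc]
    · change Matrix.trace ((1 : Mt n)⁻¹ * _) = 0
      rw [inv_one, Matrix.one_mul]
      exact htr
  have h2 := tan_act g (o n) _ hT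
  rw [← hg] at h2
  have h3 : g.1 * ((g⁻¹ : SL n).1 * v s * (g⁻¹ : SL n).1ᵀ) * g.1ᵀ = v s := by
    calc g.1 * ((g⁻¹ : SL n).1 * v s * (g⁻¹ : SL n).1ᵀ) * g.1ᵀ
        = (g.1 * (g⁻¹ : SL n).1) * v s * ((g⁻¹ : SL n).1ᵀ * g.1ᵀ) := by
          simp only [Matrix.mul_assoc]
      _ = v s := by rw [hinv', hinvt', Matrix.one_mul, Matrix.mul_one]
  rw [h3] at h2
  exact h2

/-- Row GA0. Tangent vectors: velocities of curves are tangent (at time `t` let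
`c t = act g (o n)`, B3, and `C s = act g⁻¹ (c s)`: `C t = o n`, `det (C s) = 1`, so by B4 with
`i = n` (`mnr_self`) the trace of `g⁻¹ v g⁻ᵀ` is zero, and this is `tr (p⁻¹ v)`), the group acts on
tangent vectors, they form a linear space. -/
theorem tan_facts {n : ℕ} :
    (∀ (c : ℝ → PD n) (v : ℝ → Mt n), IsC1 c v → ∀ s, IsTan (c s) (v s)) ∧
    (∀ (g : SL n) (p : PD n) (v : Mt n), IsTan p v → IsTan (act g p) (g.1 * v * g.1ᵀ)) ∧
    (∀ (p : PD n) (v w : Mt n) (a b : ℝ), IsTan p v → IsTan p w → IsTan p (a • v + b • w)) ∧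
    (∀ (c : ℝ → PD n) (v : ℝ → Mt n), IsC1 c v → ∀ (N : PD n → Mt n → ℝ) (c1 c2 : ℝ), GN N c1 c2 →
      Continuous fun s => N (c s) (v s)) := by
  refine ⟨tan_vel, tan_act, ?_, ?_⟩
  · rintro p v w a b ⟨hv, hv'⟩ ⟨hw, hw'⟩
    refine ⟨?_, ?_⟩
    · rw [Matrix.transpose_add, Matrix.transpose_smul, Matrix.transpose_smul, hv, hw]
    · rw [Matrix.mul_add, Matrix.mul_smul, Matrix.mul_smul, Matrix.trace_add, Matrix.trace_smul,
        Matrix.trace_smul, hv', hw', smul_zero, smul_zero, add_zero]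
  · intro c v h N c1 c2 hN
    have hc : Continuous c := (curve_facts c v h).1
    have hv : Continuous v := continuous_matrix fun i j => h.cont i j
    exact hN.cont.comp_continuous (f := fun s => (c s, v s)) (hc.prodMk hv)
      (fun s => tan_vel c v h s)

end LibNC38
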