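import Pool.Agent.LibNG38.GA0

set_option autoImplicit false

open Matrix MeasureTheory

namespace LibNC38

private theorem GA3_tan0 {n : ℕ} (p : PD n) : IsTan p (0 : Mt n) := by
  constructor
  · exact Matrix.transpose_zero
  · rw [Matrix.mul_zero, Matrix.trace_zero]

private theorem GA3_refl {n : ℕ} (N : PD n → Mt n → ℝ) (c1 c2 : ℝ) (h : GN N c1 c2) (p : PD n) :
    ConnN N p p 0 := by
  have h0 : IsC1 (fun _ : ℝ => p) (fun _ => (0 : Matrix (Fin n) (Fin n) ℝ)) := by
    refine ⟨fun s i j => ?_, fun i j => ?_⟩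
    · simpa using hasDerivAt_const s (p.1 i j)
    · exact continuous_const
  have h1 := ConnN.seg (N := N) (fun _ : ℝ => p) (fun _ => (0 : Matrix (Fin n) (Fin n) ℝ)) h0
  have h2 : lenN N (fun _ : ℝ => p) (fun _ => (0 : Matrix (Fin n) (Fin n) ℝ)) = 0 := by
    unfold lenN
    have h3 : N p (0 : Matrix (Fin n) (Fin n) ℝ) = 0 := by
      have h4 := h.hom p 0 (GA3_tan0 p) 0
      rw [zero_smul, abs_zero, zero_mul] at h4
      exact h4
    simp [h3]
  rw [h2] at h1
  exact h1

private theorem GA3_symm {n : ℕ} (N : PD n → Mt n → ℝ) (c1 c2 : ℝ) (hN : GN N c1 c2) {p q : PD n} {l : ℝ}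
    (h : ConnN N p q l) : ConnN N q p l := by
  induction h with
  | seg c v h =>
    have h1 := (curve_facts c v h).2.2.2.1 1 (-1)
    have h2 := ConnN.seg (N := N) _ _ h1
    have h3 : lenN N (fun s => c (1 + -1 * s)) (fun s => (-1 : ℝ) • v (1 + -1 * s)) = lenN N c v := by
      unfold lenN
      have h4 : ∀ s : ℝ, N (c (1 + -1 * s)) ((-1 : ℝ) • v (1 + -1 * s)) =
          (fun t => N (c t) (v t)) (1 - s) := by
        intro s
        have h5 : (1 : ℝ) + -1 * s = 1 - s := by ring
        simp only [h5]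
        rw [hN.hom _ _ (tan_facts.1 c v h _)]
        simp
      simp only [h4]
      rw [intervalIntegral.integral_comp_sub_left (fun t => N (c t) (v t)) 1]
      norm_num
    rw [h3] at h2
    have h6 : (1 : ℝ) + -1 * 0 = 1 := by norm_num
    have h7 : (1 : ℝ) + -1 * 1 = 0 := by norm_num
    simp only [h6, h7] at h2
    exact h2
  | trans _ _ ih1 ih2 =>
    rw [add_comm]
    exact ConnN.trans ih2 ih1

private theorem GA3_nonneg {n : ℕ} (N : PD n → Mt n → ℝ) (c1 c2 : ℝ) (hN : GN N c1 c2) {p q : PD n} {l : ℝ}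
    (h : ConnN N p q l) : 0 ≤ l := by
  induction h with
  | seg c v h =>
    unfold lenN
    exact intervalIntegral.integral_nonneg zero_le_one
      fun s _ => (mul_nonneg hN.pos.le (spd_facts.2.2.2 _ _)).trans (hN.lo _ _ (tan_facts.1 c v h s))
  | trans _ _ ih1 ih2 => exact add_nonneg ih1 ih2

private theorem GA3_act {n : ℕ} (N : PD n → Mt n → ℝ) (g : SL n) (N' : PD n → Mt n → ℝ)
    (hg : ∀ x v, IsTan x v → N' (act g x) (g.1 * v * g.1ᵀ) = N x v) {p q : PD n} {l : ℝ}
    (h : ConnN N p q l) : ConnN N' (act g p) (act g q) l := by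
  induction h with
  | seg c v h =>
    have h1 := (curve_facts c v h).2.2.1 g
    have h2 := ConnN.seg (N := N') _ _ h1
    have h3 : lenN N' (fun s => act g (c s)) (fun s => g.1 * v s * g.1ᵀ) = lenN N c v := by
      unfold lenN
      have h4 : ∀ s : ℝ, N' (act g (c s)) (g.1 * v s * g.1ᵀ) = N (c s) (v s) :=
        fun s => hg _ _ (tan_facts.1 c v h s)
      simp only [h4]
    rw [h3] at h2
    exact h2
  | trans _ _ ih1 ih2 => exact ConnN.trans ih1 ih2

private theorem GA3_mul {n : ℕ} (N : PD n → Mt n → ℝ) (r : ℝ) {p q : PD n} {l : ℝ} (h : ConnN N p q l) :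
    ConnN (fun x v => r * N x v) p q (r * l) := by
  induction h with
  | seg c v h =>
    have h2 := ConnN.seg (N := fun x v => r * N x v) c v h
    have h3 : lenN (fun x v => r * N x v) c v = r * lenN N c v := by
      unfold lenN
      rw [← intervalIntegral.integral_const_mul]
    rw [h3] at h2
    exact h2
  | trans _ _ ih1 ih2 =>
    rw [mul_add]
    exact ConnN.trans ih1 ih2

private theorem GA3_mono {n : ℕ} (N : PD n → Mt n → ℝ) (c1 c2 : ℝ) (hN : GN N c1 c2)
    (N' : PD n → Mt n → ℝ) (c1' c2' : ℝ) (hN' : GN N' c1' c2')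
    (hle : ∀ x v, IsTan x v → N' x v ≤ N x v) {p q : PD n} {l : ℝ} (h : ConnN N p q l) :
    ∃ l' ≤ l, ConnN N' p q l' := by
  induction h with
  | seg c v h =>
    refine ⟨lenN N' c v, ?_, ConnN.seg c v h⟩
    unfold lenN
    apply intervalIntegral.integral_mono_on zero_le_one
    · exact (tan_facts.2.2.2 c v h N' c1' c2' hN').intervalIntegrable _ _
    · exact (tan_facts.2.2.2 c v h N c1 c2 hN).intervalIntegrable _ _
    · intro s _
      exact hle _ _ (tan_facts.1 c v h s)
  | trans _ _ ih1 ih2 =>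
    obtain ⟨a, ha, h1⟩ := ih1
    obtain ⟨b, hb, h2⟩ := ih2
    exact ⟨a + b, add_le_add ha hb, ConnN.trans h1 h2⟩

private theorem GA3_len {n : ℕ} (c : ℝ → PD n) (v : ℝ → Mt n) :
    lenN spd c v = len (fun _ => 1) c v := by
  unfold lenN len
  simp only [one_mul]

private theorem GA3_iff {n : ℕ} (p q : PD n) (l : ℝ) :
    ConnN spd p q l ↔ Conn (fun _ : PD n => 1) p q l := by
  constructor
  · intro h
    induction h with
    | seg c v h =>
      rw [GA3_len]
      exact Conn.seg c v h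
    | trans _ _ ih1 ih2 => exact Conn.trans ih1 ih2
  · intro h
    induction h with
    | seg c v h =>
      rw [← GA3_len]
      exact ConnN.seg c v h
    | trans _ _ ih1 ih2 => exact ConnN.trans ih1 ih2

/-- Row GA3. Facts on `ConnN` by induction on the chain (same as row A3, `LibNC38/A3.lean`, with
`N (c s) (v s)` instead of `ρ (c s) * spd (c s) (v s)`; integrability from GA0). The last part:
`N = spd` gives the old `Conn (fun _ => 1)`. -/
theorem connN_facts {n : ℕ} (N : PD n → Mt n → ℝ) (c1 c2 : ℝ) (h : GN N c1 c2) :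
    (∀ p, ConnN N p p 0) ∧
    (∀ p q l, ConnN N p q l → ConnN N q p l) ∧
    (∀ p q l, ConnN N p q l → 0 ≤ l) ∧
    (∀ (g : SL n) (N' : PD n → Mt n → ℝ),
      (∀ x v, IsTan x v → N' (act g x) (g.1 * v * g.1ᵀ) = N x v) →
      ∀ p q l, ConnN N p q l → ConnN N' (act g p) (act g q) l) ∧
    (∀ r : ℝ, ∀ p q l, ConnN N p q l → ConnN (fun x v => r * N x v) p q (r * l)) ∧
    (∀ (N' : PD n → Mt n → ℝ) (c1' c2' : ℝ), GN N' c1' c2' → (∀ x v, IsTan x v → N' x v ≤ N x v) →
      ∀ p q l, ConnN N p q l → ∃ l' ≤ l, ConnN N' p q l') ∧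
    (∀ p q l, ConnN spd p q l ↔ Conn (fun _ : PD n => 1) p q l) :=
  ⟨GA3_refl N c1 c2 h, fun _ _ _ h1 => GA3_symm N c1 c2 h h1, fun _ _ _ h1 => GA3_nonneg N c1 c2 h h1,
    fun g N' hg _ _ _ h1 => GA3_act N g N' hg h1, fun r _ _ _ h1 => GA3_mul N r h1,
    fun N' c1' c2' hN' hle _ _ _ h1 => GA3_mono N c1 c2 h N' c1' c2' hN' hle h1, GA3_iff⟩

private theorem GA3_inv {n : ℕ} (p : PD n) : p.1⁻¹ = p.1.adjugate := by
  rw [Matrix.inv_def, p.2.2, Ring.inverse_one, one_smul]

theorem gn_spd {n : ℕ} : GN (spd : PD n → Mt n → ℝ) 1 1 := by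
  refine ⟨?_, fun p v _ r => spd_facts.2.2.1 p v r, one_pos, fun p v _ => (one_mul _).le,
    fun p v _ => (one_mul _).ge⟩
  apply Continuous.continuousOn
  unfold spd
  simp only [GA3_inv]
  apply Real.continuous_sqrt.comp
  apply Continuous.matrix_trace
  have h1 : Continuous fun x : PD n × Mt n => x.1.1.adjugate :=
    (continuous_subtype_val.comp continuous_fst).matrix_adjugate
  exact (h1.matrix_mul continuous_snd).matrix_mul (h1.matrix_mul continuous_snd)

end LibNC38
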