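import Pool.Agent.LibNG38.GA4
import Pool.Agent.LibNG38.GC1
import Pool.Agent.LibNC38.C3
import Pool.Agent.LibNC38.C5

set_option autoImplicit false

open Matrix MeasureTheory Topology Filter

namespace LibNC38

/-- Row GC6. The metric space `(PD n, dN N)` and its geodesics (same as row C6,
`LibNC38/C6.lean`). -/
theorem mspN {n : ℕ} (N : PD n → Mt n → ℝ) (c1 c2 : ℝ) (h : GN N c1 c2) :
    ∃ m : MetricSpace (PD n), (∀ p q, @dist _ m.toDist p q = dN N p q) ∧
      m.toUniformSpace.toTopologicalSpace = instTopologicalSpaceSubtype ∧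
      @ProperSpace _ m.toPseudoMetricSpace := by
  have hc1 : 0 < c1 := h.pos
  obtain ⟨-, d0, d1, d2, d3, -, -⟩ := dN_facts N c1 c2 h
  obtain ⟨k1, k2'⟩ := dN_comp N c1 c2 h
  set c3 : ℝ := max c2 1 with hc3
  have hc3p : 0 < c3 := lt_of_lt_of_le one_pos (le_max_right _ _)
  have k2 : ∀ p q, dN N p q ≤ c3 * dg p q := fun p q =>
    (k2' p q).trans (mul_le_mul_of_nonneg_right (le_max_left _ _) (dg_facts.1 p q))
  have hH : ∀ s : Set (PD n), IsOpen s ↔ ∀ x ∈ s, ∃ ε > 0, ∀ y, dN N x y < ε → y ∈ s := by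
    intro s
    constructor
    · intro hs x hx
      obtain ⟨ε, hε, h1⟩ := (dg_nhds x).1 s (hs.mem_nhds hx)
      refine ⟨c1 * ε, by positivity, fun y hy => h1 y ?_⟩
      have h2 : c1 * dg x y < c1 * ε := (k1 x y).trans_lt hy
      exact lt_of_mul_lt_mul_left h2 hc1.le
    · intro hs
      rw [isOpen_iff_mem_nhds]
      intro x hx
      obtain ⟨ε, hε, h1⟩ := hs x hx
      filter_upwards [(dg_nhds x).2 (ε / c3) (by positivity)] with y hy
      refine h1 y ((k2 x y).trans_lt ?_)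
      rw [lt_div_iff₀ hc3p] at hy
      linarith
  have hsep : ∀ x y : PD n, dN N x y = 0 → x = y := by
    intro x y hxy
    by_contra hne
    have hU : ({y}ᶜ : Set (PD n)) ∈ 𝓝 x := isOpen_compl_singleton.mem_nhds hne
    obtain ⟨ε, hε, h1⟩ := (dg_nhds x).1 _ hU
    have h2 : dg x y ≤ 0 := by
      have h3 := k1 x y
      rw [hxy] at h3
      by_contra h4
      push Not at h4
      nlinarith
    exact h1 y (h2.trans_lt hε) rfl
  let m : MetricSpace (PD n) := MetricSpace.ofDistTopology (dN N) d1 d2 d3 hH hsep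
  have hm : m.toUniformSpace.toTopologicalSpace = instTopologicalSpaceSubtype := rfl
  refine ⟨m, fun p q => rfl, hm, ?_⟩
  refine @ProperSpace.mk _ m.toPseudoMetricSpace ?_
  intro x r
  have hcl : @IsClosed _ instTopologicalSpaceSubtype (@Metric.closedBall _ m.toPseudoMetricSpace x r) := by
    rw [← hm]
    exact @Metric.isClosed_closedBall _ m.toPseudoMetricSpace x r
  refine IsCompact.of_isClosed_subset (dg_ball x (r / c1)) hcl ?_
  intro y hy
  have h1 : dN N y x ≤ r := hy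
  rw [d2] at h1
  change dg x y ≤ r / c1
  rw [le_div_iff₀ hc1]
  linarith [k1 x y]

theorem dN_geod {n : ℕ} (N : PD n → Mt n → ℝ) (c1 c2 : ℝ) (h : GN N c1 c2) (p q : PD n) :
    ∃ c : ℝ → PD n, c 0 = p ∧ c (dN N p q) = q ∧
      ∀ u ∈ Set.Icc 0 (dN N p q), ∀ v ∈ Set.Icc 0 (dN N p q), dN N (c u) (c v) = |u - v| := by
  obtain ⟨m, hm1, -, hm3⟩ := mspN N c1 c2 h
  obtain ⟨-, -, -, -, -, d4, d5⟩ := dN_facts N c1 c2 h
  have hmid : ∀ x y : PD n, ∀ ε : ℝ, 0 < ε → ∃ z, @dist _ m.toDist x z ≤ @dist _ m.toDist x y / 2 + ε ∧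
      @dist _ m.toDist z y ≤ @dist _ m.toDist x y / 2 + ε := by
    intro x y ε hε
    simp only [hm1]
    obtain ⟨l, hl, hc⟩ := d5 x y ε hε
    obtain ⟨-, -, hnn, -⟩ := connN_facts N c1 c2 h
    have hl0 : 0 ≤ l := hnn x y l hc
    obtain ⟨z, hz1, hz2⟩ := connN_cut N c1 c2 h x y l hc (l / 2) (by linarith) (by linarith)
    refine ⟨z, (d4 _ _ _ hz1).trans (by linarith), (d4 _ _ _ hz2).trans (by linarith)⟩
  have key := @geod_of_mid (PD n) m hm3 hmid p q
  simp only [hm1] at key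
  exact key

end LibNC38
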