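import Pool.Agent.LibNG38.GC6
import Pool.Agent.LibNC38.D2
import Pool.Agent.LibNC38.E4

set_option autoImplicit false

open Matrix MeasureTheory Topology Filter

namespace LibNC38

/-- E4 for a distance function `d` and a topology given in advance -/
private theorem propA_auxG {Y V : Type*} [m : MetricSpace Y] [ProperSpace Y] [NormedAddCommGroup V]
    [NormedSpace ℝ V] [FiniteDimensional ℝ V] (t : TopologicalSpace Y)
    (ht : m.toUniformSpace.toTopologicalSpace = t) (d : Y → Y → ℝ) (hd : ∀ x y, dist x y = d x y)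
    (hg : ∀ p q, ∃ c : ℝ → Y, c 0 = p ∧ c (d p q) = q ∧
      ∀ u ∈ Set.Icc 0 (d p q), ∀ v ∈ Set.Icc 0 (d p q), d (c u) (c v) = |u - v|)
    (hnc : NoConj d) (α : Y → Y) (hα : ∀ x y, d (α x) (α y) = d x y)
    (P : Y → V) (hP : @Continuous Y V t _ P) (lam : V) (hlam : lam ≠ 0)
    (hPα : ∀ x, P (α x) = P x + lam)
    (σ : V → Y) (hσ : @Continuous V Y _ t σ) (hPσ : ∀ v, P (σ v) = v)
    {I : Type*} (T : I → Y → Y) (z : I → V) (hT : ∀ i x y, d (T i x) (T i y) = d x y)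
    (hTα : ∀ i x, T i (α x) = α (T i x)) (hPT : ∀ i x, P (T i x) = P x + z i)
    (hTσ : ∀ i v, T i (σ v) = σ (v + z i)) (R : ℝ) (hR : ∀ v, ∃ i, ‖v + z i‖ ≤ R)
    (hcpt : ∀ C, ∃ K, @IsCompact Y t K ∧ {x | ‖P x‖ ≤ C ∧ d x (α x) ≤ C} ⊆ K) (y : V) :
    ∃ x, P x = y ∧ ∀ x', d x (α x) ≤ d x' (α x') := by
  subst ht
  obtain rfl : (fun x y : Y => dist x y) = d := by
    funext x y
    exact hd x y
  have hα' : Isometry α := Isometry.of_dist_eq hα
  refine propA hg hnc α hα' P hP lam hlam hPα σ hσ hPσ T z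
    (fun i => Isometry.of_dist_eq (hT i)) hTα hPT hTσ R hR ?_ y
  intro C
  obtain ⟨K, hK, hsub⟩ := hcpt C
  refine IsCompact.of_isClosed_subset hK ?_ hsub
  exact (isClosed_le hP.norm continuous_const).inter
    (isClosed_le (continuous_id.dist hα'.continuous) continuous_const)

/-- invariance of the norms under a matrix -/
def InvN {n : ℕ} (N : PD n → Mt n → ℝ) (g : SL n) : Prop :=
  ∀ x v, IsTan x v → N (act g x) (g.1 * v * g.1ᵀ) = N x v

/-- Row GF0. PROP A for the metric `dN N` (same as row F0, `LibNC38/F0.lean`). -/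
theorem propA_dN {n : ℕ} (hn : 2 ≤ n) (N : PD n → Mt n → ℝ) (c1 c2 : ℝ) (h : GN N c1 c2)
    (hnc : NoConj (dN N)) (Γ : Subgroup (SL n)) (hN : ∀ γ ∈ Γ, InvN N γ)
    (α : SL n) (hα : α ∈ Γ) (z : V0 n) (hz : IsLog α z) (hr : Reg α) (R : ℝ)
    (hR : ∀ v : V0 n, ∃ γ ∈ Γ, ∃ w, IsLog γ w ∧ ‖v + w‖ ≤ R) (y : V0 n) :
    ∃ x, Pr x = y ∧ ∀ x', dN N x (act α x) ≤ dN N x' (act α x') := by
  obtain ⟨m, hm, htop, hprop⟩ := mspN N c1 c2 h
  have hz0 : z ≠ 0 := by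
    intro h0
    have hne : ∀ i, α.1 i i ≠ 0 := by
      have h1 : α.1 = Matrix.diagonal fun i => α.1 i i := by
        ext i j
        by_cases hij : i = j
        · subst hij
          rw [Matrix.diagonal_apply_eq]
        · rw [Matrix.diagonal_apply_ne _ hij, hz.1 i j hij]
      have h2 : ∏ i, α.1 i i = 1 := by
        rw [← Matrix.det_diagonal, ← h1, α.2]
      intro i hi
      have h3 : ∏ i, α.1 i i = 0 := Finset.prod_eq_zero (f := fun i => α.1 i i)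
        (Finset.mem_univ i) hi
      exact zero_ne_one (h3.symm.trans h2)
    have h1 : ∀ i, |α.1 i i| = 1 := by
      intro i
      have h2 : Real.log |α.1 i i| = 0 := by
        rw [← hz.2 i, h0]
        rfl
      exact Real.eq_one_of_pos_of_log_eq_zero (abs_pos.2 (hne i)) h2
    have h3 := hr ⟨0, by omega⟩ ⟨1, by omega⟩ (by simp)
    rw [h1, h1] at h3
    exact h3 rfl
  have hinv : ∀ γ ∈ Γ, ∀ p q, dN N (act γ p) (act γ q) = dN N p q := fun γ hγ p q =>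
    dN_act N N c1 c2 c1 c2 h h γ (hN γ hγ) p q
  have hdc := (dN_comp N c1 c2 h).1
  refine @propA_auxG (PD n) (V0 n) m hprop _ _ _ _ htop (dN N) hm (dN_geod N c1 c2 h) hnc (act α)
    (hinv α hα) Pr Pr_facts.2.2.1 z hz0 (Pr_facts.2.2.2.2 α z hz) sg
    flat_facts.2.2.2.2.2.2.2.2.1 Pr_facts.2.2.2.1
    {i : SL n × V0 n // i.1 ∈ Γ ∧ IsLog i.1 i.2} (fun i => act i.1.1) (fun i => i.1.2)
    (fun i => hinv i.1.1 i.2.1) ?_ (fun i x => Pr_facts.2.2.2.2 i.1.1 i.1.2 i.2.2 x)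
    (fun i v => flat_facts.2.2.2.1 i.1.1 i.1.2 v i.2.2) R ?_ ?_ y
  · intro i x
    rw [← act_facts.2.1, ← act_facts.2.1,
      flat_facts.2.2.2.2.2.2.2.1 i.1.1 α i.2.2.1 hz.1]
  · intro v
    obtain ⟨γ, hγ, w, hw, hvw⟩ := hR v
    exact ⟨⟨(γ, w), hγ, hw⟩, hvw⟩
  · intro C
    refine ⟨_, cpt0 α hz.1 hr (max C (C / c1)), ?_⟩
    rintro x ⟨h1, h2⟩
    refine ⟨h1.trans (le_max_left _ _), le_trans ?_ (le_max_right _ _)⟩
    rw [le_div_iff₀ h.pos]
    have h3 := (hdc x (act α x)).trans h2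
    linarith

end LibNC38
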