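import Pool.Agent.LibNG38.GF1a

set_option autoImplicit false

open Matrix MeasureTheory Topology Filter Finset

namespace LibNC38

/-- Row GF1 (compare `LibNC38/F1.lean`). From GF1a:
`2 ‖z‖ = ht z (act α x) - ht z x = ∑ (ht z (q (j+1)) - ht z (q j)) ≤ (μ/K) ∑ 1 / m j`,
`m j = 1 + t j`, `t j = δ (ψ j - E)`, `|t j| ≤ δ (B + E) ≤ 1/2`, and `1 / (1 + t) ≤ 1 - t + 2 t²` for
`|t| ≤ 1/2`. -/
theorem lower_bdN {n : ℕ} (N : PD n → Mt n → ℝ) (c2 : ℝ) (h : GN N 1 c2) (α : SL n) (z : V0 n)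
    (hz : IsLog α z) (hz0 : z ≠ 0) (hNα : InvN N α) (ψ : PD n → ℝ) (B : ℝ) (hB : ∀ x, |ψ x| ≤ B)
    (δ : ℝ) (hδ : 0 < δ)
    (hNψ : ∀ x v, IsTan x v → (1 + δ * ψ x) * |dht z x v| ≤ N x v) (x : PD n) (K : ℕ)
    (hK : 0 < K) (ε : ℝ)
    (hε : ∀ x', dg x' (act α x') ≤ dN N x (act α x) → dg x' (sg (Pr x')) ≤ ε) (E : ℝ) (hE0 : 0 ≤ E)
    (hE : ∀ (x' : PD n) (τ : ℝ), 0 ≤ τ → τ ≤ 1 → dg x' (sg (Pr x + τ • z)) ≤
      ε + √ (dN N x (act α x) ^ 2 / 4 - ‖z‖ ^ 2) + 2 * dN N x (act α x) / K →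
      ψ (sg (Pr x + τ • z)) - E ≤ ψ x')
    (hδE : δ * (B + E) ≤ 1 / 2) :
    2 * ‖z‖ ≤ dN N x (act α x) * (1 - δ * ((∑ j ∈ range K,
      ψ (sg (Pr x + ((j : ℝ) / K) • z))) / K - E) + 2 * δ ^ 2 * (B + E) ^ 2) := by
  have hμ0 : 0 ≤ dN N x (act α x) := (dN_facts N 1 c2 h).2.1 _ _
  have hN' : (0 : ℝ) < K := by exact_mod_cast hK
  have ht : ∀ j : ℕ, |δ * (ψ (sg (Pr x + ((j : ℝ) / K) • z)) - E)| ≤ δ * (B + E) := by
    intro j
    rw [abs_mul, abs_of_pos hδ]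
    refine mul_le_mul_of_nonneg_left ?_ hδ.le
    have h1 := abs_le.1 (hB (sg (Pr x + ((j : ℝ) / K) • z)))
    rw [abs_le]
    constructor
    · linarith [h1.1]
    · linarith [h1.2]
  obtain ⟨q, hq0, hqN, hq⟩ := chainN N c2 h α z hz hz0 hNα ψ δ hδ hNψ x K hK ε hε E hE
    (by
      intro j _
      have h2 := (abs_le.1 (ht j)).1
      linarith)
  have htel : ∑ j ∈ range K, (LibNC38.ht z (q (j + 1)) - LibNC38.ht z (q j)) =
      LibNC38.ht z (q K) - LibNC38.ht z (q 0) :=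
    Finset.sum_range_sub (fun j => LibNC38.ht z (q j)) K
  have hstep : ∀ j ∈ range K, LibNC38.ht z (q (j + 1)) - LibNC38.ht z (q j) ≤
      dN N x (act α x) / K *
      (1 - δ * (ψ (sg (Pr x + ((j : ℝ) / K) • z)) - E) + 2 * (δ * (B + E)) ^ 2) := by
    intro j hj
    have hj' := hq j (Finset.mem_range.1 hj)
    have ht' := ht j
    obtain ⟨t, htt⟩ : ∃ t, t = δ * (ψ (sg (Pr x + ((j : ℝ) / K) • z)) - E) := ⟨_, rfl⟩
    rw [← htt] at hj' ht' ⊢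
    have hM : 0 ≤ dN N x (act α x) / K := div_nonneg hμ0 hN'.le
    generalize dN N x (act α x) / K = M at *
    generalize LibNC38.ht z (q (j + 1)) - LibNC38.ht z (q j) = D at *
    have ht2 : -(1 / 2) ≤ t := by linarith [(abs_le.1 ht').1]
    have ht3 : t ^ 2 ≤ (δ * (B + E)) ^ 2 := by
      rw [← sq_abs t]
      exact pow_le_pow_left₀ (abs_nonneg t) ht' 2
    have e1 : 1 ≤ (1 + t) * (1 - t + 2 * t ^ 2) := by
      have e2 : (1 + t) * (1 - t + 2 * t ^ 2) = 1 + t ^ 2 * (1 + 2 * t) := by ring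
      have e3 : 0 ≤ t ^ 2 * (1 + 2 * t) := mul_nonneg (sq_nonneg t) (by linarith)
      linarith
    have e4 : 0 ≤ 1 - t + 2 * t ^ 2 := by nlinarith [sq_nonneg (4 * t - 1)]
    have e5 : M * (1 - t + 2 * t ^ 2) ≤ M * (1 - t + 2 * (δ * (B + E)) ^ 2) :=
      mul_le_mul_of_nonneg_left (by linarith) hM
    rcases le_total D 0 with hD | hD
    · exact hD.trans ((mul_nonneg hM e4).trans e5)
    · calc D = D * 1 := (mul_one D).symm
        _ ≤ D * ((1 + t) * (1 - t + 2 * t ^ 2)) := mul_le_mul_of_nonneg_left e1 hD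
        _ = ((1 + t) * D) * (1 - t + 2 * t ^ 2) := by ring
        _ ≤ M * (1 - t + 2 * t ^ 2) := mul_le_mul_of_nonneg_right hj' e4
        _ ≤ M * (1 - t + 2 * (δ * (B + E)) ^ 2) := e5
  have hz2 : 2 * ‖z‖ = LibNC38.ht z (act α x) - LibNC38.ht z x := by
    have hzn : ‖z‖ ≠ 0 := norm_ne_zero_iff.2 hz0
    unfold LibNC38.ht
    rw [Pr_facts.2.2.2.2 α z hz x, inner_add_left, real_inner_self_eq_norm_sq]
    field_simp
    ring
  rw [hz2]
  rw [hq0, hqN] at htel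
  rw [← htel]
  refine (Finset.sum_le_sum hstep).trans (le_of_eq ?_)
  rw [← Finset.mul_sum, Finset.sum_add_distrib, Finset.sum_sub_distrib, ← Finset.mul_sum,
    Finset.sum_sub_distrib, Finset.sum_const, Finset.sum_const, Finset.sum_const, Finset.card_range,
    nsmul_eq_mul, nsmul_eq_mul, nsmul_eq_mul]
  field_simp

end LibNC38
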