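import Pool.Agent.LibNG38.GL
import Pool.Agent.LibNG38.GF0

set_option autoImplicit false

open Matrix MeasureTheory Topology Filter Finset

namespace LibNC38

private theorem gf1a_act_one {n : ℕ} (p : PD n) : act (1 : SL n) p = p := by
  apply Subtype.ext
  simp [act]

private theorem gf1a_flat {n : ℕ} (y w : V0 n) : dg (sg y) (sg w) = 2 * ‖y - w‖ := by
  have h := dg_flat (1 : SL n) y w
  rwa [gf1a_act_one, gf1a_act_one] at h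

private theorem gf1a_stewart {F : Type*} [NormedAddCommGroup F] [InnerProductSpace ℝ F] (a z : F)
    (τ μ : ℝ) (h0 : 0 ≤ τ) (h1 : τ ≤ 1)
    (ha : 2 * ‖a‖ ≤ τ * μ) (hb : 2 * ‖a - z‖ ≤ (1 - τ) * μ) :
    2 * ‖a - τ • z‖ ≤ √ (μ ^ 2 / 4 - ‖z‖ ^ 2) := by
  have e1 : ‖a - τ • z‖ ^ 2 = ‖a‖ ^ 2 - 2 * (τ * inner ℝ a z) + τ ^ 2 * ‖z‖ ^ 2 := by
    rw [norm_sub_sq_real, real_inner_smul_right, norm_smul, mul_pow, Real.norm_eq_abs, sq_abs]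
  have e2 : ‖a - z‖ ^ 2 = ‖a‖ ^ 2 - 2 * inner ℝ a z + ‖z‖ ^ 2 := norm_sub_sq_real a z
  have e3 : ‖a - τ • z‖ ^ 2 = (1 - τ) * ‖a‖ ^ 2 + τ * ‖a - z‖ ^ 2 - τ * (1 - τ) * ‖z‖ ^ 2 := by
    rw [e1, e2]; ring
  have hA : ‖a‖ ^ 2 ≤ (τ * μ / 2) ^ 2 := by
    apply pow_le_pow_left₀ (norm_nonneg a)
    linarith
  have hB : ‖a - z‖ ^ 2 ≤ ((1 - τ) * μ / 2) ^ 2 := by
    apply pow_le_pow_left₀ (norm_nonneg _)
    linarith
  have hz : ‖z‖ ≤ μ / 2 := by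
    have : z = a - (a - z) := by abel
    have h2 : ‖z‖ ≤ ‖a‖ + ‖a - z‖ := by
      calc ‖z‖ = ‖a - (a - z)‖ := by rw [← this]
        _ ≤ _ := norm_sub_le _ _
    linarith
  have hnn : 0 ≤ μ ^ 2 / 4 - ‖z‖ ^ 2 := by nlinarith [norm_nonneg z]
  have h5 : ‖a - τ • z‖ ^ 2 ≤ τ * (1 - τ) * (μ ^ 2 / 4 - ‖z‖ ^ 2) := by
    rw [e3]
    have h6 := mul_le_mul_of_nonneg_left hA (sub_nonneg.2 h1)
    have h7 := mul_le_mul_of_nonneg_left hB h0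
    nlinarith
  have h8 : τ * (1 - τ) ≤ 1 / 4 := by nlinarith [sq_nonneg (τ - 1 / 2)]
  have h9 : (2 * ‖a - τ • z‖) ^ 2 ≤ μ ^ 2 / 4 - ‖z‖ ^ 2 := by
    have := mul_le_mul_of_nonneg_right h8 hnn
    nlinarith
  exact Real.le_sqrt_of_sq_le h9

/-- Row GF1a. The chain (compare `LibNC38/F1a.lean`). `μ = dN N x (act α x) > 0`, `c` a minimizing
geodesic from `x` to `act α x` (GC6), `q j = c (j μ / K)`. `dg ≤ dN N` (GC1, `c1 = 1`).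
(a) `dN N (q j) (act α (q j)) ≤ dN N (q j) (act α x) + dN N x (q j) = μ` (GC1 dN_act), so by `hε`
`dg (q j) (sg (Pr (q j))) ≤ ε`. (b) `2 ‖Pr (q j) - Pr x‖ ≤ (j/K) μ`,
`2 ‖Pr x + z - Pr (q j)‖ ≤ (1 - j/K) μ` give by the Stewart identity
`4 ‖Pr (q j) - Pr x - (j/K) z‖² ≤ μ²/4 - ‖z‖²`.
(c) so `dg (q j) (sg (Pr x + (j/K) z)) ≤ ε + √(μ²/4 - ‖z‖²)` and for `dg (q j) x' < 2 μ / K` `hE`
gives `ψ x' ≥ ψ (sg (Pr x + (j/K) z)) - E`; GL with `R = 2 μ / K`,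
`m = 1 + δ (ψ (sg ..) - E)`. -/
theorem chainN {n : ℕ} (N : PD n → Mt n → ℝ) (c2 : ℝ) (h : GN N 1 c2) (α : SL n) (z : V0 n)
    (hz : IsLog α z) (hz0 : z ≠ 0) (hNα : InvN N α) (ψ : PD n → ℝ) (δ : ℝ) (hδ : 0 < δ)
    (hNψ : ∀ x v, IsTan x v → (1 + δ * ψ x) * |dht z x v| ≤ N x v) (x : PD n) (K : ℕ)
    (hK : 0 < K) (ε : ℝ)
    (hε : ∀ x', dg x' (act α x') ≤ dN N x (act α x) → dg x' (sg (Pr x')) ≤ ε) (E : ℝ)
    (hE : ∀ (x' : PD n) (τ : ℝ), 0 ≤ τ → τ ≤ 1 → dg x' (sg (Pr x + τ • z)) ≤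
      ε + √ (dN N x (act α x) ^ 2 / 4 - ‖z‖ ^ 2) + 2 * dN N x (act α x) / K →
      ψ (sg (Pr x + τ • z)) - E ≤ ψ x')
    (hm : ∀ j < K, 0 ≤ 1 + δ * (ψ (sg (Pr x + ((j : ℝ) / K) • z)) - E)) :
    ∃ q : ℕ → PD n, q 0 = x ∧ q K = act α x ∧ ∀ j < K,
      (1 + δ * (ψ (sg (Pr x + ((j : ℝ) / K) • z)) - E)) * (ht z (q (j + 1)) - ht z (q j)) ≤
        dN N x (act α x) / K := by
  obtain ⟨-, hnn, -, hsymm, htri, -, -⟩ := dN_facts N 1 c2 h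
  obtain ⟨-, -, gsymm, gtri⟩ := @dg_facts n
  obtain ⟨hlow, -⟩ := dN_comp N 1 c2 h
  have hlow' : ∀ p q, dg p q ≤ dN N p q := fun p q => by simpa using hlow p q
  obtain ⟨c, hc0, hc1, hc⟩ := dN_geod N 1 c2 h x (act α x)
  have hPα : Pr (act α x) = Pr x + z := Pr_facts.2.2.2.2 α z hz x
  have hμpos : 0 < dN N x (act α x) := by
    have h1 := Pr_lip_dg x (act α x)
    rw [hPα, add_sub_cancel_left] at h1
    have h2 := hlow' x (act α x)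
    have h3 : 0 < ‖z‖ := norm_pos_iff.2 hz0
    linarith
  generalize hμ : dN N x (act α x) = μ at *
  have hμ0 : 0 ≤ μ := hμpos.le
  have hN' : (0 : ℝ) < K := by exact_mod_cast hK
  have hNμ : (K : ℝ) * (μ / K) = μ := by field_simp
  have hmemj : ∀ j : ℕ, j ≤ K → (j : ℝ) * (μ / K) ∈ Set.Icc 0 μ := by
    intro j hj
    refine ⟨by positivity, ?_⟩
    have h1 : (j : ℝ) ≤ K := by exact_mod_cast hj
    calc (j : ℝ) * (μ / K) ≤ K * (μ / K) := mul_le_mul_of_nonneg_right h1 (by positivity)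
      _ = μ := hNμ
  have h0mem : (0 : ℝ) ∈ Set.Icc 0 μ := ⟨le_rfl, hμ0⟩
  have hμmem : μ ∈ Set.Icc 0 μ := ⟨hμ0, le_rfl⟩
  refine ⟨fun j => c (j * (μ / K)), by simp [hc0], by simp only [hNμ, hc1], fun j hj => ?_⟩
  show (1 + δ * (ψ (sg (Pr x + ((j : ℝ) / K) • z)) - E)) *
    (ht z (c (((j + 1 : ℕ) : ℝ) * (μ / K))) - ht z (c (j * (μ / K)))) ≤ μ / K
  have hjm := hmemj j hj.le
  have hjm1 := hmemj (j + 1) hj
  -- distances along the geodesic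
  have d0 : dN N x (c (j * (μ / K))) = j * (μ / K) := by
    have := hc 0 h0mem _ hjm
    rwa [hc0, zero_sub, abs_neg, abs_of_nonneg hjm.1] at this
  have d1 : dN N (c (j * (μ / K))) (act α x) = μ - j * (μ / K) := by
    have := hc _ hjm μ hμmem
    rwa [hc1, abs_sub_comm, abs_of_nonneg (sub_nonneg.2 hjm.2)] at this
  have d2 : dN N (c (j * (μ / K))) (c (((j + 1 : ℕ) : ℝ) * (μ / K))) = μ / K := by
    rw [hc _ hjm _ hjm1]
    have : (j : ℝ) * (μ / K) - ((j + 1 : ℕ) : ℝ) * (μ / K) = - (μ / K) := by push_cast; ring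
    rw [this, abs_neg, abs_of_nonneg (by positivity)]
  generalize hq : c (j * (μ / K)) = q at *
  generalize hq' : c (((j + 1 : ℕ) : ℝ) * (μ / K)) = q' at *
  -- (a)
  have ha1 : dN N q (act α q) ≤ μ := by
    have h1 := htri q (act α x) (act α q)
    rw [dN_act N N 1 c2 1 c2 h h α hNα, d1, d0] at h1
    linarith
  have ha2 : dg q (sg (Pr q)) ≤ ε := hε q ((hlow' _ _).trans ha1)
  -- (b)
  have hτ0 : 0 ≤ (j : ℝ) / K := by positivity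
  have hτ1 : (j : ℝ) / K ≤ 1 := by
    rw [div_le_one hN']
    exact_mod_cast hj.le
  have e4 : (j : ℝ) * (μ / K) = (j : ℝ) / K * μ := by ring
  have hb1 : 2 * ‖Pr q - Pr x‖ ≤ (j : ℝ) / K * μ := by
    have h1 := Pr_lip_dg x q
    have h2 := hlow' x q
    rw [d0, e4] at h2
    exact h1.trans h2
  have hb2 : 2 * ‖(Pr q - Pr x) - z‖ ≤ (1 - (j : ℝ) / K) * μ := by
    have h1 := Pr_lip_dg q (act α x)
    have h2 := hlow' q (act α x)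
    rw [d1, e4] at h2
    have h3 : ‖(Pr q - Pr x) - z‖ = ‖Pr (act α x) - Pr q‖ := by
      rw [hPα, ← norm_neg]
      congr 1
      abel
    rw [h3]
    linarith
  have hb3 : 2 * ‖Pr q - Pr x - ((j : ℝ) / K) • z‖ ≤ √ (μ ^ 2 / 4 - ‖z‖ ^ 2) :=
    gf1a_stewart (Pr q - Pr x) z ((j : ℝ) / K) μ hτ0 hτ1 hb1 hb2
  -- (c)
  have hc3 : dg q (sg (Pr x + ((j : ℝ) / K) • z)) ≤ ε + √ (μ ^ 2 / 4 - ‖z‖ ^ 2) := by
    have h1 := gtri q (sg (Pr q)) (sg (Pr x + ((j : ℝ) / K) • z))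
    rw [gf1a_flat] at h1
    have h2 : Pr q - (Pr x + ((j : ℝ) / K) • z) = Pr q - Pr x - ((j : ℝ) / K) • z := by abel
    rw [h2] at h1
    linarith
  have hR : ∀ x', dg q x' < 2 * μ / K → ∀ v, IsTan x' v →
      (1 + δ * (ψ (sg (Pr x + ((j : ℝ) / K) • z)) - E)) * |dht z x' v| ≤ N x' v := by
    intro x' hx' v hv
    refine le_trans ?_ (hNψ x' v hv)
    have h1 : dg x' (sg (Pr x + ((j : ℝ) / K) • z)) ≤
        ε + √ (μ ^ 2 / 4 - ‖z‖ ^ 2) + 2 * μ / K := by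
      have h2 := gtri x' q (sg (Pr x + ((j : ℝ) / K) • z))
      rw [gsymm x' q] at h2
      linarith
    have h4 := hE x' ((j : ℝ) / K) hτ0 hτ1 h1
    have h5 := mul_le_mul_of_nonneg_left h4 hδ.le
    apply mul_le_mul_of_nonneg_right _ (abs_nonneg _)
    linarith
  have hlt : dN N q q' < 2 * μ / K := by
    rw [d2]
    have h7 : 2 * μ / K = 2 * (μ / K) := by ring
    have h8 : 0 < μ / K := by positivity
    rw [h7]
    linarith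
  have h6 := loc_lowN N c2 h z q q' (2 * μ / K) _ (hm j hj) hR hlt
  rw [d2] at h6
  exact h6

end LibNC38
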