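import Mathlib

set_option autoImplicit false

open Topology Filter

namespace LibNC38

/-- Row GF2l. Real analysis: insert the upper bound for `μ` in the last inequality (the bracket is
positive for large `k`), divide by `2 M`, subtract `1`, divide by `δ k`, let `k → ∞`. -/
theorem lim_lemmaN (δ μ : ℕ → ℝ) (M a x ε η b : ℝ) (hM : 0 < M) (hδ0 : ∀ k, 0 < δ k)
    (hδ : Tendsto δ atTop (𝓝 0)) (h2 : ∀ᶠ k in atTop, μ k ≤ 2 * M * (1 + δ k * (x + ε)))
    (h3 : ∀ᶠ k in atTop, 2 * M ≤ μ k * (1 - δ k * (a - η) + 2 * δ k ^ 2 * b ^ 2)) :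
    a ≤ x + ε + η := by
  have hB : Tendsto (fun k => 1 - δ k * (a - η) + 2 * δ k ^ 2 * b ^ 2) atTop (𝓝 1) := by
    have h := ((tendsto_const_nhds (x := (1 : ℝ))).sub (hδ.mul_const (a - η))).add
      (((hδ.pow 2).const_mul 2).mul_const (b ^ 2))
    simpa using h
  have hBpos : ∀ᶠ k in atTop, 0 < 1 - δ k * (a - η) + 2 * δ k ^ 2 * b ^ 2 :=
    hB.eventually (lt_mem_nhds one_pos)
  have hf : Tendsto (fun k => x + ε + η + δ k * (2 * b ^ 2 - (x + ε) * (a - η)) +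
      2 * δ k ^ 2 * ((x + ε) * b ^ 2)) atTop (𝓝 (x + ε + η)) := by
    have h := ((tendsto_const_nhds (x := x + ε + η)).add
      (hδ.mul_const (2 * b ^ 2 - (x + ε) * (a - η)))).add
      (((hδ.pow 2).const_mul 2).mul_const ((x + ε) * b ^ 2))
    simpa using h
  refine ge_of_tendsto hf ?_
  filter_upwards [h2, h3, hBpos] with k hk2 hk3 hkB
  have hd := hδ0 k
  have h4 : 2 * M ≤ 2 * M * (1 + δ k * (x + ε)) * (1 - δ k * (a - η) + 2 * δ k ^ 2 * b ^ 2) :=
    hk3.trans (mul_le_mul_of_nonneg_right hk2 hkB.le)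
  have h5 : 0 ≤ 2 * M * δ k * ((x + ε + η + δ k * (2 * b ^ 2 - (x + ε) * (a - η)) +
      2 * δ k ^ 2 * ((x + ε) * b ^ 2)) - a) := by
    have h6 : 2 * M * δ k * ((x + ε + η + δ k * (2 * b ^ 2 - (x + ε) * (a - η)) +
      2 * δ k ^ 2 * ((x + ε) * b ^ 2)) - a) =
        2 * M * (1 + δ k * (x + ε)) * (1 - δ k * (a - η) + 2 * δ k ^ 2 * b ^ 2) - 2 * M := by
      ring
    rw [h6]
    linarith
  have h7 : 0 < 2 * M * δ k := by positivity
  have h8 := (mul_nonneg_iff_of_pos_left h7).1 h5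
  linarith

end LibNC38
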