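import Pool.Agent.LibNG38.GF1
import Pool.Agent.LibNG38.GF2l
import Pool.Agent.LibNC38.D4

set_option autoImplicit false

open Matrix MeasureTheory Topology Filter Finset

namespace LibNC38

/-- a sequence of norms `N k` without conjugate points with first order expansion
`1 + δ k ψ` in the direction `z` -/
structure BlowN {n : ℕ} (Γ : Subgroup (SL n)) (z : V0 n) (N : ℕ → PD n → Mt n → ℝ) (ψ : PD n → ℝ)
    (δ : ℕ → ℝ) : Prop where
  pos : ∀ k, 0 < δ k
  lim : Tendsto δ atTop (𝓝 0)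
  gn : ∀ k, ∃ c2, GN (N k) 1 c2
  inv : ∀ k, ∀ γ ∈ Γ, InvN (N k) γ
  nc : ∀ k, NoConj (dN (N k))
  cont : Continuous ψ
  bdd : ∃ B, ∀ x, |ψ x| ≤ B
  low : ∀ ε > 0, ∀ᶠ k in atTop, ∀ x v, IsTan x v → (1 + δ k * (ψ x - ε)) * |dht z x v| ≤ N k x v
  up : ∀ ε > 0, ∀ᶠ k in atTop, ∀ y : V0 n,
    N k (sg y) (vel y z) ≤ 2 * ‖z‖ * (1 + δ k * (ψ (sg y) + ε))

private theorem gf2b_pos {n : ℕ} (hn : 2 ≤ n) (α : SL n) (z : V0 n) (hz : IsLog α z)
    (hr : Reg α) : 0 < ‖z‖ := by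
  rw [norm_pos_iff]
  intro h0
  have hdiag : α.1 = Matrix.diagonal fun i => α.1 i i := by
    ext i j
    by_cases hij : i = j
    · subst hij
      simp
    · rw [Matrix.diagonal_apply_ne _ hij]
      exact hz.1 i j hij
  have hdet : ∏ i, α.1 i i = 1 := by
    have h1 := α.2
    rw [hdiag, Matrix.det_diagonal] at h1
    exact h1
  have hne : ∀ i, α.1 i i ≠ 0 := by
    intro i hi
    have h1 : ∏ i, α.1 i i = 0 := Finset.prod_eq_zero (Finset.mem_univ i) hi
    exact zero_ne_one (h1.symm.trans hdet)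
  have habs : ∀ i, |α.1 i i| = 1 := by
    intro i
    have h1 := hz.2 i
    rw [h0] at h1
    have h2 : Real.log |α.1 i i| = 0 := by
      rw [← h1]
      rfl
    have h3 : 0 < |α.1 i i| := abs_pos.mpr (hne i)
    exact Real.eq_one_of_pos_of_log_eq_zero h3 h2
  have h01 : (⟨0, by omega⟩ : Fin n) ≠ ⟨1, by omega⟩ := by
    intro h
    have := congrArg Fin.val h
    simp at this
  exact hr _ _ h01 ((habs _).trans (habs _).symm)

private theorem gf2b_line {n : ℕ} (ψ : PD n → ℝ) (hψ : Continuous ψ) (y z : V0 n) :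
    Continuous fun s : ℝ => ψ (sg (y + s • z)) := by
  obtain ⟨-, -, -, -, -, -, -, -, hsg, -⟩ := flat_facts (n := n)
  exact hψ.comp (hsg.comp (continuous_const.add (continuous_id.smul continuous_const)))

private theorem gf2b_c1 {n : ℕ} (y z : V0 n) :
    IsC1 (fun s : ℝ => sg (y + s • z)) (fun s => vel (y + s • z) z) := by
  obtain ⟨hsg, -⟩ := flat_facts (n := n)
  have hcoord : ∀ (s : ℝ) (i : Fin n), (y + s • z).1 i = y.1 i + s * z.1 i := fun s i => rfl
  constructor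
  · intro s i j
    simp only [hsg, vel]
    by_cases hij : i = j
    · subst hij
      simp only [Matrix.diagonal_apply_eq, hcoord]
      have h1 : HasDerivAt (fun s : ℝ => 2 * (y.1 i + s * z.1 i)) (2 * z.1 i) s := by
        have := (((hasDerivAt_id s).mul_const (z.1 i)).const_add (y.1 i)).const_mul 2
        simpa using this
      have h2 := h1.exp
      rw [mul_comm] at h2
      exact h2
    · simp only [Matrix.diagonal_apply_ne _ hij]
      exact hasDerivAt_const s 0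
  · intro i j
    simp only [vel]
    by_cases hij : i = j
    · subst hij
      simp only [Matrix.diagonal_apply_eq, hcoord]
      fun_prop
    · simp only [Matrix.diagonal_apply_ne _ hij]
      exact continuous_const

/-- continuity of `ψ` near the compact segment -/
private theorem gf2b_unif {n : ℕ} (ψ : PD n → ℝ) (hψ : Continuous ψ) (y z : V0 n) (η : ℝ)
    (hη : 0 < η) :
    ∃ r > 0, ∀ (x' : PD n) (τ : ℝ), 0 ≤ τ → τ ≤ 1 → dg x' (sg (y + τ • z)) ≤ r →
      ψ (sg (y + τ • z)) - η ≤ ψ x' := by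
  by_contra hcon
  push Not at hcon
  have hk : ∀ k : ℕ, ∃ (x' : PD n) (τ : ℝ), 0 ≤ τ ∧ τ ≤ 1 ∧
      dg x' (sg (y + τ • z)) ≤ 1 / ((k : ℝ) + 1) ∧ ψ x' < ψ (sg (y + τ • z)) - η := by
    intro k
    exact hcon (1 / ((k : ℝ) + 1)) (by positivity)
  choose x τ h0 h1 hd hψx using hk
  obtain ⟨t, -, φ, hφ, ht⟩ := isCompact_Icc.tendsto_subseq (fun k => (⟨h0 k, h1 k⟩ : τ k ∈ Set.Icc (0 : ℝ) 1))
  have hflat : ∀ v w : V0 n, dg (sg v) (sg w) = 2 * ‖v - w‖ := by
    intro v w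
    have := dg_flat 1 v w
    obtain ⟨hact, -⟩ := act_facts (n := n)
    rwa [hact, hact] at this
  obtain ⟨d0, d1, d2, d3⟩ := dg_facts (n := n)
  have hlim : Tendsto (fun k => dg (sg (y + t • z)) (x (φ k))) atTop (𝓝 0) := by
    have hb : Tendsto (fun k => 2 * (|t - τ (φ k)| * ‖z‖) + 1 / ((φ k : ℝ) + 1)) atTop
        (𝓝 (2 * (|t - t| * ‖z‖) + 0)) := by
      refine Tendsto.add ?_ ?_
      · exact ((((tendsto_const_nhds (x := t)).sub ht).abs).mul_const ‖z‖).const_mul 2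
      · exact (tendsto_one_div_add_atTop_nhds_zero_nat (𝕜 := ℝ)).comp hφ.tendsto_atTop
    rw [sub_self, abs_zero, zero_mul, mul_zero, add_zero] at hb
    refine squeeze_zero (fun k => d0 _ _) (fun k => ?_) hb
    have e1 := d3 (sg (y + t • z)) (sg (y + τ (φ k) • z)) (x (φ k))
    rw [hflat] at e1
    have e2 : y + t • z - (y + τ (φ k) • z) = (t - τ (φ k)) • z := by
      rw [sub_smul]
      abel
    rw [e2, norm_smul, Real.norm_eq_abs] at e1
    have e3 := hd (φ k)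
    rw [d2] at e3
    linarith
  have hx : Tendsto (fun k => x (φ k)) atTop (𝓝 (sg (y + t • z))) := by
    intro U hU
    obtain ⟨ε, hε, hεU⟩ := (dg_nhds (sg (y + t • z))).1 U hU
    rw [Filter.mem_map]
    filter_upwards [hlim.eventually_lt_const hε] with k hk
    exact hεU _ hk
  have hψ1 : Tendsto (fun k => ψ (x (φ k))) atTop (𝓝 (ψ (sg (y + t • z)))) :=
    (hψ.tendsto _).comp hx
  have hψ2 : Tendsto (fun k => ψ (sg (y + τ (φ k) • z)) - η) atTop
      (𝓝 (ψ (sg (y + t • z)) - η)) :=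
    (((gf2b_line ψ hψ y z).tendsto t).comp ht).sub_const η
  have := le_of_tendsto_of_tendsto' hψ1 hψ2 fun k => (hψx (φ k)).le
  linarith

/-- Row GF2b. For `η > 0` and all large `K` the average of `ψ` over the `K` points on the line
through `y` is at most the integral over the line through `y'` plus `η`. Continuity of `ψ` near the
compact segment `{sg (y + τ z)}` gives `r > 0` with `ψ (sg (y + τ z)) - η/3 ≤ ψ x'` if
`dg x' (sg (y + τ z)) ≤ r` (`dg_nhds`, compactness). Let `K` be so large that `4 ‖z‖ / K < r / 2`.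
For every `k` let `x k` be the point of GF0 with `Pr (x k) = y` and minimal displacement `μ k`.
`2 ‖z‖ ≤ μ k` (Pr_lip_dg) and `μ k ≤ dN (N k) (sg y') (sg (y' + z)) ≤
2 ‖z‖ (1 + δ k (X + η/3))`, `X = ∫ ψ (sg (y' + s z))` (GC1 dN_flat, `up`), so `μ k → 2 ‖z‖`. D4 with a
small `ε0` gives for large `k` the hypothesis `hε` of GF1, and
`ε0 + √(μ²/4 - ‖z‖²) + 2 μ / K ≤ r`. GF1 with `ψ - η/3`, `E = η/3`; then GF2l and `k → ∞`
(adjust the constants). -/
theorem avg_leN {n : ℕ} (hn : 2 ≤ n) (Γ : Subgroup (SL n)) (α : SL n) (hα : α ∈ Γ) (z : V0 n)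
    (hz : IsLog α z) (hr : Reg α) (N : ℕ → PD n → Mt n → ℝ) (ψ : PD n → ℝ) (δ : ℕ → ℝ)
    (h : BlowN Γ z N ψ δ) (R : ℝ)
    (hR : ∀ v : V0 n, ∃ γ ∈ Γ, ∃ w, IsLog γ w ∧ ‖v + w‖ ≤ R) (y y' : V0 n) (η : ℝ) (hη : 0 < η) :
    ∀ᶠ K : ℕ in atTop, (∑ j ∈ range K, ψ (sg (y + ((j : ℝ) / K) • z))) / K ≤
      (∫ s in (0 : ℝ)..1, ψ (sg (y' + s • z))) + η := by
  have hZ : 0 < ‖z‖ := gf2b_pos hn α z hz hr
  have hz0 : z ≠ 0 := norm_pos_iff.1 hZ
  obtain ⟨B, hB⟩ := h.bdd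
  obtain ⟨r, hr0, hrψ⟩ := gf2b_unif ψ h.cont y z (η / 3) (by positivity)
  obtain ⟨η', hη', hnear⟩ := near_flat α z hz hr (r / 4) (by positivity)
  -- points of minimal displacement
  have hpt : ∀ k, ∃ x, Pr x = y ∧ ∀ x', dN (N k) x (act α x) ≤ dN (N k) x' (act α x') := by
    intro k
    obtain ⟨c2, hc2⟩ := h.gn k
    exact propA_dN hn (N k) 1 c2 hc2 (h.nc k) Γ (h.inv k) α hα z hz hr R hR y
  choose x hxy hmin using hpt
  obtain ⟨μ, hμ⟩ : ∃ μ : ℕ → ℝ, ∀ k, μ k = dN (N k) (x k) (act α (x k)) := ⟨_, fun _ => rfl⟩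
  obtain ⟨X, hX⟩ : ∃ X : ℝ, X = ∫ s in (0 : ℝ)..1, ψ (sg (y' + s • z)) := ⟨_, rfl⟩
  rw [← hX]
  obtain ⟨-, -, -, -, hPract⟩ := Pr_facts (n := n)
  obtain ⟨-, -, -, hactsg, -⟩ := flat_facts (n := n)
  have hlow : ∀ k, 2 * ‖z‖ ≤ μ k := by
    intro k
    obtain ⟨c2, hc2⟩ := h.gn k
    have h1 := Pr_lip_dg (x k) (act α (x k))
    rw [hPract α z hz, add_sub_cancel_left] at h1
    have h2 := (dN_comp (N k) _ _ hc2).1 (x k) (act α (x k))
    rw [one_mul] at h2
    rw [hμ]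
    exact h1.trans h2
  have hup : ∀ᶠ k in atTop, μ k ≤ 2 * ‖z‖ * (1 + δ k * (X + η / 3)) := by
    filter_upwards [h.up (η / 3) (by positivity)] with k hk
    obtain ⟨c2, hc2⟩ := h.gn k
    have h1 := hmin k (sg y')
    rw [hactsg α z y' hz] at h1
    have h2 := dN_flat (N k) 1 c2 hc2 y' z
    obtain ⟨-, -, -, htan⟩ := tan_facts (n := n)
    have hi1 : IntervalIntegrable (fun s : ℝ => N k (sg (y' + s • z)) (vel (y' + s • z) z))
        volume 0 1 := (htan _ _ (gf2b_c1 y' z) (N k) 1 c2 hc2).intervalIntegrable _ _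
    have hi2 : IntervalIntegrable (fun s : ℝ => 2 * ‖z‖ * (1 + δ k * (ψ (sg (y' + s • z)) + η / 3)))
        volume 0 1 := by
      refine Continuous.intervalIntegrable ?_ _ _
      have h5 : Continuous fun s : ℝ => ψ (sg (y' + s • z)) := gf2b_line ψ h.cont y' z
      exact (((h5.add_const (η / 3)).const_mul (δ k)).const_add 1).const_mul (2 * ‖z‖)
    have h3 : (∫ s in (0 : ℝ)..1, N k (sg (y' + s • z)) (vel (y' + s • z) z)) ≤
        ∫ s in (0 : ℝ)..1, 2 * ‖z‖ * (1 + δ k * (ψ (sg (y' + s • z)) + η / 3)) :=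
      intervalIntegral.integral_mono_on zero_le_one hi1 hi2 fun s _ => hk _
    have h4 : (∫ s in (0 : ℝ)..1, 2 * ‖z‖ * (1 + δ k * (ψ (sg (y' + s • z)) + η / 3))) =
        2 * ‖z‖ * (1 + δ k * (X + η / 3)) := by
      have hi3 : IntervalIntegrable (fun s : ℝ => ψ (sg (y' + s • z))) volume 0 1 :=
        (gf2b_line ψ h.cont y' z).intervalIntegrable _ _
      rw [intervalIntegral.integral_const_mul,
        intervalIntegral.integral_add (by simp) ((hi3.add (by simp)).const_mul _),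
        intervalIntegral.integral_const_mul, intervalIntegral.integral_add hi3 (by simp), ← hX]
      simp
    rw [hμ]
    linarith
  -- the bound for `μ`
  obtain ⟨ζ, hζ⟩ : ∃ ζ : ℝ, ζ = min η' (min ‖z‖ (r ^ 2 / (20 * ‖z‖))) := ⟨_, rfl⟩
  have hζ0 : 0 < ζ := by
    rw [hζ]
    positivity
  have hlim0 : Tendsto (fun k => 2 * ‖z‖ * (1 + δ k * (X + η / 3))) atTop
      (𝓝 (2 * ‖z‖ * (1 + 0 * (X + η / 3)))) :=
    ((h.lim.mul_const _).const_add _).const_mul _
  have hζe : ∀ᶠ k in atTop, μ k ≤ 2 * ‖z‖ + ζ := by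
    have hlt : 2 * ‖z‖ * (1 + 0 * (X + η / 3)) < 2 * ‖z‖ + ζ := by
      have : 2 * ‖z‖ * (1 + 0 * (X + η / 3)) = 2 * ‖z‖ := by ring
      linarith
    filter_upwards [hup, hlim0.eventually_lt_const hlt] with k hk1 hk2
    linarith
  have hδe : ∀ᶠ k in atTop, δ k * (B + η / 3 + η / 3) ≤ 1 / 2 := by
    have h1 : Tendsto (fun k => δ k * (B + η / 3 + η / 3)) atTop
        (𝓝 (0 * (B + η / 3 + η / 3))) := h.lim.mul_const _
    rw [zero_mul] at h1
    exact h1.eventually_le_const (by norm_num)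
  -- the large `K`
  have hKe : ∀ᶠ K : ℕ in atTop, 12 * ‖z‖ / r < (K : ℝ) :=
    (tendsto_natCast_atTop_atTop (R := ℝ)).eventually_gt_atTop _
  filter_upwards [hKe, eventually_gt_atTop 0] with K hK1 hK0
  have hKR : (0 : ℝ) < K := by exact_mod_cast hK0
  have hKr : 6 * ‖z‖ / K ≤ r / 2 := by
    rw [div_lt_iff₀ hr0] at hK1
    rw [div_le_iff₀ hKR]
    linarith
  have key : (∑ j ∈ range K, ψ (sg (y + ((j : ℝ) / K) • z))) / K ≤ X + η / 3 + 2 * η / 3 := by
    refine lim_lemmaN δ μ ‖z‖ _ X (η / 3) (2 * η / 3) (B + η / 3 + η / 3) hZ h.pos h.lim hup ?_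
    filter_upwards [hζe, hδe, h.low (η / 3) (by positivity)] with k hk1 hk2 hk3
    obtain ⟨c2, hc2⟩ := h.gn k
    have hζ1 : ζ ≤ η' := by rw [hζ]; exact min_le_left _ _
    have hζ2 : ζ ≤ ‖z‖ := by rw [hζ]; exact (min_le_right _ _).trans (min_le_left _ _)
    have hζ3 : ζ ≤ r ^ 2 / (20 * ‖z‖) := by
      rw [hζ]; exact (min_le_right _ _).trans (min_le_right _ _)
    have hμ3 : μ k ≤ 3 * ‖z‖ := by linarith
    have hμ0 : 0 ≤ μ k := by linarith [hlow k]
    have hsq : √ (μ k ^ 2 / 4 - ‖z‖ ^ 2) ≤ r / 4 := by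
      rw [Real.sqrt_le_left (by positivity)]
      have e1 : μ k ^ 2 ≤ (2 * ‖z‖ + ζ) ^ 2 := pow_le_pow_left₀ hμ0 hk1 2
      have e2 : ζ * (20 * ‖z‖) ≤ r ^ 2 := by
        rwa [le_div_iff₀ (by positivity)] at hζ3
      have e3 : ζ * ζ ≤ ζ * ‖z‖ := mul_le_mul_of_nonneg_left hζ2 hζ0.le
      nlinarith
    have hεk : ∀ x', dg x' (act α x') ≤ dN (N k) (x k) (act α (x k)) →
        dg x' (sg (Pr x')) ≤ r / 4 := by
      intro x' hx'
      rw [← hμ] at hx'
      exact hnear x' (by linarith)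
    have hEk : ∀ (x' : PD n) (τ : ℝ), 0 ≤ τ → τ ≤ 1 → dg x' (sg (Pr (x k) + τ • z)) ≤
        r / 4 + √ (dN (N k) (x k) (act α (x k)) ^ 2 / 4 - ‖z‖ ^ 2) +
          2 * dN (N k) (x k) (act α (x k)) / K →
        (ψ (sg (Pr (x k) + τ • z)) - η / 3) - η / 3 ≤ ψ x' - η / 3 := by
      intro x' τ hτ0 hτ1 hx'
      rw [← hμ, hxy] at hx'
      rw [hxy]
      have e1 : 2 * μ k / K ≤ 6 * ‖z‖ / K := by
        apply div_le_div_of_nonneg_right _ hKR.le
        linarith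
      have e2 := hrψ x' τ hτ0 hτ1 (by linarith)
      linarith
    have hBk : ∀ x, |ψ x - η / 3| ≤ B + η / 3 := by
      intro x
      have e1 := abs_le.1 (hB x)
      rw [abs_le]
      constructor <;> linarith [e1.1, e1.2]
    have hmain := lower_bdN (N k) c2 hc2 α z hz hz0 (h.inv k α hα) (fun x => ψ x - η / 3)
      (B + η / 3) hBk (δ k) (h.pos k) hk3 (x k) K hK0 (r / 4) hεk (η / 3) (by positivity) hEk hk2
    rw [← hμ, hxy] at hmain
    have hsum : (∑ j ∈ range K, (ψ (sg (y + ((j : ℝ) / K) • z)) - η / 3)) / K =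
        (∑ j ∈ range K, ψ (sg (y + ((j : ℝ) / K) • z))) / K - η / 3 := by
      rw [Finset.sum_sub_distrib, Finset.sum_const, card_range, nsmul_eq_mul, sub_div]
      congr 1
      field_simp
    rw [hsum] at hmain
    have e : (∑ j ∈ range K, ψ (sg (y + ((j : ℝ) / K) • z))) / K - η / 3 - η / 3 =
        (∑ j ∈ range K, ψ (sg (y + ((j : ℝ) / K) • z))) / K - 2 * η / 3 := by ring
    rw [e] at hmain
    exact hmain
  linarith

end LibNC38
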