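import Pool.Agent.LibNG38.GA0
import Pool.Agent.LibNC38.B5
import Pool.Agent.LibNC38.C3

set_option autoImplicit false

open Matrix MeasureTheory Topology Filter

namespace LibNC38

/-- the inner product of `V0 n` in coordinates -/
private theorem GH1_inner {n : ℕ} (a z : V0 n) : inner ℝ a z = ∑ i, z.1 i * a.1 i := by
  rw [Submodule.coe_inner, PiLp.inner_apply]
  refine Finset.sum_congr rfl fun i _ => ?_
  simp

/-- Row GH1. The height function `ht z x = 2 ⟪Pr x, z⟫ / ‖z‖` has differential `dht` along curves: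
at time `t` let `g = (tch (c t))⁻¹` (lower triangular), `C s = act g (c s)` passes through the base
point with velocity `g v gᵀ`, `Pr (C s) = Pr (c s) + const` (B2), `Pr_deriv_o` (B5). -/
theorem ht_deriv {n : ℕ} (z : V0 n) (c : ℝ → PD n) (v : ℝ → Mt n) (h : IsC1 c v) (t : ℝ) :
    HasDerivAt (fun s => ht z (c s)) (dht z (c t) (v t)) t := by
  obtain ⟨ha1, ha2, -⟩ := @act_facts n
  obtain ⟨-, hPr, -⟩ := @Pr_facts n
  have hC := (curve_facts c v h).2.2.1 (tch (c t))⁻¹
  have hCt : act (tch (c t))⁻¹ (c t) = o n := by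
    have e : act (tch (c t))⁻¹ (c t) = act (tch (c t))⁻¹ (act (tch (c t)) (o n)) :=
      congrArg (act (tch (c t))⁻¹) (tch_eq (c t))
    rw [e, ← ha2, inv_mul_cancel, ha1]
  have key : ∀ i, HasDerivAt (fun s => (Pr (c s)).1 i)
      (((tch (c t))⁻¹.1 * v t * (tch (c t))⁻¹.1ᵀ) i i / 2) t := by
    intro i
    have h1 := Pr_deriv_o _ _ hC t hCt i
    have h2 : (fun s => (Pr (c s)).1 i) =
        fun s => (Pr (act (tch (c t))⁻¹ (c s))).1 i + Real.log |(tch (c t)).1 i i| := by
      funext s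
      rw [← hPr (tch (c t)) (tch_lower (c t)) (act (tch (c t))⁻¹ (c s)) i, ← ha2, mul_inv_cancel, ha1]
    rw [h2]
    exact h1.add_const _
  have h3 : (fun s => ht z (c s)) = fun s => 2 * (∑ i, z.1 i * (Pr (c s)).1 i) / ‖z‖ := by
    funext s
    unfold ht
    rw [GH1_inner]
  have h4 : dht z (c t) (v t) =
      2 * (∑ i, z.1 i * (((tch (c t))⁻¹.1 * v t * (tch (c t))⁻¹.1ᵀ) i i / 2)) / ‖z‖ := by
    unfold dht
    congr 1
    rw [Finset.mul_sum]
    refine Finset.sum_congr rfl fun i _ => ?_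
    ring
  rw [h3, h4]
  refine HasDerivAt.div_const (HasDerivAt.const_mul 2 ?_) ‖z‖
  exact HasDerivAt.fun_sum fun i _ => (key i).const_mul (z.1 i)

end LibNC38
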