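import Pool.Agent.LibNG38.GK0

set_option autoImplicit false

open Matrix MeasureTheory Topology Filter Finset

namespace LibNC38

private theorem GK1_spd_smul {n : ℕ} (x : PD n) (b : ℝ) (w : Mt n) :
    spd x (b • w) ^ 2 = b ^ 2 * spd x w ^ 2 := by
  have h1 : spd x (b • w) = |b| * spd x w := by
    unfold spd
    rw [Matrix.mul_smul, smul_mul_smul_comm, Matrix.trace_smul, smul_eq_mul,
      Real.sqrt_mul (mul_self_nonneg b), Real.sqrt_mul_self_eq_abs]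
  rw [h1, mul_pow, sq_abs]

private theorem GK1_real (a W k kew kww hv B δ ε : ℝ) (hB : 0 ≤ B) (hδ : 0 < δ)
    (hε : 0 < ε) (hε1 : ε ≤ 1) (hδB : δ * (B + 1) ≤ 1 / 4) (hW : 0 ≤ W)
    (hk : |k| ≤ B) (hkew : |kew| ≤ B * W) (hkww : |kww| ≤ B * W ^ 2)
    (hh : |hv - (a ^ 2 + W ^ 2) - δ * (a ^ 2 * k + 2 * a * kew + kww)| ≤
      ε * δ * (a ^ 2 + W ^ 2)) :
    (1 + δ * (k / 2 - ε / 2 - 3 * δ * (B + 1) ^ 2)) * |a| ≤ √ hv := by
  have h1 := (abs_le.1 hh).1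
  have h2 := (abs_le.1 hkww).1
  have hk1 := (abs_le.1 hk).1
  have hk2 := (abs_le.1 hk).2
  have h3 : -(|a| * (B * W)) ≤ a * kew := by
    have : |a * kew| ≤ |a| * (B * W) := by
      rw [abs_mul]
      exact mul_le_mul_of_nonneg_left hkew (abs_nonneg a)
    exact (abs_le.1 this).1
  have ha2 : |a| ^ 2 = a ^ 2 := sq_abs a
  have hδB' : δ * B ≤ 1 / 4 := by nlinarith
  have hδB0 : 0 ≤ δ * B := by positivity
  -- lower bound for hv
  have h4 : a ^ 2 * (1 + δ * k - ε * δ) + W ^ 2 * (1 - ε * δ - δ * B) - 2 * δ * (|a| * (B * W)) ≤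
      hv := by
    have e1 : δ * (-(B * W ^ 2)) ≤ δ * kww := mul_le_mul_of_nonneg_left h2 hδ.le
    have e2 : δ * (-(|a| * (B * W))) ≤ δ * (a * kew) := mul_le_mul_of_nonneg_left h3 hδ.le
    nlinarith
  have h5 : 1 / 2 ≤ 1 - ε * δ - δ * B := by
    have : ε * δ ≤ 1 * δ := mul_le_mul_of_nonneg_right hε1 hδ.le
    nlinarith
  have h6 : W ^ 2 * (1 / 2) ≤ W ^ 2 * (1 - ε * δ - δ * B) :=
    mul_le_mul_of_nonneg_left h5 (sq_nonneg W)
  have h7 : -(2 * (δ * B) ^ 2 * a ^ 2) ≤ W ^ 2 * (1 / 2) - 2 * δ * (|a| * (B * W)) := by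
    rw [← ha2]
    nlinarith [sq_nonneg (W - 2 * (δ * B) * |a|)]
  set s : ℝ := δ * k - ε * δ - 2 * (δ * B) ^ 2 with hs
  have h8 : a ^ 2 * (1 + s) ≤ hv := by
    rw [hs]; nlinarith
  have hu : 0 < δ * (B + 1) := by positivity
  have hεδ : ε * δ ≤ δ := by nlinarith
  have hδk1 : -(δ * B) ≤ δ * k := by nlinarith
  have hδk2 : δ * k ≤ δ * B := by nlinarith
  have hsq : (δ * B) ^ 2 ≤ (δ * B) * (1 / 4) := by
    rw [sq]; exact mul_le_mul_of_nonneg_left hδB' hδB0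
  have hs1 : s ≤ 3 / 2 * (δ * (B + 1)) := by
    rw [hs]; nlinarith [mul_pos hε hδ, sq_nonneg (δ * B)]
  have hs2 : -(3 / 2 * (δ * (B + 1))) ≤ s := by
    rw [hs]; nlinarith [mul_pos hε hδ, sq_nonneg (δ * B)]
  have hs3 : s ≤ 1 / 2 := by linarith
  have hs4 : -(1 / 2) ≤ s := by linarith
  have hss : s ^ 2 ≤ (3 / 2 * (δ * (B + 1))) ^ 2 := sq_le_sq' hs2 hs1
  have hBB : (δ * B) ^ 2 ≤ (δ * (B + 1)) ^ 2 := by
    apply sq_le_sq'
    · nlinarith
    · nlinarith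
  set X : ℝ := 1 + δ * (k / 2 - ε / 2 - 3 * δ * (B + 1) ^ 2) with hX
  have hX1 : X ≤ 1 + s / 2 - s ^ 2 / 2 := by
    rw [hX]
    have e1 : δ * (k / 2 - ε / 2 - 3 * δ * (B + 1) ^ 2) =
        (s + 2 * (δ * B) ^ 2) / 2 - 3 * (δ * (B + 1)) ^ 2 := by
      rw [hs]; ring
    rw [e1]
    nlinarith
  have hX0 : 0 ≤ X := by
    have e2 : X = 1 + (δ * k) / 2 - (ε * δ) / 2 - 3 * (δ * (B + 1)) ^ 2 := by
      rw [hX]; ring
    have e3 : (δ * (B + 1)) ^ 2 ≤ (1 / 4) * (1 / 4) := by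
      rw [sq]; exact mul_le_mul hδB hδB hu.le (by norm_num)
    rw [e2]
    nlinarith
  have hr : (1 + s / 2 - s ^ 2 / 2) ^ 2 ≤ 1 + s := by
    have e4 : (1 + s) - (1 + s / 2 - s ^ 2 / 2) ^ 2 = s ^ 2 * (3 / 4 + s / 2 - s ^ 2 / 4) := by ring
    have e5 : 0 ≤ 3 / 4 + s / 2 - s ^ 2 / 4 := by nlinarith
    have e6 := mul_nonneg (sq_nonneg s) e5
    linarith
  have hXX : X ^ 2 ≤ 1 + s :=
    (pow_le_pow_left₀ hX0 hX1 2).trans hr
  have hfin : (X * |a|) ^ 2 ≤ hv := by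
    rw [mul_pow, ha2]
    have := mul_le_mul_of_nonneg_left hXX (sq_nonneg a)
    nlinarith
  exact (le_abs_self _).trans (Real.abs_le_sqrt hfin)

/-- Row GK1. Pointwise algebra. `h`, `κ` symmetric bilinear forms,
`|h(v,v) - |v|² - δ κ(v,v)| ≤ ε δ |v|²`, `|κ(v,v)| ≤ B |v|²`, `ε ≤ 1`, `δ (B + 1) ≤ 1/4`. Write
`v = a e + w`, `e = eht z x`, `a = dht z x v`, `|v|² = a² + |w|²` (GH2); `|κ(e,w)| ≤ B |w|`
(polarization: for unit `w`, `4 κ(e,w) = κ(e+w,e+w) - κ(e-w,e-w)`, `|e±w|² = 2`). Then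
`h(v,v) ≥ a² (1 + δ κ(e,e) - ε δ) + |w|² / 2 - 2 δ B |a| |w| ≥ a² (1 + δ (κ(e,e) - ε) - 2 δ² B²)`, and
`1 + s ≥ (1 + s/2 - s²/2)²`-type estimate for the square root: with
`s = δ (κ(e,e) - ε) - 2 δ² B²`, `|s| ≤ 1/2`, `√(1+s) ≥ 1 + s/2 - s²/2`. -/
theorem fm_low {n : ℕ} (z : V0 n) (hz : z ≠ 0) (x : PD n) (h κ : Fm n)
    (hs : ∀ v w, h v w = h w v) (κs : ∀ v w, κ v w = κ w v) (B δ ε : ℝ) (hB : 0 ≤ B) (hδ : 0 < δ)
    (hε : 0 < ε) (hε1 : ε ≤ 1) (hδB : δ * (B + 1) ≤ 1 / 4)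
    (hh : ∀ v, IsTan x v → |h v v - spd x v ^ 2 - δ * κ v v| ≤ ε * δ * spd x v ^ 2)
    (hκ : ∀ v, IsTan x v → |κ v v| ≤ B * spd x v ^ 2) (v : Mt n) (hv : IsTan x v) :
    (1 + δ * (κ (eht z x) (eht z x) / 2 - ε / 2 - 3 * δ * (B + 1) ^ 2)) * |dht z x v| ≤
      √ (h v v) := by
  obtain ⟨hte, hse, hlin, hde, hpyth⟩ := eht_facts z hz x
  set e : Mt n := eht z x with he
  set a : ℝ := dht z x v with ha
  set w : Mt n := v - a • e with hw
  have htw : IsTan x w := by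
    have h1 := tan_facts.2.2.1 x v e 1 (-a) hv hte
    have h2 : (1 : ℝ) • v + (-a) • e = w := by
      rw [hw, one_smul, neg_smul, sub_eq_add_neg]
    rwa [h2] at h1
  have hvw : v = a • e + w := by rw [hw]; abel
  have hdw : dht z x w = 0 := by
    have h1 := hlin v e 1 (-a)
    have h2 : (1 : ℝ) • v + (-a) • e = w := by
      rw [hw, one_smul, neg_smul, sub_eq_add_neg]
    rw [h2, hde] at h1
    rw [h1, ← ha]; ring
  have hsv : spd x v ^ 2 = a ^ 2 + spd x w ^ 2 := hpyth v hv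
  have hW : 0 ≤ spd x w := Real.sqrt_nonneg _
  have hk : |κ e e| ≤ B := by
    have h1 := hκ e hte
    rw [hse] at h1
    simpa using h1
  have hkww : |κ w w| ≤ B * spd x w ^ 2 := hκ w htw
  -- polarization
  have hpol : ∀ b : ℝ, |4 * b * κ e w| ≤ 2 * (B * (1 + b ^ 2 * spd x w ^ 2)) := by
    intro b
    have key : ∀ c : ℝ, IsTan x (e + c • w) ∧ spd x (e + c • w) ^ 2 = 1 + c ^ 2 * spd x w ^ 2 := by
      intro c
      have t1 : IsTan x (e + c • w) := by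
        have h1 := tan_facts.2.2.1 x e w 1 c hte htw
        rwa [one_smul] at h1
      have t2 : dht z x (e + c • w) = 1 := by
        have h1 := hlin e w 1 c
        rw [one_smul, hde, hdw] at h1
        rw [h1]; ring
      refine ⟨t1, ?_⟩
      have h2 := hpyth _ t1
      rw [t2, one_smul, add_sub_cancel_left, GK1_spd_smul] at h2
      rw [h2]; ring
    have h1 := hκ _ (key b).1
    have h2 := hκ _ (key (-b)).1
    rw [(key b).2] at h1
    rw [(key (-b)).2, neg_sq] at h2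
    have h3 : κ (e + b • w) (e + b • w) - κ (e + (-b) • w) (e + (-b) • w) = 4 * b * κ e w := by
      simp only [map_add, map_smul, LinearMap.add_apply, LinearMap.smul_apply, smul_eq_mul]
      rw [κs w e]
      ring
    rw [← h3]
    have h4 := abs_sub (κ (e + b • w) (e + b • w)) (κ (e + (-b) • w) (e + (-b) • w))
    linarith
  have hkew : |κ e w| ≤ B * spd x w := by
    rcases hW.eq_or_lt with h0 | h0
    · rw [← h0, mul_zero]
      by_contra hcon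
      have hpos : 0 < |κ e w| := not_le.1 hcon
      have h1 := hpol ((B + 1) / |κ e w|)
      rw [← h0, abs_mul, abs_mul, abs_of_pos (by positivity : (0 : ℝ) < (B + 1) / |κ e w|)] at h1
      have h2 : |(4 : ℝ)| * ((B + 1) / |κ e w|) * |κ e w| = 4 * (B + 1) := by
        rw [abs_of_pos (by norm_num : (0 : ℝ) < 4), mul_assoc, div_mul_cancel₀ _ hpos.ne']
      rw [h2] at h1
      nlinarith
    · have h1 := hpol (1 / spd x w)
      rw [abs_mul, abs_mul, abs_of_pos (by positivity : (0 : ℝ) < 1 / spd x w),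
        abs_of_pos (by norm_num : (0 : ℝ) < 4)] at h1
      have h2 : (1 / spd x w) ^ 2 * spd x w ^ 2 = 1 := by
        rw [← mul_pow, one_div_mul_cancel h0.ne', one_pow]
      rw [h2] at h1
      have h3 : 4 * (1 / spd x w) * |κ e w| * spd x w = 4 * |κ e w| := by
        field_simp
      have h4 := mul_le_mul_of_nonneg_right h1 h0.le
      rw [h3] at h4
      nlinarith
  have hκv : κ v v = a ^ 2 * κ e e + 2 * a * κ e w + κ w w := by
    rw [hvw]
    simp only [map_add, map_smul, LinearMap.add_apply, LinearMap.smul_apply, smul_eq_mul]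
    rw [κs w e]
    ring
  have hhv := hh v hv
  rw [hκv, hsv] at hhv
  exact GK1_real a (spd x w) (κ e e) (κ e w) (κ w w) (h v v) B δ ε hB hδ hε hε1 hδB hW hk hkew
    hkww hhv

end LibNC38
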