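import Pool.Agent.LibNG38.GF2
import Pool.Agent.LibNG38.GK1

set_option autoImplicit false

open Matrix MeasureTheory Topology Filter Finset

namespace LibNC38

/-- `h k` are `Γ`-invariant metrics (continuous positive definite forms) without conjugate points,
`h k = g + δ k (κ + o(1))` uniformly, `δ k → 0+` -/
structure Defo {n : ℕ} (Γ : Subgroup (SL n)) (κ : PD n → Fm n) (h : ℕ → PD n → Fm n)
    (δ : ℕ → ℝ) : Prop where
  pos : ∀ k, 0 < δ k
  lim : Tendsto δ atTop (𝓝 0)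
  kap : FmOK Γ κ
  ok : ∀ k, FmOK Γ (h k)
  conv : ∀ ε > 0, ∀ᶠ k in atTop, ∀ x v, IsTan x v →
    |h k x v v - spd x v ^ 2 - δ k * κ x v v| ≤ ε * δ k * spd x v ^ 2
  nc : ∀ k, NoConj (dN (nrm (h k)))

private theorem GK2_geod {Y : Type*} (d d' : Y → Y → ℝ) (r : ℝ) (hr : 0 < r)
    (hd : ∀ p q, d' p q = r * d p q) (L : ℝ) (c : ℝ → Y) (h : IsGeod d' L c) :
    IsGeod d (L / r) (fun s => c (r * s)) := by
  intro t ht
  have hrt : r * t ∈ Set.Icc 0 L := by
    refine ⟨mul_nonneg hr.le ht.1, ?_⟩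
    have := mul_le_mul_of_nonneg_left ht.2 hr.le
    rwa [mul_div_cancel₀ _ hr.ne'] at this
  obtain ⟨ε, hε, H⟩ := h (r * t) hrt
  refine ⟨ε / r, div_pos hε hr, fun u hu v hv hut hvt => ?_⟩
  have hmem : ∀ w, w ∈ Set.Icc 0 (L / r) → r * w ∈ Set.Icc 0 L := by
    intro w hw
    refine ⟨mul_nonneg hr.le hw.1, ?_⟩
    have := mul_le_mul_of_nonneg_left hw.2 hr.le
    rwa [mul_div_cancel₀ _ hr.ne'] at this
  have habs : ∀ a b : ℝ, |r * a - r * b| = r * |a - b| := by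
    intro a b
    rw [← mul_sub, abs_mul, abs_of_pos hr]
  have h1 : |r * u - r * t| < ε := by
    rw [habs]
    rw [lt_div_iff₀ hr] at hut
    linarith
  have h2 : |r * v - r * t| < ε := by
    rw [habs]
    rw [lt_div_iff₀ hr] at hvt
    linarith
  have h3 := H (r * u) (hmem u hu) (r * v) (hmem v hv) h1 h2
  rw [hd, habs] at h3
  exact mul_left_cancel₀ hr.ne' h3

private theorem GK2_nc {Y : Type*} (d d' : Y → Y → ℝ) (r : ℝ) (hr : 0 < r)
    (hd : ∀ p q, d' p q = r * d p q) (hnc : NoConj d) : NoConj d' := by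
  intro L L' c c' hL hL' hc hc' h0 h1 hne
  have g1 := GK2_geod d _ r hr hd L c hc
  have g2 := GK2_geod d _ r hr hd L' c' hc'
  have hrL : ∀ M : ℝ, r * (M / r) = M := fun M => mul_div_cancel₀ _ hr.ne'
  obtain ⟨e1, e2⟩ := hnc (L / r) (L' / r) _ _ (div_pos hL hr) (div_pos hL' hr) g1 g2
    (by simpa using h0) (by simpa only [hrL] using h1)
    (by
      intro h
      apply hne
      simpa only [hrL, mul_zero] using h)
  refine ⟨?_, fun t ht => ?_⟩
  · have := congrArg (fun x => r * x) e1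
    simpa only [hrL] using this
  · have h3 := e2 (t / r) ⟨div_nonneg ht.1 hr.le, div_le_div_of_nonneg_right ht.2 hr.le⟩
    simpa only [hrL] using h3

private theorem GK2_z {n : ℕ} (hn : 2 ≤ n) {α : SL n} {z : V0 n} (hz : IsLog α z) (hr : Reg α) : z ≠ 0 := by
  intro h0
  have hne : ∀ i, α.1 i i ≠ 0 := by
    have h1 : α.1 = Matrix.diagonal fun i => α.1 i i := by
      ext i j
      by_cases hij : i = j
      · subst hij
        rw [Matrix.diagonal_apply_eq]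
      · rw [Matrix.diagonal_apply_ne _ hij, hz.1 i j hij]
    have h2 : ∏ i, α.1 i i = 1 := by
      rw [← Matrix.det_diagonal, ← h1, α.2]
    intro i hi
    have h3 : ∏ i, α.1 i i = 0 := Finset.prod_eq_zero (f := fun i => α.1 i i)
      (Finset.mem_univ i) hi
    exact zero_ne_one (h3.symm.trans h2)
  have h1 : ∀ i, |α.1 i i| = 1 := by
    intro i
    have h2 : Real.log |α.1 i i| = 0 := by
      rw [← hz.2 i, h0]
      rfl
    exact Real.eq_one_of_pos_of_log_eq_zero (abs_pos.2 (hne i)) h2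
  have h3 := hr ⟨0, by omega⟩ ⟨1, by omega⟩ (by simp)
  rw [h1, h1] at h3
  exact h3 rfl

private theorem GK2_smul {n : ℕ} (h : Fm n) (r : ℝ) (v : Mt n) : h (r • v) (r • v) = r ^ 2 * h v v := by
  rw [LinearMap.map_smul₂, map_smul, smul_eq_mul, smul_eq_mul]
  ring

private theorem GK2_spd {n : ℕ} (x : PD n) (v : Mt n) : 0 ≤ spd x v := Real.sqrt_nonneg _

/-- bounds for the form `h` -/
private theorem GK2_h {S H K B δ : ℝ} (hδ : 0 < δ) (h1 : |H - S - δ * K| ≤ 1 * δ * S) (h2 : |K| ≤ B * S) :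
    S * (1 - (B + 1) * δ) ≤ H ∧ H ≤ S * (1 + (B + 1) * δ) := by
  rw [abs_le] at h1 h2
  have h3 : δ * K ≤ δ * (B * S) := mul_le_mul_of_nonneg_left h2.2 hδ.le
  have h4 : δ * (-(B * S)) ≤ δ * K := mul_le_mul_of_nonneg_left h2.1 hδ.le
  constructor
  · have h5 : S * (1 - (B + 1) * δ) = S + δ * (-(B * S)) - δ * S := by ring
    linarith
  · have h5 : S * (1 + (B + 1) * δ) = S + δ * (B * S) + δ * S := by ring
    linarith

private theorem GK2_sq {s : ℝ} (hs0 : 0 ≤ s) (hs1 : s ≤ 1) : 1 + s - s ^ 2 ≤ √ (1 + 2 * s) := by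
  apply Real.le_sqrt_of_sq_le
  have h1 : (1 + s - s ^ 2) ^ 2 = 1 + 2 * s - s ^ 2 - 2 * s ^ 3 + s ^ 4 := by ring
  have h2 : s ^ 4 ≤ s ^ 2 := pow_le_pow_of_le_one hs0 hs1 (by norm_num)
  have h3 : 0 ≤ s ^ 3 := by positivity
  rw [h1]
  linarith

/-- the scalar inequality for the lower bound -/
private theorem GK2_scal {B b δ K ε₁ ε : ℝ} (hb : b = B + 1) (hB : 0 ≤ B) (hK : |K| ≤ B) (hδ : 0 < δ)
    (hδb : b * δ ≤ 1 / 4) (hε₁ : 0 < ε₁) (hε₁1 : ε₁ ≤ 1) (hε₁ε : ε₁ ≤ ε) (hs : 13 * b ^ 2 * δ ≤ ε) :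
    0 ≤ 1 + δ * (K / 2 - ε₁ / 2 - 3 * δ * b ^ 2) ∧
    1 + δ * (K / 2 + b - ε) ≤ √ (1 + 2 * (b * δ)) * (1 + δ * (K / 2 - ε₁ / 2 - 3 * δ * b ^ 2)) := by
  obtain ⟨s, hsd⟩ : ∃ s, s = b * δ := ⟨_, rfl⟩
  obtain ⟨t, htd⟩ : ∃ t, t = δ * (K / 2 - ε₁ / 2 - 3 * δ * b ^ 2) := ⟨_, rfl⟩
  rw [← hsd, ← htd]
  rw [← hsd] at hδb
  have hb1 : 1 ≤ b := by linarith
  have hs0 : 0 ≤ s := by rw [hsd]; positivity
  have hδs : δ ≤ s := by
    rw [hsd]
    exact le_mul_of_one_le_left hδ.le hb1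
  rw [abs_le] at hK
  have h1 : δ * K ≤ s := by
    rw [hsd, mul_comm b δ]
    exact mul_le_mul_of_nonneg_left (by linarith) hδ.le
  have h2 : -s ≤ δ * K := by
    rw [hsd, mul_comm b δ, ← mul_neg]
    exact mul_le_mul_of_nonneg_left (by linarith) hδ.le
  have h3 : δ * ε₁ ≤ s := by
    refine le_trans ?_ hδs
    exact mul_le_of_le_one_right hδ.le hε₁1
  have h3' : 0 ≤ δ * ε₁ := by positivity
  have ht : t = δ * K / 2 - δ * ε₁ / 2 - 3 * s ^ 2 := by
    rw [htd, hsd]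
    ring
  have hs2 : s ^ 2 ≤ s / 4 := by nlinarith
  have ht1 : t ≤ s := by
    rw [ht]
    have := sq_nonneg s
    linarith
  have ht2 : -(2 * s) ≤ t := by
    rw [ht]
    linarith
  have hG : 0 ≤ 1 + t := by linarith
  refine ⟨hG, ?_⟩
  have h4 : (1 + s - s ^ 2) * (1 + t) ≤ √ (1 + 2 * s) * (1 + t) :=
    mul_le_mul_of_nonneg_right (GK2_sq hs0 (by linarith)) hG
  refine le_trans ?_ h4
  have h5 : (1 + s - s ^ 2) * (1 + t) = 1 + s + t - s ^ 2 + (s - s ^ 2) * t := by ring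
  have h6 : -((s - s ^ 2) * (2 * s)) ≤ (s - s ^ 2) * t := by
    have h7 : 0 ≤ s - s ^ 2 := by linarith
    have h8 := mul_le_mul_of_nonneg_left ht2 h7
    linarith
  have h7 : (s - s ^ 2) * (2 * s) ≤ 2 * s ^ 2 := by
    have h8 : (s - s ^ 2) * (2 * s) = 2 * s ^ 2 - 2 * s ^ 3 := by ring
    have h9 : 0 ≤ s ^ 3 := by positivity
    linarith
  have h8 : 13 * s ^ 2 ≤ δ * ε := by
    have h9 := mul_le_mul_of_nonneg_left hs hδ.le
    have h10 : δ * (13 * b ^ 2 * δ) = 13 * s ^ 2 := by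
      rw [hsd]
      ring
    linarith
  have h9 : δ * ε₁ ≤ δ * ε := mul_le_mul_of_nonneg_left hε₁ε hδ.le
  have h10 : δ * (K / 2 + b - ε) = δ * K / 2 + s - δ * ε := by
    rw [hsd]
    ring
  rw [h5, h10, ht]
  rw [ht] at h6
  have h11 := sq_nonneg s
  linarith

private theorem GK2_am {a c : ℝ} (ha : 0 ≤ a) (hc : 0 ≤ c) : √ a * √ c ≤ (a + c) / 2 := by
  have h1 := Real.sq_sqrt ha
  have h2 := Real.sq_sqrt hc
  nlinarith [sq_nonneg (√ a - √ c)]

/-- the scaled norm of a form close to the symmetric metric -/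
private theorem GK2_gn {n : ℕ} {Γ : Subgroup (SL n)} {g κ : PD n → Fm n} (hg : FmOK Γ g) {B b δ : ℝ} (hb : b = B + 1)
    (hB : 0 ≤ B) (hδ : 0 < δ) (hδb : δ * b ≤ 1 / 4)
    (hκ : ∀ x v, IsTan x v → |κ x v v| ≤ B * spd x v ^ 2)
    (hh : ∀ x v, IsTan x v → |g x v v - spd x v ^ 2 - δ * κ x v v| ≤ 1 * δ * spd x v ^ 2) :
    GN (nrm g) (1 / 2) 2 ∧ GN (fun x v => √ (1 + 2 * (b * δ)) * nrm g x v) 1 2 := by
  have hb1 : 1 ≤ b := by linarith
  have hs0 : 0 ≤ b * δ := by positivity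
  have hs1 : b * δ ≤ 1 / 4 := by rw [mul_comm]; exact hδb
  have hc : ContinuousOn (fun x : PD n × Mt n => nrm g x.1 x.2) {x | IsTan x.1 x.2} :=
    ((fm_cont Γ g hg).sqrt).continuousOn
  have hhom : ∀ p v, ∀ r : ℝ, nrm g p (r • v) = |r| * nrm g p v := by
    intro p v r
    unfold nrm
    rw [GK2_smul, Real.sqrt_mul (sq_nonneg r), Real.sqrt_sq_eq_abs]
  have hbd : ∀ x v, IsTan x v → spd x v ^ 2 * (1 - b * δ) ≤ g x v v ∧ g x v v ≤ spd x v ^ 2 * (1 + b * δ) := by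
    intro x v hv
    rw [hb]
    exact GK2_h hδ (hh x v hv) (hκ x v hv)
  refine ⟨⟨hc, fun p v _ r => hhom p v r, by norm_num, ?_, ?_⟩, ⟨continuousOn_const.mul hc, ?_, one_pos, ?_, ?_⟩⟩
  · intro x v hv
    apply Real.le_sqrt_of_sq_le
    have h1 := (hbd x v hv).1
    have h2 := sq_nonneg (spd x v)
    nlinarith
  · intro x v hv
    apply Real.sqrt_le_iff.2
    refine ⟨mul_nonneg (by norm_num) (GK2_spd x v), ?_⟩
    have h1 := (hbd x v hv).2
    have h2 := sq_nonneg (spd x v)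
    nlinarith
  · intro p v _ r
    show √ (1 + 2 * (b * δ)) * nrm g p (r • v) = |r| * (√ (1 + 2 * (b * δ)) * nrm g p v)
    rw [hhom]
    ring
  · intro x v hv
    show 1 * spd x v ≤ √ (1 + 2 * (b * δ)) * √ (g x v v)
    rw [← Real.sqrt_mul (by linarith), one_mul]
    apply Real.le_sqrt_of_sq_le
    have h1 := (hbd x v hv).1
    have h2 := sq_nonneg (spd x v)
    have h3 : (1 + 2 * (b * δ)) * (spd x v ^ 2 * (1 - b * δ)) ≤ (1 + 2 * (b * δ)) * g x v v :=
      mul_le_mul_of_nonneg_left h1 (by linarith)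
    have h4 : (1 + 2 * (b * δ)) * (spd x v ^ 2 * (1 - b * δ)) =
        spd x v ^ 2 + spd x v ^ 2 * (b * δ * (1 - 2 * (b * δ))) := by ring
    have h5 : 0 ≤ spd x v ^ 2 * (b * δ * (1 - 2 * (b * δ))) :=
      mul_nonneg h2 (mul_nonneg hs0 (by linarith))
    linarith
  · intro x v hv
    show √ (1 + 2 * (b * δ)) * √ (g x v v) ≤ 2 * spd x v
    rw [← Real.sqrt_mul (by linarith)]
    apply Real.sqrt_le_iff.2
    refine ⟨mul_nonneg (by norm_num) (GK2_spd x v), ?_⟩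
    have h1 := (hbd x v hv).2
    have h2 := sq_nonneg (spd x v)
    have h3 : (1 + 2 * (b * δ)) * g x v v ≤ (1 + 2 * (b * δ)) * (spd x v ^ 2 * (1 + b * δ)) :=
      mul_le_mul_of_nonneg_left h1 (by linarith)
    have h4 : (1 + 2 * (b * δ)) * (1 + b * δ) ≤ 4 := by nlinarith
    have h5 : (1 + 2 * (b * δ)) * (spd x v ^ 2 * (1 + b * δ)) =
        spd x v ^ 2 * ((1 + 2 * (b * δ)) * (1 + b * δ)) := by ring
    have h6 := mul_le_mul_of_nonneg_left h4 h2
    rw [mul_pow]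
    linarith

/-- Row GK2 (X-ray transform of the first order term). Let `B` bound `κ` (GK0b). For large `k` (drop
the first ones: shift the sequence) `N k = √(1 + 2 (B + 1) δ k) * nrm (h k)` satisfies
`|v| ≤ N k v ≤ 2 |v|` and is `Γ`-invariant, without conjugate points (scaling:
`dN_smul`, as in row K2), and `BlowN` holds with
`ψ x = κ x (eht z x) (eht z x) / 2 + (B + 1)` (GK1, `√(1+u) = 1 + u/2 + O(u²)`, GH1 for continuity
and `eht_flat` for the upper bound: `h (vel, vel) = 4 ‖z‖² h (e, e)`). GF2, and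
`κ (vel, vel) = 4 ‖z‖² κ (e, e)`. -/
theorem xrayG {n : ℕ} (hn : 2 ≤ n) (Γ : Subgroup (SL n)) (hc : Coc Γ) (κ : PD n → Fm n)
    (h : ℕ → PD n → Fm n) (δ : ℕ → ℝ) (hD : Defo Γ κ h δ) (α : SL n) (hα : α ∈ Γ) (z : V0 n)
    (hz : IsLog α z) (hr : Reg α) (R : ℝ)
    (hR : ∀ v : V0 n, ∃ γ ∈ Γ, ∃ w, IsLog γ w ∧ ‖v + w‖ ≤ R) :
    ∃ c, ∀ y : V0 n, ∫ s in (0 : ℝ)..1,
      κ (sg (y + s • z)) (vel (y + s • z) z) (vel (y + s • z) z) = c := by
  have hz0 := GK2_z hn hz hr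
  have hzn : 0 < ‖z‖ := norm_pos_iff.2 hz0
  obtain ⟨B, hB, hκB⟩ := fm_bdd Γ hc κ hD.kap
  obtain ⟨b, hb⟩ : ∃ b, b = B + 1 := ⟨_, rfl⟩
  have hb1 : 1 ≤ b := by linarith
  have hb0 : 0 < b := by linarith
  have hev : ∀ᶠ k in atTop, δ k * b ≤ 1 / 4 := by
    have h1 : Tendsto (fun k => δ k * b) atTop (𝓝 (0 * b)) := hD.lim.mul_const b
    rw [zero_mul] at h1
    exact (h1.eventually (gt_mem_nhds (by norm_num : (0 : ℝ) < 1 / 4))).mono fun k hk => hk.le
  obtain ⟨K0, hK0⟩ := eventually_atTop.1 (hev.and (hD.conv 1 one_pos))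
  have hsh : Tendsto (fun k : ℕ => k + K0) atTop atTop := tendsto_add_atTop_nat K0
  have hGN : ∀ k, GN (nrm (h (k + K0))) (1 / 2) 2 ∧
      GN (fun x v => √ (1 + 2 * (b * δ (k + K0))) * nrm (h (k + K0)) x v) 1 2 := fun k =>
    GK2_gn (hD.ok _) hb hB (hD.pos _) (hK0 _ (Nat.le_add_left _ _)).1 hκB (hK0 _ (Nat.le_add_left _ _)).2
  have hef := eht_facts z hz0
  have hKB : ∀ x, |κ x (eht z x) (eht z x)| ≤ B := by
    intro x
    have h1 := hκB x _ (hef x).1
    rwa [(hef x).2.1, one_pow, mul_one] at h1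
  have hψc : Continuous fun x : PD n => κ x (eht z x) (eht z x) / 2 + b :=
    (((fm_cont Γ κ hD.kap).comp (continuous_id.prodMk (eht_cont z))).div_const 2).add continuous_const
  have hBl : BlowN Γ z (fun k x v => √ (1 + 2 * (b * δ (k + K0))) * nrm (h (k + K0)) x v)
      (fun x => κ x (eht z x) (eht z x) / 2 + b) (fun k => δ (k + K0)) := by
    refine ⟨fun k => hD.pos _, hD.lim.comp hsh, fun k => ⟨2, (hGN k).2⟩, ?_, ?_, hψc, ?_, ?_, ?_⟩
    · intro k γ hγ x v hv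
      show √ (1 + 2 * (b * δ (k + K0))) * nrm (h (k + K0)) (act γ x) (γ.1 * v * γ.1ᵀ) =
        √ (1 + 2 * (b * δ (k + K0))) * nrm (h (k + K0)) x v
      unfold nrm
      rw [(hD.ok (k + K0)).inv γ hγ x v hv]
    · intro k
      have h1 : 0 < √ (1 + 2 * (b * δ (k + K0))) := by
        apply Real.sqrt_pos.2
        have := hD.pos (k + K0)
        positivity
      exact GK2_nc (dN (nrm (h (k + K0)))) _ _ h1 (dN_smul _ _ _ (hGN k).1 _ h1) (hD.nc _)
    · refine ⟨B / 2 + b, fun x => ?_⟩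
      have h1 := hKB x
      rw [abs_le] at h1 ⊢
      constructor <;> linarith
    · intro ε hε
      have hε₁ : 0 < min ε 1 := lt_min hε one_pos
      have h1 := hsh.eventually (hD.conv (min ε 1) hε₁)
      have h2 : ∀ᶠ k in atTop, 13 * b ^ 2 * δ (k + K0) ≤ ε := by
        have h3 : Tendsto (fun k => 13 * b ^ 2 * δ (k + K0)) atTop (𝓝 (13 * b ^ 2 * 0)) :=
          (hD.lim.comp hsh).const_mul _
        rw [mul_zero] at h3
        exact (h3.eventually (gt_mem_nhds hε)).mono fun k hk => hk.le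
      filter_upwards [h1, h2] with k hk1 hk2 x v hv
      have hδb : δ (k + K0) * (B + 1) ≤ 1 / 4 := by
        rw [← hb]
        exact (hK0 _ (Nat.le_add_left _ _)).1
      have h3 := fm_low z hz0 x (h (k + K0) x) (κ x) (fun v w => (hD.ok _).symm x v w)
        (fun v w => hD.kap.symm x v w) B (δ (k + K0)) (min ε 1) hB (hD.pos _) hε₁ (min_le_right _ _) hδb
        (fun v hv => hk1 x v hv) (fun v hv => hκB x v hv) v hv
      obtain ⟨-, h5⟩ := GK2_scal hb hB (hKB x) (hD.pos (k + K0)) (by rw [mul_comm, hb]; exact hδb) hε₁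
        (min_le_right _ _) (min_le_left _ _) hk2
      show (1 + δ (k + K0) * (κ x (eht z x) (eht z x) / 2 + b - ε)) * |dht z x v| ≤
        √ (1 + 2 * (b * δ (k + K0))) * √ (h (k + K0) x v v)
      have h6 := mul_le_mul_of_nonneg_right h5 (abs_nonneg (dht z x v))
      rw [← hb] at h3
      have h7 := mul_le_mul_of_nonneg_left h3 (Real.sqrt_nonneg (1 + 2 * (b * δ (k + K0))))
      rw [← mul_assoc] at h7
      exact h6.trans h7
    · intro ε hε
      have h1 := hsh.eventually (hD.conv ε hε)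
      filter_upwards [h1] with k hk1 y
      have h2 := hk1 (sg y) _ (hef (sg y)).1
      rw [(hef (sg y)).2.1, one_pow, mul_one] at h2
      show √ (1 + 2 * (b * δ (k + K0))) * √ (h (k + K0) (sg y) (vel y z) (vel y z)) ≤
        2 * ‖z‖ * (1 + δ (k + K0) * (κ (sg y) (eht z (sg y)) (eht z (sg y)) / 2 + b + ε))
      have hδp := hD.pos (k + K0)
      have hs1 : δ (k + K0) * b ≤ 1 / 4 := (hK0 _ (Nat.le_add_left _ _)).1
      have hH0 : 0 ≤ h (k + K0) (sg y) (eht z (sg y)) (eht z (sg y)) := by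
        have h3 := (GK2_h hδp ((hK0 _ (Nat.le_add_left _ _)).2 (sg y) _ (hef (sg y)).1)
          (hκB (sg y) _ (hef (sg y)).1)).1
        rw [(hef (sg y)).2.1, ← hb] at h3
        nlinarith
      rw [eht_flat z hz0 y, GK2_smul, Real.sqrt_mul (sq_nonneg _), Real.sqrt_sq (by positivity)]
      have h3 := GK2_am (a := 1 + 2 * (b * δ (k + K0)))
        (c := h (k + K0) (sg y) (eht z (sg y)) (eht z (sg y))) (by positivity) hH0
      have h4 := (abs_le.1 h2).2
      have h5 : √ (1 + 2 * (b * δ (k + K0))) * √ (h (k + K0) (sg y) (eht z (sg y)) (eht z (sg y))) ≤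
          1 + δ (k + K0) * (κ (sg y) (eht z (sg y)) (eht z (sg y)) / 2 + b + ε) := by
        have h6 : 0 ≤ ε * δ (k + K0) := by positivity
        have h7 : δ (k + K0) * (κ (sg y) (eht z (sg y)) (eht z (sg y)) / 2 + b + ε) =
          δ (k + K0) * κ (sg y) (eht z (sg y)) (eht z (sg y)) / 2 + b * δ (k + K0) + ε * δ (k + K0) := by
          ring
        rw [h7]
        linarith
      have h6 := mul_le_mul_of_nonneg_left h5 (by positivity : 0 ≤ 2 * ‖z‖)
      linarith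
  obtain ⟨c, hcy⟩ := xrayN hn Γ α hα z hz hr _ _ _ hBl R hR
  refine ⟨8 * ‖z‖ ^ 2 * (c - b), fun y => ?_⟩
  have e1 : ∀ s : ℝ, κ (sg (y + s • z)) (vel (y + s • z) z) (vel (y + s • z) z) =
      8 * ‖z‖ ^ 2 * ((κ (sg (y + s • z)) (eht z (sg (y + s • z))) (eht z (sg (y + s • z))) / 2 + b) - b) := by
    intro s
    rw [eht_flat z hz0 (y + s • z), GK2_smul]
    ring
  have hcont : Continuous fun s : ℝ =>
      κ (sg (y + s • z)) (eht z (sg (y + s • z))) (eht z (sg (y + s • z))) / 2 + b := by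
    obtain ⟨-, -, -, -, -, -, -, -, hsg, -⟩ := flat_facts (n := n)
    exact hψc.comp (hsg.comp (continuous_const.add (continuous_id.smul continuous_const)))
  have e2 := hcy y
  simp only [e1]
  rw [intervalIntegral.integral_const_mul, intervalIntegral.integral_sub (hcont.intervalIntegrable _ _)
    (continuous_const.intervalIntegrable _ _), e2, intervalIntegral.integral_const]
  simp

end LibNC38
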