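import Pool.Agent.LibNG38.GK2
import Pool.Agent.LibNC38.K3

set_option autoImplicit false

open Matrix MeasureTheory Topology Filter Finset

namespace LibNC38

/-- `v ↦ g v gᵀ` -/
def cjm {n : ℕ} (g : SL n) : Mt n →ₗ[ℝ] Mt n where
  toFun v := g.1 * v * g.1ᵀ
  map_add' v w := by rw [Matrix.mul_add, Matrix.add_mul]
  map_smul' r v := by
    rw [Matrix.mul_smul, Matrix.smul_mul, RingHom.id_apply]

/-- pull back of a form by the isometry `act g` -/
def pbF {n : ℕ} (g : SL n) (κ : PD n → Fm n) (x : PD n) : Fm n :=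
  (κ (act g x)).compl₁₂ (cjm g) (cjm g)

theorem pbF_apply {n : ℕ} (g : SL n) (κ : PD n → Fm n) (x : PD n) (v w : Mt n) :
    pbF g κ x v w = κ (act g x) (g.1 * v * g.1ᵀ) (g.1 * w * g.1ᵀ) := rfl

private theorem GK3_conn {n : ℕ} (N : PD n → Mt n → ℝ) (g : SL n) (N' : PD n → Mt n → ℝ)
    (hg : ∀ x v, IsTan x v → N' (act g x) (g.1 * v * g.1ᵀ) = N x v) {p q : PD n} {l : ℝ}
    (h : ConnN N p q l) : ConnN N' (act g p) (act g q) l := by
  induction h with
  | seg c v h =>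
    have h1 := (curve_facts c v h).2.2.1 g
    have h2 := ConnN.seg (N := N') _ _ h1
    have h3 : lenN N' (fun s => act g (c s)) (fun s => g.1 * v s * g.1ᵀ) = lenN N c v := by
      unfold lenN
      have h4 : ∀ s : ℝ, N' (act g (c s)) (g.1 * v s * g.1ᵀ) = N (c s) (v s) :=
        fun s => hg _ _ (tan_facts.1 c v h s)
      simp only [h4]
    rw [h3] at h2
    exact h2
  | trans _ _ ih1 ih2 => exact ConnN.trans ih1 ih2

private theorem GK3_act_inv {n : ℕ} (g : SL n) (p : PD n) : act g (act g⁻¹ p) = p := by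
  rw [← act_facts.2.1, mul_inv_cancel, act_facts.1]

private theorem GK3_inv_act {n : ℕ} (g : SL n) (p : PD n) : act g⁻¹ (act g p) = p := by
  rw [← act_facts.2.1, inv_mul_cancel, act_facts.1]

private theorem GK3_vec {n : ℕ} (g : SL n) (v : Mt n) :
    g.1 * (g⁻¹.1 * v * g⁻¹.1ᵀ) * g.1ᵀ = v := by
  have ht1 : g.1 * g⁻¹.1 = 1 := by
    rw [← Matrix.SpecialLinearGroup.coe_mul, mul_inv_cancel, Matrix.SpecialLinearGroup.coe_one]
  have h2 : g⁻¹.1ᵀ * g.1ᵀ = 1 := by rw [← Matrix.transpose_mul, ht1, Matrix.transpose_one]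
  calc g.1 * (g⁻¹.1 * v * g⁻¹.1ᵀ) * g.1ᵀ = (g.1 * g⁻¹.1) * v * (g⁻¹.1ᵀ * g.1ᵀ) := by
        simp only [Matrix.mul_assoc]
    _ = v := by rw [ht1, h2, Matrix.one_mul, Matrix.mul_one]

private theorem GK3_cont {n : ℕ} (h : SL n) : Continuous (act h) := by
  refine Continuous.subtype_mk ?_ _
  exact (continuous_const.matrix_mul continuous_subtype_val).matrix_mul continuous_const

private theorem GK3_dist {n : ℕ} (g : SL n) (h : PD n → Fm n) (p q : PD n) :
    dN (nrm h) (act g p) (act g q) = dN (nrm (pbF g h)) p q := by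
  unfold dN
  congr 1
  ext l
  constructor
  · intro hl
    have h1 : ConnN (nrm (pbF g h)) (act g⁻¹ (act g p)) (act g⁻¹ (act g q)) l := by
      refine GK3_conn (nrm h) g⁻¹ (nrm (pbF g h)) (fun x v _ => ?_) hl
      unfold nrm
      rw [pbF_apply, GK3_act_inv, GK3_vec]
    rw [GK3_inv_act, GK3_inv_act] at h1
    exact h1
  · intro hl
    exact GK3_conn (nrm (pbF g h)) g (nrm h) (fun x v _ => rfl) hl

private theorem GK3_fm {n : ℕ} (Γ : Subgroup (SL n)) (κ : PD n → Fm n) (h : FmOK Γ κ) (g : SL n) :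
    FmOK (cj g Γ) (pbF g κ) := by
  refine ⟨fun v w => ?_, fun p v w => ?_, fun γ hγ p v hv => ?_⟩
  · exact (h.cont _ _).comp (GK3_cont g)
  · rw [pbF_apply, pbF_apply]
    exact h.symm _ _ _
  · rw [mem_cj] at hγ
    rw [pbF_apply, pbF_apply, ← h.inv _ hγ (act g p) _ (tan_facts.2.1 g p v hv)]
    have h1 : act (g * γ * g⁻¹) (act g p) = act g (act γ p) := by
      rw [← act_facts.2.1, ← act_facts.2.1, inv_mul_cancel_right]
    have h2 : (g * γ * g⁻¹).1 * (g.1 * v * g.1ᵀ) * (g * γ * g⁻¹).1ᵀ =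
        g.1 * (γ.1 * v * γ.1ᵀ) * g.1ᵀ := by
      have e1 : (g * γ * g⁻¹).1 * g.1 = g.1 * γ.1 := by
        rw [← Matrix.SpecialLinearGroup.coe_mul, inv_mul_cancel_right,
          Matrix.SpecialLinearGroup.coe_mul]
      have e2 : g.1ᵀ * (g * γ * g⁻¹).1ᵀ = γ.1ᵀ * g.1ᵀ := by
        rw [← Matrix.transpose_mul, e1, Matrix.transpose_mul]
      calc (g * γ * g⁻¹).1 * (g.1 * v * g.1ᵀ) * (g * γ * g⁻¹).1ᵀ
          = ((g * γ * g⁻¹).1 * g.1) * v * (g.1ᵀ * (g * γ * g⁻¹).1ᵀ) := by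
            simp only [Matrix.mul_assoc]
        _ = _ := by
            rw [e1, e2]
            simp only [Matrix.mul_assoc]
    rw [h1, h2]

private theorem GK3_nc {n : ℕ} (g : SL n) (h : PD n → Fm n) (hnc : NoConj (dN (nrm h))) :
    NoConj (dN (nrm (pbF g h))) := by
  have hinj : ∀ p q : PD n, act g p = act g q → p = q := by
    intro p q e
    rw [← GK3_inv_act g p, e, GK3_inv_act]
  have hgeo : ∀ (L : ℝ) (c : ℝ → PD n), IsGeod (dN (nrm (pbF g h))) L c →
      IsGeod (dN (nrm h)) L (fun t => act g (c t)) := by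
    intro L c hc t ht
    obtain ⟨ε, hε, H⟩ := hc t ht
    refine ⟨ε, hε, fun u hu v hv h1 h2 => ?_⟩
    rw [GK3_dist]
    exact H u hu v hv h1 h2
  intro L L' c c' hL hL' hc hc' h0 h1 hne
  obtain ⟨e1, e2⟩ := hnc L L' _ _ hL hL' (hgeo L c hc) (hgeo L' c' hc')
    (by simp only [h0]) (by simp only [h1]) (fun e => hne (hinj _ _ e))
  exact ⟨e1, fun t ht => hinj _ _ (e2 t ht)⟩

/-- Row GK3. A deformation seen from another base point. Continuity: expand `g v gᵀ` (fixed), the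
map `act g` is continuous. `conv`: `spd_facts`. `nc`: `act g` is an isometry from
`dN (nrm (pbF g h))` to `dN (nrm h)` (`dN_act`; it needs `GN` for `nrm (h k)`: only true for
large `k` by `conv`; if it is needed for all `k` prove the equality of the distances directly from
`ConnN`: `ConnN N p q l → ConnN N' (act g p) (act g q) l` is proved by induction without `GN`, see
GA3), then as in row K2b, `LibNC38/K2.lean`. -/
theorem defo_cj {n : ℕ} (Γ : Subgroup (SL n)) (κ : PD n → Fm n)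
    (h : ℕ → PD n → Fm n) (δ : ℕ → ℝ) (hD : Defo Γ κ h δ) (g : SL n) :
    Defo (cj g Γ) (pbF g κ) (fun k => pbF g (h k)) δ := by
  refine ⟨hD.pos, hD.lim, GK3_fm Γ κ hD.kap g, fun k => GK3_fm Γ (h k) (hD.ok k) g, ?_,
    fun k => GK3_nc g (h k) (hD.nc k)⟩
  intro ε hε
  refine (hD.conv ε hε).mono fun k hk x v hv => ?_
  have h1 := hk (act g x) (g.1 * v * g.1ᵀ) (tan_facts.2.1 g x v hv)
  rw [spd_facts.1] at h1
  rw [pbF_apply, pbF_apply]
  exact h1

end LibNC38
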