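import Pool.Agent.LibNG38.GC1
import Pool.Agent.LibNG38.GH1

set_option autoImplicit false

open Matrix MeasureTheory Topology Filter

namespace LibNC38

/-- the initial piece of a curve -/
private theorem piece {n : ℕ} (N : PD n → Mt n → ℝ) (c2 : ℝ) (h : GN N 1 c2) (c : ℝ → PD n)
    (v : ℝ → Mt n) (hc : IsC1 c v) (s : ℝ) (hs0 : 0 ≤ s) :
    dg (c 0) (c s) ≤ ∫ u in (0 : ℝ)..s, N (c u) (v u) := by
  have h1 : IsC1 (fun u => c (0 + s * u)) (fun u => s • v (0 + s * u)) :=
    (curve_facts c v hc).2.2.2.1 0 s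
  have h2 := ConnN.seg (N := N) _ _ h1
  have h3 := (dN_facts N 1 c2 h).2.2.2.2.2.1 _ _ _ h2
  have h4 := (dN_comp N 1 c2 h).1 (c 0) (c s)
  have h5 : lenN N (fun u => c (0 + s * u)) (fun u => s • v (0 + s * u)) =
      ∫ u in (0 : ℝ)..s, N (c u) (v u) := by
    unfold lenN
    have e1 : ∀ u : ℝ, N (c (0 + s * u)) (s • v (0 + s * u)) =
        s * (fun x => N (c x) (v x)) (s * u) := by
      intro u
      rw [h.hom _ _ (tan_facts.1 c v hc _), abs_of_nonneg hs0, zero_add]
    simp_rw [e1]
    rw [intervalIntegral.integral_const_mul]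
    have := intervalIntegral.smul_integral_comp_mul_left (a := 0) (b := 1)
      (fun x => N (c x) (v x)) s
    rw [mul_zero, mul_one, smul_eq_mul] at this
    exact this
  have e0 : c (0 + s * 0) = c 0 := by rw [mul_zero, add_zero]
  have e1 : c (0 + s * 1) = c s := by rw [mul_one, zero_add]
  rw [h5] at h3
  simp only [e0, e1] at h3
  linarith

private theorem chain {n : ℕ} (N : PD n → Mt n → ℝ) (c2 : ℝ) (h : GN N 1 c2) (z : V0 n)
    (p : PD n) (R m : ℝ) (hm : 0 ≤ m)
    (hR : ∀ x, dg p x < R → ∀ v, IsTan x v → m * |dht z x v| ≤ N x v) {a b : PD n} {l : ℝ}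
    (hab : ConnN N a b l) : dg p a + l < R → m * (ht z b - ht z a) ≤ l := by
  obtain ⟨-, -, hpos, -⟩ := connN_facts N 1 c2 h
  obtain ⟨-, -, -, htri⟩ := @dg_facts n
  induction hab with
  | seg c v hc =>
    intro hlt
    have hcont : Continuous fun s => N (c s) (v s) := tan_facts.2.2.2 c v hc N 1 c2 h
    have hN0 : ∀ s, 0 ≤ N (c s) (v s) := by
      intro s
      have := h.lo _ _ (tan_facts.1 c v hc s)
      have h0 := spd_facts.2.2.2 (c s) (v s)
      linarith
    have hder : ∀ s, HasDerivAt (fun s => (∫ u in (0 : ℝ)..s, N (c u) (v u)) - m * ht z (c s))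
        (N (c s) (v s) - m * dht z (c s) (v s)) s := by
      intro s
      exact ((hcont.integral_hasStrictDerivAt 0 s).hasDerivAt).sub
        ((ht_deriv z c v hc s).const_mul m)
    have hint : ∀ s ∈ Set.Icc (0 : ℝ) 1, 0 ≤ N (c s) (v s) - m * dht z (c s) (v s) := by
      intro s hs
      have h1 := piece N c2 h c v hc s hs.1
      have h2 : ∫ u in (0 : ℝ)..s, N (c u) (v u) ≤ lenN N c v := by
        unfold lenN
        rw [← intervalIntegral.integral_add_adjacent_intervals
          (hcont.intervalIntegrable 0 s) (hcont.intervalIntegrable s 1)]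
        have : 0 ≤ ∫ u in s..1, N (c u) (v u) :=
          intervalIntegral.integral_nonneg hs.2 fun u _ => hN0 u
        linarith
      have h3 := htri p (c 0) (c s)
      have h4 : dg p (c s) < R := by linarith
      have h5 := hR (c s) h4 (v s) (tan_facts.1 c v hc s)
      have h6 : m * dht z (c s) (v s) ≤ m * |dht z (c s) (v s)| :=
        mul_le_mul_of_nonneg_left (le_abs_self _) hm
      linarith
    have hmono : MonotoneOn (fun s => (∫ u in (0 : ℝ)..s, N (c u) (v u)) - m * ht z (c s))
        (Set.Icc 0 1) := by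
      refine monotoneOn_of_deriv_nonneg (convex_Icc 0 1)
        (fun s _ => (hder s).continuousAt.continuousWithinAt)
        (fun s _ => (hder s).differentiableAt.differentiableWithinAt) ?_
      intro s hs
      rw [interior_Icc] at hs
      rw [(hder s).deriv]
      exact hint s ⟨hs.1.le, hs.2.le⟩
    have h7 := hmono (Set.left_mem_Icc.2 zero_le_one) (Set.right_mem_Icc.2 zero_le_one)
      zero_le_one
    simp only [intervalIntegral.integral_same] at h7
    unfold lenN
    linarith
  | trans h1 h2 ih1 ih2 =>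
    rename_i x y w l1 l2
    intro hlt
    have p1 := hpos _ _ _ h1
    have p2 := hpos _ _ _ h2
    have d1 := (dN_facts N 1 c2 h).2.2.2.2.2.1 _ _ _ h1
    have d2 := (dN_comp N 1 c2 h).1 x y
    have t1 := htri p x y
    have i1 := ih1 (by linarith)
    have i2 := ih2 (by linarith)
    linarith

/-- Row GL. Local lower bound. Claim by induction on the chain: if `ConnN N a b l`,
`dg p a + l < R` then `m * (ht z b - ht z a) ≤ l`. Segment `c`: for `s ∈ [0,1]`
`dg p (c s) ≤ dg p a + ∫_0^s spd ≤ dg p a + l < R` (subcurve, A2, GC1, `spd ≤ N`), so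
`m * |dht| ≤ N` along the curve, and `m * (ht (c 1) - ht (c 0)) = ∫ m * dht ≤ ∫ N` (GH1,
`intervalIntegral.integral_eq_sub_of_hasDerivAt` or the mean value inequality). Then take chains
from `p` to `q` of length close to `dN N p q < R`. -/
theorem loc_lowN {n : ℕ} (N : PD n → Mt n → ℝ) (c2 : ℝ) (h : GN N 1 c2) (z : V0 n) (p q : PD n)
    (R m : ℝ) (hm : 0 ≤ m)
    (hR : ∀ x, dg p x < R → ∀ v, IsTan x v → m * |dht z x v| ≤ N x v) (hq : dN N p q < R) :
    m * (ht z q - ht z p) ≤ dN N p q := by
  refine le_of_forall_pos_lt_add fun ε hε => ?_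
  obtain ⟨l, hl, hc⟩ := (dN_facts N 1 c2 h).2.2.2.2.2.2 p q (min ε (R - dN N p q))
    (lt_min hε (by linarith))
  have m1 := min_le_left ε (R - dN N p q)
  have m2 := min_le_right ε (R - dN N p q)
  have hp : dg p p = 0 := (@dg_facts n).2.1 p
  have := chain N c2 h z p R m hm hR hc (by linarith)
  linarith

end LibNC38
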